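import Pool.Agent.H369R2.TD.Num

/-!
# Certified determinant codes for Turán systems (helper589): definitions and the statements of the
lemmas, `Tur`, `Rnd`, `detA`, `Psi` are those of `Pool.Agent.H369R2.TD`.
-/

set_option autoImplicit false

open Finset Filter

namespace Pool.Agent.TH589.DC

open Pool.Agent.H369R2.TD

/-- the set of columns that are nonzero -/
def csupp {R : Type} [Zero R] [DecidableEq R] {n : ℕ} (M : Fin n → R) : Finset (Fin n) :=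
  univ.filter fun v => M v ≠ 0

/-- the lone vertices of `Y`: no other column of `Y` is a multiple of theirs -/
def lone {F : Type} [Field F] [Fintype F] [DecidableEq F] {n k : ℕ} (Y : Finset (Fin n))
    (M : Fin n → Fin k → F) : Finset (Fin n) :=
  Y.filter fun v => ∀ u ∈ Y, u ≠ v → ∀ c : F, M u ≠ c • M v

/-- (LA1) the orbit of a matrix with independent rows under the general linear group is free -/
def S_GLINJ : Prop :=
  ∀ (F : Type) [Field F] [Fintype F] [DecidableEq F] (n k : ℕ) (M : Fin n → Fin k → F),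
    LinearIndependent F (fun i : Fin k => fun v : Fin n => M v i) →
    Function.Injective
      (fun g : GL (Fin k) F => fun v : Fin n => (g : Matrix (Fin k) (Fin k) F).mulVec (M v))

/-- (LA2) the number of invertible matrices -/
def S_GLCARD : Prop :=
  ∀ (F : Type) [Field F] [Fintype F] [DecidableEq F] (k : ℕ), 3 ≤ Fintype.card F →
    (Fintype.card F : ℝ) ^ (k * k) ≤
      (((Fintype.card F : ℝ) - 1) / ((Fintype.card F : ℝ) - 2)) * (Fintype.card (GL (Fin k) F) : ℝ)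

/-- (LA3) a matrix with independent rows consists of dependencies with probability `q^{-kD}` -/
def S_DEP : Prop :=
  ∀ (F : Type) [Field F] [Fintype F] [DecidableEq F] (n k D : ℕ) (M : Fin n → Fin k → F),
    LinearIndependent F (fun i : Fin k => fun v : Fin n => M v i) →
    ((univ.filter fun ξ : Fin n → Fin D → F => ∀ i : Fin k, ∑ v, M v i • ξ v = 0).card : ℝ)
        * ((Fintype.card F : ℝ) ^ k) ^ D
      = (Fintype.card (Fin n → Fin D → F) : ℝ)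

/-- (LA4) the number of column functions supported in `e` with exactly `m` zero columns in `e` -/
def S_SUPP : Prop :=
  ∀ (R : Type) [Zero R] [Fintype R] [DecidableEq R] (n m : ℕ) (e : Finset (Fin n)),
    (univ.filter fun α : Fin n → R => (∀ v, v ∉ e → α v = 0) ∧ (e \ csupp α).card = m).card
      = e.card.choose m * (Fintype.card R - 1) ^ (e.card - m)

/-- (LA5) `D + k` vectors of dimension `D` have `k` independent dependencies -/
def S_EXDEP : Prop :=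
  ∀ (F : Type) [Field F] [Fintype F] [DecidableEq F] (n k D : ℕ) (ξ : Fin n → Fin D → F)
    (S : Finset (Fin n)), S.card = D + k →
    ∃ M : Fin n → Fin k → F, LinearIndependent F (fun i : Fin k => fun v : Fin n => M v i) ∧
      (∀ v, v ∉ S → M v = 0) ∧ ∀ i : Fin k, ∑ v, M v i • ξ v = 0

/-- (LA6) at a lone vertex a matrix of full support can be reduced by one row -/
def S_RED : Prop :=
  ∀ (F : Type) [Field F] [Fintype F] [DecidableEq F] (n k : ℕ) (Y : Finset (Fin n))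
    (M : Fin n → Fin (k + 1) → F) (v : Fin n),
    LinearIndependent F (fun i : Fin (k + 1) => fun v : Fin n => M v i) →
    csupp M = Y → v ∈ lone Y M →
    ∃ M' : Fin n → Fin k → F, LinearIndependent F (fun i : Fin k => fun v : Fin n => M' v i) ∧
      csupp M' = Y.erase v ∧
      ∀ (D : ℕ) (ξ : Fin n → Fin D → F), (∀ i, ∑ v, M v i • ξ v = 0) →
        ∀ i, ∑ v, M' v i • ξ v = 0

/-- (LONE) balls in bins: few lone balls are unlikely (Chebyshev). `V` is the set of values, the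
classes of `r` (the bins) have `s` elements, `m + 1` balls -/
def S_LONE : Prop :=
  ∀ (ι V : Type) [Fintype ι] [DecidableEq ι] [Fintype V] [DecidableEq V] (r : V → V → Prop)
    [DecidableRel r] (s m : ℕ) (ε : ℝ), Equivalence r →
    (∀ x : V, (univ.filter fun y => r x y).card = s) → 1 ≤ s → 2 * s ≤ Fintype.card V →
    Fintype.card ι = m + 1 → 0 < ε →
    ((univ.filter fun f : ι → V =>
        ((univ.filter fun v : ι => ∀ u, u ≠ v → ¬ r (f u) (f v)).card : ℝ) <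
          (1 - ε) * (((m : ℝ) + 1) * (1 - (s : ℝ) / Fintype.card V) ^ m)).card : ℝ) ≤
      (1 / (ε ^ 2 * (((m : ℝ) + 1) * (1 - (s : ℝ) / Fintype.card V) ^ m)) +
        (s : ℝ) / (((Fintype.card V : ℝ) - s) * ε ^ 2)) * (Fintype.card V : ℝ) ^ (m + 1)

/-- (CH) choice of the second prime -/
def S_CH : Prop :=
  ∀ y₂ η : ℝ, 0 < y₂ → 0 < η → ∃ ε M₀ : ℝ, 0 < ε ∧ ε < 1 ∧ 0 < M₀ ∧ ∀ μ : ℝ, M₀ ≤ μ →
    ∃ p L : ℕ, p.Prime ∧ (L : ℝ) ≤ (1 - ε) * μ ∧ μ / ((p : ℝ) - 1) ≤ (1 + η) * y₂ ∧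
      (p : ℝ) / ((p : ℝ) - 1) ≤ 1 + η ∧ (1 - 1 / (p : ℝ)) ^ L ≤ Real.exp (-y₂)

/-- (MU) the expected number of lone vertices tends to infinity -/
def S_MU : Prop :=
  ∀ (q : ℕ) (x M : ℝ), 2 ≤ q → 0 < x →
    ∀ᶠ K : ℕ in atTop, ∀ d : ℕ, (q : ℝ) ^ K / x ≤ (d : ℝ) → (d : ℝ) ≤ x * (q : ℝ) ^ K →
      M ≤ ((d : ℝ) + 1) * (1 - ((q : ℝ) - 1) / ((q : ℝ) ^ K - 1)) ^ d

/-- (WT) a code for the sizes in a window and the plain determinant code on the high part give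
systems for the sizes in a window -/
def S_WT : Prop :=
  ∀ (q : ℕ) (y x y₃ x₃ D₁ D₂ P₁ P₂ lam V : ℝ), 2 ≤ q → 0 < y → y < x → 0 < y₃ → y₃ < x₃ →
    0 < lam → lam < 1 → 0 ≤ D₁ → 0 < P₁ → P₁ < 1 → P₂ < 1 →
    Real.exp (-y₃) * Psi 16 cc (4019 / 1000) x₃ ≤ D₂ → Real.exp (-y₃) ≤ P₂ →
    D₁ / (lam * (1 - P₂)) + D₂ * P₁ / ((1 - lam) * (1 - P₁)) < V →
    (∀ᶠ K : ℕ in atTop, ∀ d : ℕ, y * (q : ℝ) ^ K ≤ d → ((d : ℝ) + 1) ≤ x * (q : ℝ) ^ K →
      ∃ a Φ : ℝ, (∀ n, Rnd n d a Φ) ∧ 0 ≤ a ∧ 0 < Φ ∧ Φ ≤ P₁ ∧ ((d : ℝ) + 1) * a ≤ D₁) →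
    ∃ z η : ℝ, 0 < z ∧ 0 < η ∧ ∀ᶠ K : ℕ in atTop, ∀ m : ℕ, z * (q : ℝ) ^ K ≤ (m : ℝ) + 1 →
      (m : ℝ) + 1 ≤ z * (1 + η) * (q : ℝ) ^ K → Tur m (V / ((m : ℝ) + 1))

/-- (ALLR) from the windows to all sizes -/
def S_ALLR : Prop :=
  ∀ (q : ℕ) (z η V V' : ℝ), 2 ≤ q → 0 < z → 0 < η → 0 ≤ V → V ≤ 4 → V < V' →
    (∀ᶠ K : ℕ in atTop, ∀ m : ℕ, z * (q : ℝ) ^ K ≤ (m : ℝ) + 1 →
      (m : ℝ) + 1 ≤ z * (1 + η) * (q : ℝ) ^ K → Tur m (V / ((m : ℝ) + 1))) →
    ∀ᶠ r : ℕ in atTop, Tur r (V' / ((r : ℝ) + 1))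

/-- (NUM) the numerical constants -/
def S_NUM : Prop :=
  Real.exp (-(83 / 20)) * Psi 16 cc (4019 / 1000) (41501 / 10000) ≤ 16878 / 10000 ∧
  Real.exp (-(83 / 20)) ≤ 15765 / 1000000 ∧
  Real.exp (-(83 / 20 + 11 / 2)) ≤ 6443 / 100000000 ∧
  Real.exp (-(73 / 10)) * Psi 16 cc (4019 / 1000) (73001 / 10000) ≤ 20816 / 10000 ∧
  Real.exp (-(73 / 10)) ≤ 6756 / 10000000

end Pool.Agent.TH589.DC
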