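import Mathlib
import Pool.Agent.TH589.DC.Stmts

/-!
# From windows of sizes near `z q ^ K` to all large sizes (job 1438, helper111)
-/

set_option autoImplicit false

open Finset Filter

namespace Pool.Agent.TH589.DC

open Pool.Agent.H369R2.TD

theorem hs0 (x : ℝ) : HasSum (fun j : ℕ => x ^ j / (j.factorial : ℝ)) (Real.exp x) := by
  rw [Real.exp_eq_exp_ℝ]
  exact NormedSpace.expSeries_div_hasSum_exp x

theorem hs1 (x : ℝ) : HasSum (fun j : ℕ => (j : ℝ) * (x ^ j / (j.factorial : ℝ)))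
    (x * Real.exp x) := by
  rw [← hasSum_nat_add_iff' 1]
  simp only [range_one, sum_singleton, Nat.cast_zero, zero_mul, sub_zero]
  refine ((hs0 x).mul_left x).congr_fun ?_
  intro j
  rw [Nat.factorial_succ]
  push_cast
  field_simp
  ring

theorem hs2 (x : ℝ) : HasSum (fun j : ℕ => (j : ℝ) * ((j : ℝ) - 1) * (x ^ j / (j.factorial : ℝ)))
    (x ^ 2 * Real.exp x) := by
  rw [← hasSum_nat_add_iff' 2]
  simp only [sum_range_succ, range_zero, sum_empty, Nat.cast_zero, zero_mul, Nat.cast_one, sub_self,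
    mul_zero, add_zero, sub_zero]
  refine ((hs0 x).mul_left (x ^ 2)).congr_fun ?_
  intro j
  rw [Nat.factorial_succ, Nat.factorial_succ]
  push_cast
  have h1 : ((j : ℝ) + 1 + 1) ≠ 0 := by positivity
  have h2 : ((j : ℝ) + 1) ≠ 0 := by positivity
  have h3 : ((j.factorial : ℕ) : ℝ) ≠ 0 := by positivity
  have h4 : ((j : ℝ) + 2) = (j : ℝ) + 1 + 1 := by ring
  rw [h4]
  field_simp
  ring

theorem hsv (x : ℝ) : HasSum (fun j : ℕ => ((j : ℝ) - x) ^ 2 * (x ^ j / (j.factorial : ℝ)))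
    (x * Real.exp x) := by
  have h := ((hs2 x).add ((hs1 x).mul_left (1 - 2 * x))).add ((hs0 x).mul_left (x ^ 2))
  have e : x ^ 2 * Real.exp x + (1 - 2 * x) * (x * Real.exp x) + x ^ 2 * Real.exp x =
      x * Real.exp x := by ring
  rw [e] at h
  refine h.congr_fun ?_
  intro j
  ring

/-- Chebyshev's inequality for the Poisson distribution -/
theorem cheb {x Δ : ℝ} (hx : 0 < x) (hΔ : 0 < Δ) (S : Finset ℕ)
    (hS : ∀ j : ℕ, |(j : ℝ) - x| < Δ → j ∈ S) :
    Real.exp x * (1 - x / Δ ^ 2) ≤ ∑ j ∈ S, x ^ j / (j.factorial : ℝ) := by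
  have h1 : HasSum (fun j : ℕ => if j ∈ S then x ^ j / (j.factorial : ℝ) else 0)
      (∑ j ∈ S, if j ∈ S then x ^ j / (j.factorial : ℝ) else 0) := by
    apply hasSum_sum_of_ne_finset_zero
    intro j hj
    rw [if_neg hj]
  have h2 := (hs0 x).sub h1
  have h3 := (hsv x).div_const (Δ ^ 2)
  have h4 := hasSum_le (fun j => ?_) h2 h3
  · have h5 : (∑ j ∈ S, if j ∈ S then x ^ j / (j.factorial : ℝ) else 0) =
        ∑ j ∈ S, x ^ j / (j.factorial : ℝ) := sum_congr rfl fun j hj => if_pos hj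
    rw [h5] at h4
    have e : Real.exp x * (1 - x / Δ ^ 2) = Real.exp x - x * Real.exp x / Δ ^ 2 := by ring
    rw [e]
    linarith
  · have hp : 0 ≤ x ^ j / (j.factorial : ℝ) := by positivity
    by_cases hj : j ∈ S
    · rw [if_pos hj, sub_self]
      positivity
    · rw [if_neg hj, sub_zero]
      have h5 : Δ ≤ |(j : ℝ) - x| := not_lt.1 fun h => hj (hS j h)
      have h6 : Δ ^ 2 ≤ ((j : ℝ) - x) ^ 2 := by
        rw [← sq_abs ((j : ℝ) - x)]
        exact pow_le_pow_left₀ hΔ.le h5 2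
      rw [le_div_iff₀ (by positivity), mul_comm]
      exact mul_le_mul_of_nonneg_right h6 hp

/-- the upper bound of `Psi` for a window -/
theorem psi_window {Q z η V t : ℝ} (hQ : 0 < Q) (hz : 0 < z) (hη : 0 < η) (hV : V ≤ 4019 / 1000)
    (ht : 0 < t) (htQ : t ≤ z * η / 4 * Q) (c : ℕ → ℝ) (J : ℕ)
    (hc : ∀ j : ℕ, c j ≤ 4019 / 1000)
    (hcw : ∀ j : ℕ, z * Q ≤ j → (j : ℝ) ≤ z * (1 + η) * Q → c j ≤ V)
    (hJ : ∀ j : ℕ, (j : ℝ) ≤ z * (1 + η) * Q → j < J) (hV0 : 0 ≤ V) :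
    Real.exp (-(z * (1 + η / 2) * Q)) * Psi J c (4019 / 1000) (z * (1 + η / 2) * Q + t) ≤
      Real.exp t * (V + 4019 / 1000 *
        ((z * (1 + η / 2) * Q + t) / (z * η / 4 * Q) ^ 2)) := by
  set Y := z * (1 + η / 2) * Q with hY
  set Δ := z * η / 4 * Q with hΔ
  have hY0 : 0 < Y := by positivity
  have hΔ0 : 0 < Δ := by positivity
  have hx0 : 0 < Y + t := by positivity
  set W : Finset ℕ := (range J).filter (fun j => z * Q ≤ j ∧ (j : ℝ) ≤ z * (1 + η) * Q) with hW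
  have hch := cheb hx0 hΔ0 W (by
    intro j hj
    rw [abs_lt] at hj
    have h2 : z * (1 + η) * Q = Y + 2 * Δ := by
      rw [hY, hΔ]
      ring
    have h3 : z * Q = Y - 2 * Δ := by
      rw [hY, hΔ]
      ring
    have h4 : (j : ℝ) ≤ z * (1 + η) * Q := by
      rw [h2]
      linarith [hj.2]
    rw [hW, mem_filter, mem_range]
    refine ⟨hJ j h4, ?_, h4⟩
    rw [h3]
    linarith [hj.1])
  have hsum : ∑ j ∈ range J, (c j - 4019 / 1000) * ((Y + t) ^ j / (j.factorial : ℝ)) ≤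
      (V - 4019 / 1000) * ∑ j ∈ W, (Y + t) ^ j / (j.factorial : ℝ) := by
    rw [mul_sum, hW, sum_filter]
    refine sum_le_sum fun j _ => ?_
    have hp : 0 ≤ (Y + t) ^ j / (j.factorial : ℝ) := by positivity
    split_ifs with h
    · exact mul_le_mul_of_nonneg_right (by linarith [hcw j h.1 h.2]) hp
    · exact mul_nonpos_of_nonpos_of_nonneg (by linarith [hc j]) hp
  have h1 : (V - 4019 / 1000) * ∑ j ∈ W, (Y + t) ^ j / (j.factorial : ℝ) ≤
      (V - 4019 / 1000) * (Real.exp (Y + t) * (1 - (Y + t) / Δ ^ 2)) :=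
    mul_le_mul_of_nonpos_left hch (by linarith)
  have h2 : Psi J c (4019 / 1000) (Y + t) ≤
      Real.exp (Y + t) * (V + 4019 / 1000 * ((Y + t) / Δ ^ 2)) := by
    unfold Psi
    have h3 : 0 ≤ V * (Real.exp (Y + t) * ((Y + t) / Δ ^ 2)) := by positivity
    nlinarith [hsum, h1, h3]
  calc Real.exp (-Y) * Psi J c (4019 / 1000) (Y + t) ≤
      Real.exp (-Y) * (Real.exp (Y + t) * (V + 4019 / 1000 * ((Y + t) / Δ ^ 2))) :=
        mul_le_mul_of_nonneg_left h2 (Real.exp_pos _).le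
    _ = _ := by
      rw [← mul_assoc, ← Real.exp_add]
      congr 2
      ring

theorem allr_thm : S_ALLR := by
  intro q z η V V' hq hz hη hV0 hV4 hVV' hT
  obtain ⟨D, hD1, hD2⟩ := exists_between hVV'
  have hD0 : 0 < D := lt_of_le_of_lt hV0 hD1
  have hV'0 : 0 < V' := hD0.trans hD2
  obtain ⟨t, ht0, ht1⟩ : ∃ t : ℝ, 0 < t ∧ Real.exp t * V < D := by
    have hcont : Tendsto (fun t : ℝ => Real.exp t * V) (nhdsWithin 0 (Set.Ioi 0))
        (nhds (Real.exp 0 * V)) := by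
      apply Tendsto.mono_left _ nhdsWithin_le_nhds
      exact (Continuous.tendsto (f := fun t : ℝ => Real.exp t * V) (by fun_prop) 0)
    have h1 : Real.exp 0 * V < D := by simpa using hD1
    have h2 := (hcont.eventually_lt_const h1).and self_mem_nhdsWithin
    obtain ⟨t, h3, h4⟩ := h2.exists
    exact ⟨t, h4, h3⟩
  obtain ⟨lam, hlam1, hlam2⟩ := exists_between ((div_lt_one hV'0).2 hD2)
  have hlam0 : 0 < lam := lt_trans (by positivity) hlam1
  have hlamD : D / lam < V' := by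
    rw [div_lt_iff₀ hV'0] at hlam1
    rw [div_lt_iff₀ hlam0]
    linarith
  have hq1 : (1 : ℝ) < q := by
    have : (2 : ℝ) ≤ q := by exact_mod_cast hq
    linarith
  have hQlim : Tendsto (fun K : ℕ => (q : ℝ) ^ K) atTop atTop :=
    tendsto_pow_atTop_atTop_of_one_lt hq1
  have hYlim : Tendsto (fun K : ℕ => z * (1 + η / 2) * (q : ℝ) ^ K) atTop atTop :=
    hQlim.const_mul_atTop (by positivity)
  have hPlim : Tendsto (fun K : ℕ => Real.exp (-(z * (1 + η / 2) * (q : ℝ) ^ K))) atTop (nhds 0) :=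
    Real.tendsto_exp_neg_atTop_nhds_zero.comp hYlim
  -- the eventual conditions
  have c1 : ∀ᶠ K : ℕ in atTop, t ≤ z * η / 4 * (q : ℝ) ^ K :=
    (hQlim.const_mul_atTop (by positivity : 0 < z * η / 4)).eventually_ge_atTop t
  have c2 : ∀ᶠ K : ℕ in atTop, Real.exp t * (V + 4019 / 1000 *
        ((z * (1 + η / 2) * (q : ℝ) ^ K + t) / (z * η / 4 * (q : ℝ) ^ K) ^ 2)) < D := by
    have hlim : Tendsto (fun K : ℕ => Real.exp t * (V + 4019 / 1000 *
        (z * (1 + η / 2) / (z * η / 4) ^ 2 * ((q : ℝ) ^ K)⁻¹ +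
          t / (z * η / 4) ^ 2 * (((q : ℝ) ^ K)⁻¹ * ((q : ℝ) ^ K)⁻¹)))) atTop
        (nhds (Real.exp t * (V + 4019 / 1000 *
        (z * (1 + η / 2) / (z * η / 4) ^ 2 * 0 + t / (z * η / 4) ^ 2 * (0 * 0))))) := by
      have h0 : Tendsto (fun K : ℕ => ((q : ℝ) ^ K)⁻¹) atTop (nhds 0) :=
        tendsto_inv_atTop_zero.comp hQlim
      exact (((h0.const_mul _).add ((h0.mul h0).const_mul _)).const_mul _ |>.const_add _).const_mul _
    have h1 : Real.exp t * (V + 4019 / 1000 *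
        (z * (1 + η / 2) / (z * η / 4) ^ 2 * 0 + t / (z * η / 4) ^ 2 * (0 * 0))) < D := by
      simpa using ht1
    filter_upwards [hlim.eventually_lt_const h1] with K hK
    refine lt_of_le_of_lt (le_of_eq ?_) hK
    have hQ0 : (q : ℝ) ^ K ≠ 0 := by positivity
    congr 3
    field_simp
  have c3 : ∀ᶠ K : ℕ in atTop,
      D / (lam * (1 - Real.exp (-(z * (1 + η / 2) * (q : ℝ) ^ K)))) +
        D * Real.exp (-(z * (1 + η / 2) * (q : ℝ) ^ K)) /
          ((1 - lam) * (1 - Real.exp (-(z * (1 + η / 2) * (q : ℝ) ^ K)))) < V' := by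
    have hlim : Tendsto (fun K : ℕ => 
      D / (lam * (1 - Real.exp (-(z * (1 + η / 2) * (q : ℝ) ^ K)))) +
        D * Real.exp (-(z * (1 + η / 2) * (q : ℝ) ^ K)) /
          ((1 - lam) * (1 - Real.exp (-(z * (1 + η / 2) * (q : ℝ) ^ K))))) atTop
          (nhds (D / (lam * (1 - 0)) + D * 0 / ((1 - lam) * (1 - 0)))) := by
      refine Tendsto.add (Tendsto.div tendsto_const_nhds ((tendsto_const_nhds.sub hPlim).const_mul _)
        ?_) (Tendsto.div (hPlim.const_mul _) ((tendsto_const_nhds.sub hPlim).const_mul _) ?_)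
      · simpa using hlam0.ne'
      · have : (1 - lam) ≠ 0 := by linarith
        simpa using this
    have h1 : D / (lam * (1 - 0)) + D * 0 / ((1 - lam) * (1 - 0)) < V' := by
      simpa using hlamD
    exact hlim.eventually_lt_const h1
  obtain ⟨K, hKT, hK1, hK2, hK3⟩ := (hT.and (c1.and (c2.and c3))).exists
  set Q : ℝ := (q : ℝ) ^ K with hQ
  have hQ0 : 0 < Q := by positivity
  set Y : ℝ := z * (1 + η / 2) * Q with hY
  have hY0 : 0 < Y := by positivity
  classical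
  let δ : ℕ → ℝ := fun m => if z * Q ≤ (m : ℝ) + 1 ∧ (m : ℝ) + 1 ≤ z * (1 + η) * Q then
    V / ((m : ℝ) + 1) else (4019 / 1000) / ((m : ℝ) + 1)
  let c : ℕ → ℝ := fun j => (j : ℝ) * δ (j - 1)
  have hδ : ∀ m, Tur m (δ m) := by
    intro m
    by_cases h : z * Q ≤ (m : ℝ) + 1 ∧ (m : ℝ) + 1 ≤ z * (1 + η) * Q
    · have e : δ m = V / ((m : ℝ) + 1) := if_pos h
      rw [e]
      exact hKT m h.1 h.2
    · have e : δ m = (4019 / 1000) / ((m : ℝ) + 1) := if_neg h
      rw [e]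
      exact tur_4019 m
  have hδ0 : ∀ m, 0 ≤ δ m := by
    intro m
    dsimp only [δ]
    split_ifs <;> positivity
  have hcm : ∀ m : ℕ, ((m : ℝ) + 1) * δ m = if z * Q ≤ (m : ℝ) + 1 ∧
      (m : ℝ) + 1 ≤ z * (1 + η) * Q then V else 4019 / 1000 := by
    intro m
    dsimp only [δ]
    have : ((m : ℝ) + 1) ≠ 0 := by positivity
    split_ifs
    · field_simp
    · field_simp
  have hK : ∀ m : ℕ, ((m : ℝ) + 1) * δ m ≤ 4019 / 1000 := by
    intro m
    rw [hcm]
    split_ifs <;> linarith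
  have hcs : ∀ m : ℕ, c (m + 1) = ((m : ℝ) + 1) * δ m := by
    intro m
    change ((m + 1 : ℕ) : ℝ) * δ (m + 1 - 1) = _
    rw [Nat.add_sub_cancel]
    push_cast
    rfl
  have hc0 : c 0 = 0 := by
    change ((0 : ℕ) : ℝ) * _ = 0
    simp
  have hcle : ∀ j, c j ≤ 4019 / 1000 := by
    intro j
    rcases j with _ | m
    · rw [hc0]
      norm_num
    · rw [hcs]
      exact hK m
  have hpsi := psi_window (Q := Q) (z := z) (η := η) (V := V) (t := t) hQ0 hz hη (by linarith) ht0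
    hK1 c (⌊z * (1 + η) * Q⌋₊ + 1) hcle (by
      intro j hj1 hj2
      rcases j with _ | m
      · rw [hc0]
        exact hV0
      · rw [hcs, hcm]
        push_cast at hj1 hj2
        rw [if_pos ⟨hj1, hj2⟩]) (by
      intro j hj
      exact Nat.lt_succ_of_le (Nat.le_floor hj)) hV0
  have hD := hpsi.trans hK2.le
  have hP1 : Real.exp (-Y) < 1 := by
    rw [Real.exp_lt_one_iff]
    linarith
  exact asymptotic (δ := δ) (c := c) (J := ⌊z * (1 + η) * Q⌋₊ + 1) (K := 4019 / 1000) hδ hδ0 hc0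
    (fun m _ => (hcs m).ge) hK (by omega) (y₁ := Y) (x₁ := Y + t) (y₂ := Y) (x₂ := Y + t)
    (lam := lam) (D₁ := D) (D₂ := D) (P₁ := Real.exp (-Y)) (P₂ := Real.exp (-Y))
    hY0 (by linarith) hY0 (by linarith) hlam0 hlam2 hD hD le_rfl hP1 le_rfl hP1 hK3

end Pool.Agent.TH589.DC
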