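import Mathlib
import Pool.Agent.TH589.DC.Stmts

/-! Choice of a prime and the expected number of lone vertices (job 1436, by helper209 for
helper589). -/

set_option autoImplicit false

open Finset Filter

namespace Pool.Agent.TH589.DC

open Pool.Agent.H369R2.TD

theorem ch_thm : S_CH := by
  intro y η hy hη
  set ε : ℝ := min (1 / 2) (η / (2 * (1 + η))) with hε
  have h1η : 0 < 1 + η := by linarith
  have hε0 : 0 < ε := lt_min (by norm_num) (by positivity)
  have hε1 : ε ≤ 1 / 2 := min_le_left _ _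
  have hε2 : ε * (1 + η) ≤ η / 2 := by
    have : ε ≤ η / (2 * (1 + η)) := min_le_right _ _
    calc ε * (1 + η) ≤ η / (2 * (1 + η)) * (1 + η) := by gcongr
      _ = η / 2 := by field_simp
  have hlim : Tendsto (fun μ : ℝ => 1 + μ / ((1 + η) * y)) atTop atTop :=
    tendsto_atTop_add_const_left _ _ (tendsto_id.atTop_div_const (by positivity))
  have key : ∀ᶠ μ : ℝ in atTop, ∃ p L : ℕ, p.Prime ∧ (L : ℝ) ≤ (1 - ε) * μ ∧
      μ / ((p : ℝ) - 1) ≤ (1 + η) * y ∧ (p : ℝ) / ((p : ℝ) - 1) ≤ 1 + η ∧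
      (1 - 1 / (p : ℝ)) ^ L ≤ Real.exp (-y) := by
    have e1 := hlim.eventually (Pool.Agent.Helper213.Sidon.prime_between (η / 4) (by positivity))
    have e2 := hlim.eventually_ge_atTop ((1 + η) / η)
    filter_upwards [e1, e2, eventually_ge_atTop (((1 + η / 4) * y + 1) * (1 + η) * 4 / η),
      eventually_gt_atTop 0] with μ ⟨p, hp, hp1, hp2⟩ h2 h3 h0
    have hpy : 0 < μ / ((1 + η) * y) := by positivity
    have hp1' : 0 < (p : ℝ) - 1 := by linarith
    refine ⟨p, ⌊(1 - ε) * μ⌋₊, hp, Nat.floor_le (mul_nonneg (by linarith) h0.le), ?_, ?_, ?_⟩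
    · rw [div_le_iff₀ hp1']
      have h4 : μ / ((1 + η) * y) ≤ (p : ℝ) - 1 := by linarith
      rw [div_le_iff₀ (by positivity)] at h4
      linarith
    · rw [div_le_iff₀ hp1']
      have h4 : (1 + η) / η ≤ p := by linarith
      rw [div_le_iff₀ hη] at h4
      nlinarith
    · have hp0 : 0 < (p : ℝ) := by linarith
      have hfl : (1 - ε) * μ - 1 < ((⌊(1 - ε) * μ⌋₊ : ℕ) : ℝ) := by
        have := Nat.lt_floor_add_one ((1 - ε) * μ)
        linarith
      have hL : y * p ≤ ((⌊(1 - ε) * μ⌋₊ : ℕ) : ℝ) := by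
        refine le_trans ?_ hfl.le
        have h5 : y * p ≤ y * ((1 + η / 4) * (1 + μ / ((1 + η) * y))) := by gcongr
        refine h5.trans ?_
        have h6 : y * ((1 + η / 4) * (1 + μ / ((1 + η) * y)))
            = (1 + η / 4) * (y + μ / (1 + η)) := by field_simp
        rw [h6]
        have h7 : (1 + η / 4) * y + 1 ≤ η / 4 * (μ / (1 + η)) := by
          rw [div_le_iff₀ hη] at h3
          rw [← sub_nonneg]
          have : η / 4 * (μ / (1 + η)) - ((1 + η / 4) * y + 1)
              = (μ * η - ((1 + η / 4) * y + 1) * (1 + η) * 4) / (4 * (1 + η)) := by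
            field_simp
          rw [this]
          apply div_nonneg _ (by positivity)
          linarith
        have h8 : (1 + η / 2) * (μ / (1 + η)) ≤ (1 - ε) * μ := by
          have h9 : 0 < μ / (1 + η) := by positivity
          have h10 : (1 - ε) * μ = (1 - ε) * (1 + η) * (μ / (1 + η)) := by field_simp
          rw [h10]
          apply mul_le_mul_of_nonneg_right _ h9.le
          linarith
        nlinarith
      calc (1 - 1 / (p : ℝ)) ^ ⌊(1 - ε) * μ⌋₊
          ≤ (Real.exp (-(1 / (p : ℝ)))) ^ ⌊(1 - ε) * μ⌋₊ := by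
            apply pow_le_pow_left₀
            · rw [sub_nonneg, div_le_one hp0]; linarith
            · exact Real.one_sub_le_exp_neg _
        _ = Real.exp (-(((⌊(1 - ε) * μ⌋₊ : ℕ) : ℝ) / p)) := by
            rw [← Real.exp_nat_mul]; congr 1; ring
        _ ≤ Real.exp (-y) := by
            apply Real.exp_le_exp.2
            rw [neg_le_neg_iff, le_div_iff₀ hp0]
            exact hL
  obtain ⟨a, ha⟩ := eventually_atTop.1 key
  exact ⟨ε, max a 1, hε0, by linarith, by positivity, fun μ hμ => ha μ ((le_max_left _ _).trans hμ)⟩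

lemma exp_le_one_sub {t : ℝ} (h0 : 0 ≤ t) (h1 : t ≤ 1 / 2) : Real.exp (-(2 * t)) ≤ 1 - t := by
  have hp : 0 < 1 - t := by linarith
  rw [← Real.le_log_iff_exp_le hp]
  refine le_trans ?_ (Real.one_sub_inv_le_log_of_pos hp)
  have : 1 - (1 - t)⁻¹ = -(t / (1 - t)) := by field_simp; ring
  rw [this, neg_le_neg_iff, div_le_iff₀ hp]
  nlinarith

theorem mu_thm : S_MU := by
  intro q x M hq hx
  have hq2 : (2 : ℝ) ≤ q := by exact_mod_cast hq
  have hlim : Tendsto (fun K : ℕ => (q : ℝ) ^ K) atTop atTop :=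
    tendsto_pow_atTop_atTop_of_one_lt (by linarith)
  filter_upwards [hlim.eventually_ge_atTop (2 * (q : ℝ)),
    hlim.eventually_ge_atTop (|M| * x * Real.exp (4 * ((q : ℝ) - 1) * x))] with K h1 h2 d hd1 hd2
  set Q : ℝ := (q : ℝ) ^ K with hQ
  have hQ1 : 0 < Q - 1 := by linarith
  have hQ0 : 0 < Q := by linarith
  set t : ℝ := ((q : ℝ) - 1) / (Q - 1) with ht
  have ht0 : 0 ≤ t := div_nonneg (by linarith) hQ1.le
  have ht1 : t ≤ 1 / 2 := by rw [ht, div_le_iff₀ hQ1]; linarith
  have ht2 : t ≤ 2 * ((q : ℝ) - 1) / Q := by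
    rw [ht, div_le_div_iff₀ hQ1 hQ0]
    nlinarith
  have h3 : Real.exp (-(4 * ((q : ℝ) - 1) * x)) ≤ (1 - t) ^ d := by
    calc Real.exp (-(4 * ((q : ℝ) - 1) * x)) ≤ Real.exp (d * (-(2 * t))) := by
          apply Real.exp_le_exp.2
          have : (d : ℝ) * t ≤ (x * Q) * (2 * ((q : ℝ) - 1) / Q) := by
            apply mul_le_mul hd2 ht2 ht0 (by positivity)
          have e : (x * Q) * (2 * ((q : ℝ) - 1) / Q) = 2 * ((q : ℝ) - 1) * x := by field_simp
          rw [e] at this
          linarith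
      _ = Real.exp (-(2 * t)) ^ d := by rw [Real.exp_nat_mul]
      _ ≤ (1 - t) ^ d := pow_le_pow_left₀ (Real.exp_pos _).le (exp_le_one_sub ht0 ht1) _
  have h4 : Q / x ≤ (d : ℝ) + 1 := by linarith
  calc M ≤ |M| := le_abs_self M
    _ = (|M| * x * Real.exp (4 * ((q : ℝ) - 1) * x)) / x * Real.exp (-(4 * ((q : ℝ) - 1) * x)) := by
        rw [Real.exp_neg]
        field_simp
    _ ≤ Q / x * Real.exp (-(4 * ((q : ℝ) - 1) * x)) := by gcongr
    _ ≤ ((d : ℝ) + 1) * (1 - t) ^ d := by
        apply mul_le_mul h4 h3 (Real.exp_pos _).le (by positivity)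

end Pool.Agent.TH589.DC
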