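import Pool.Agent.TH589.DC.Stmts

/-!
# The certified determinant code (helper589): the random family
-/

set_option autoImplicit false

open Finset

namespace Pool.Agent.TH589.DC

open Pool.Agent.H369R2.TD

/-! ### counting tools -/

theorem count_orbit {G X : Type} [Fintype G] [DecidableEq X] (S : Finset X) (act : G → X → X)
    (hS : S.Nonempty) (hinj : ∀ x ∈ S, Function.Injective fun g => act g x)
    (hc : ∀ x ∈ S, ∀ g, act g x ∈ S) : Fintype.card G ≤ S.card := by
  classical
  obtain ⟨x, hx⟩ := hS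
  rw [← Finset.card_univ, ← Finset.card_image_of_injective univ (hinj x hx)]
  apply Finset.card_le_card
  intro y hy
  rw [mem_image] at hy
  obtain ⟨g, _, rfl⟩ := hy
  exact hc x hx g

theorem first_moment {Ω X : Type} [Fintype Ω] [Fintype X] (E : Ω → Prop) [DecidablePred E]
    (R : Ω → X → Prop) [∀ ω x, Decidable (R ω x)] (N : ℕ) (h : ∀ ω, E ω → N ≤ (univ.filter fun x => R ω x).card) :
    N * (univ.filter fun ω => E ω).card ≤ ∑ x, (univ.filter fun ω => R ω x).card := by
  calc N * (univ.filter fun ω => E ω).card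
      = ∑ ω ∈ univ.filter (fun ω => E ω), N := by
        rw [Finset.sum_const, smul_eq_mul, mul_comm]
    _ ≤ ∑ ω ∈ univ.filter (fun ω => E ω), (univ.filter fun x => R ω x).card := by
        apply Finset.sum_le_sum
        intro ω hω
        rw [mem_filter] at hω
        exact h ω hω.2
    _ ≤ ∑ ω, (univ.filter fun x => R ω x).card :=
        Finset.sum_le_sum_of_subset (filter_subset _ _)
    _ = _ := by
        simp_rw [Finset.card_filter]
        rw [Finset.sum_comm]

variable {F : Type} [Field F] [Fintype F] [DecidableEq F] {n k : ℕ}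

/-- the rows are independent -/
def RowInd (M : Fin n → Fin k → F) : Prop :=
  LinearIndependent F (fun i : Fin k => fun v : Fin n => M v i)

/-- the rows are dependencies of `ξ` -/
def Dep {D : ℕ} (ξ : Fin n → Fin D → F) (M : Fin n → Fin k → F) : Prop :=
  ∀ i : Fin k, ∑ v, M v i • ξ v = 0

/-- the action of the general linear group -/
def glact (g : GL (Fin k) F) (M : Fin n → Fin k → F) : Fin n → Fin k → F :=
  fun v => (g : Matrix (Fin k) (Fin k) F).mulVec (M v)

omit [Fintype F] [DecidableEq F] in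
theorem glact_apply (g : GL (Fin k) F) (M : Fin n → Fin k → F) (v : Fin n) (i : Fin k) :
    glact g M v i = ∑ j, (g : Matrix (Fin k) (Fin k) F) i j * M v j := rfl

omit [Fintype F] [DecidableEq F] in
theorem gl_mulVec_inj (g : GL (Fin k) F) :
    Function.Injective (g : Matrix (Fin k) (Fin k) F).mulVec := by
  intro x y hxy
  have h := congrArg ((g⁻¹ : GL (Fin k) F) : Matrix (Fin k) (Fin k) F).mulVec hxy
  rw [Matrix.mulVec_mulVec, Matrix.mulVec_mulVec] at h
  simpa using h

omit [Fintype F] [DecidableEq F] in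
theorem glact_eq_zero (g : GL (Fin k) F) (M : Fin n → Fin k → F) (v : Fin n) :
    glact g M v = 0 ↔ M v = 0 := by
  unfold glact
  constructor
  · intro h
    apply gl_mulVec_inj g
    rw [h, Matrix.mulVec_zero]
  · intro h
    rw [h, Matrix.mulVec_zero]

omit [Fintype F] in
theorem csupp_glact (g : GL (Fin k) F) (M : Fin n → Fin k → F) :
    csupp (glact g M) = csupp M := by
  ext v
  simp only [csupp, mem_filter, mem_univ, true_and, ne_eq, glact_eq_zero]

omit [Fintype F] [DecidableEq F] in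
theorem RowInd.glact {M : Fin n → Fin k → F} (h : RowInd M) (g : GL (Fin k) F) :
    RowInd (glact g M) := by
  unfold RowInd at h ⊢
  rw [Fintype.linearIndependent_iff] at h ⊢
  intro c hc
  have h1 : ∑ j, (Matrix.vecMul c (g : Matrix (Fin k) (Fin k) F)) j • (fun v : Fin n => M v j)
      = 0 := by
    ext v
    have h2 := congrFun hc v
    simp only [Finset.sum_apply, Pi.smul_apply, smul_eq_mul, Pi.zero_apply, glact_apply] at h2 ⊢
    rw [← h2]
    simp only [Matrix.vecMul, dotProduct, Finset.mul_sum, Finset.sum_mul]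
    rw [Finset.sum_comm]
    refine Finset.sum_congr rfl fun i _ => Finset.sum_congr rfl fun j _ => ?_
    ring
  have h3 := h _ h1
  have h4 : Matrix.vecMul c (g : Matrix (Fin k) (Fin k) F) = 0 := funext h3
  have h5 := congrArg (fun x => Matrix.vecMul x ((g⁻¹ : GL (Fin k) F) : Matrix (Fin k) (Fin k) F)) h4
  simp only [Matrix.vecMul_vecMul, Matrix.zero_vecMul] at h5
  have h6 : (g : Matrix (Fin k) (Fin k) F) * ((g⁻¹ : GL (Fin k) F) : Matrix (Fin k) (Fin k) F) = 1 := by
    rw [← Units.val_mul]; simp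
  rw [h6, Matrix.vecMul_one] at h5
  intro i
  rw [h5]; rfl

omit [Fintype F] [DecidableEq F] in
theorem Dep.glact {D : ℕ} {ξ : Fin n → Fin D → F} {M : Fin n → Fin k → F} (h : Dep ξ M)
    (g : GL (Fin k) F) : Dep ξ (glact g M) := by
  intro i
  have h1 : ∑ v, Pool.Agent.TH589.DC.glact g M v i • ξ v
      = ∑ j, (g : Matrix (Fin k) (Fin k) F) i j • ∑ v, M v j • ξ v := by
    simp only [glact_apply, Finset.sum_smul, Finset.smul_sum]
    rw [Finset.sum_comm]
    refine Finset.sum_congr rfl fun j _ => Finset.sum_congr rfl fun v _ => ?_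
    rw [mul_smul]
  rw [h1]
  apply Finset.sum_eq_zero
  intro j _
  rw [h j, smul_zero]

theorem lone_glact (g : GL (Fin k) F) (Y : Finset (Fin n)) (M : Fin n → Fin k → F) :
    lone Y (glact g M) = lone Y M := by
  ext v
  simp only [lone, mem_filter]
  refine and_congr_right fun _ => ?_
  refine forall_congr' fun u => forall_congr' fun _ => forall_congr' fun _ =>
    forall_congr' fun c => not_congr ?_
  unfold glact
  rw [← Matrix.mulVec_smul]
  exact (gl_mulVec_inj g).eq_iff

omit [Fintype F] in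
theorem csupp_subset {M : Fin n → Fin k → F} {e : Finset (Fin n)} :
    (∀ v, v ∉ e → M v = 0) ↔ csupp M ⊆ e := by
  constructor
  · intro h v hv
    by_contra hh
    simp only [csupp, mem_filter, mem_univ, true_and] at hv
    exact hv (h v hh)
  · intro h v hv
    by_contra hh
    exact hv (h (by simp [csupp]; exact hh))

omit [Fintype F] in
theorem RowInd.csupp_nonempty {M : Fin n → Fin (k + 1) → F} (h : RowInd M) :
    (csupp M).Nonempty := by
  by_contra hh
  rw [Finset.not_nonempty_iff_eq_empty] at hh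
  have h0 := h.ne_zero 0
  apply h0
  ext v
  have : M v = 0 := by
    by_contra hv
    have : v ∈ csupp M := by simp [csupp]; exact hv
    rw [hh] at this
    simp at this
  simp [this]

/-! ### the sample space and the family -/

section Family

variable {P : Type} [Field P] [Fintype P] [DecidableEq P] {D d : ℕ}

/-- the sample space -/
abbrev Om (F P : Type) (n D d : ℕ) : Type :=
  (Fin n → Fin D → F) × ((Finset (Fin n) → Equiv.Perm (Fin n)) × (Fin n → Fin d → P))

/-- `M` makes `e` a member of the first kind -/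
def GoodA (T : ℕ → Finset (Finset (Fin n))) (ω : Om F P n D d) (e : Finset (Fin n))
    (M : Fin n → Fin k → F) : Prop :=
  RowInd M ∧ (∀ v, v ∉ e → M v = 0) ∧ Dep ω.1 M ∧
    (e \ csupp M).map (ω.2.1 (csupp M)).toEmbedding ∈ T (e \ csupp M).card

/-- `(M, β)` makes `e` a member of the second kind -/
def GoodB (ω : Om F P n D d) (e : Finset (Fin n)) (p : (Fin n → Fin k → F) × (Fin n → P)) :
    Prop :=
  RowInd p.1 ∧ csupp p.1 = e ∧ Dep ω.1 p.1 ∧ p.2 ≠ 0 ∧ (∀ v, v ∉ e → p.2 v = 0) ∧
    ∑ v, p.2 v • ω.2.2 v = 0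

/-- the witnesses of a failure -/
def GoodF (ω : Om F P n D d) (Y : Finset (Fin n)) (p : (Fin n → Fin k → F) × (Fin n → P)) :
    Prop :=
  RowInd p.1 ∧ csupp p.1 = Y ∧ Dep ω.1 p.1 ∧ p.2 ≠ 0 ∧ (∀ v, v ∉ Y → p.2 v = 0) ∧
    (∀ v ∈ lone Y p.1, p.2 v ≠ 0) ∧ ∑ v, p.2 v • ω.2.2 v = 0

/-- the action on the pairs -/
def pact (g : GL (Fin k) F × Pˣ) (p : (Fin n → Fin k → F) × (Fin n → P)) :
    (Fin n → Fin k → F) × (Fin n → P) := (glact g.1 p.1, (g.2 : P) • p.2)

omit [Fintype F] [Field P] [Fintype P] [DecidableEq P] in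
theorem GoodA.act {T : ℕ → Finset (Finset (Fin n))} {ω : Om F P n D d} {e : Finset (Fin n)}
    {M : Fin n → Fin k → F} (h : GoodA T ω e M) (g : GL (Fin k) F) :
    GoodA T ω e (glact g M) := by
  obtain ⟨h1, h2, h3, h4⟩ := h
  refine ⟨h1.glact g, fun v hv => (glact_eq_zero g M v).2 (h2 v hv), h3.glact g, ?_⟩
  rw [csupp_glact]; exact h4

omit [Fintype P] [DecidableEq P] in
theorem smul_dep {β : Fin n → P} {ζ : Fin n → Fin d → P} (h : ∑ v, β v • ζ v = 0) (c : P) :
    ∑ v, (c • β) v • ζ v = 0 := by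
  have : ∑ v, (c • β) v • ζ v = c • ∑ v, β v • ζ v := by
    rw [Finset.smul_sum]
    apply Finset.sum_congr rfl
    intro v _
    simp [mul_smul]
  rw [this, h, smul_zero]

omit [Fintype F] [Fintype P] [DecidableEq P] in
theorem GoodB.act {ω : Om F P n D d} {e : Finset (Fin n)}
    {p : (Fin n → Fin k → F) × (Fin n → P)} (h : GoodB ω e p) (g : GL (Fin k) F × Pˣ) :
    GoodB ω e (pact g p) := by
  obtain ⟨h1, h2, h3, h4, h5, h6⟩ := h
  refine ⟨h1.glact g.1, by rw [pact, csupp_glact]; exact h2, h3.glact g.1,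
    smul_ne_zero g.2.ne_zero h4, fun v hv => ?_, smul_dep h6 _⟩
  simp [pact, h5 v hv]

omit [Fintype P] [DecidableEq P] in
theorem GoodF.act {ω : Om F P n D d} {e : Finset (Fin n)}
    {p : (Fin n → Fin k → F) × (Fin n → P)} (h : GoodF ω e p) (g : GL (Fin k) F × Pˣ) :
    GoodF ω e (pact g p) := by
  obtain ⟨h1, h2, h3, h4, h5, h6, h7⟩ := h
  refine ⟨h1.glact g.1, by rw [pact, csupp_glact]; exact h2, h3.glact g.1,
    smul_ne_zero g.2.ne_zero h4, fun v hv => ?_, fun v hv => ?_, smul_dep h7 _⟩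
  · simp [pact, h5 v hv]
  · rw [pact, lone_glact] at hv
    have := h6 v hv
    simp only [pact, Pi.smul_apply, smul_eq_mul]
    exact mul_ne_zero g.2.ne_zero this

omit [Fintype P] [DecidableEq P] in
theorem pact_inj (hGL : S_GLINJ) {p : (Fin n → Fin k → F) × (Fin n → P)} (h1 : RowInd p.1)
    (h2 : p.2 ≠ 0) : Function.Injective fun g : GL (Fin k) F × Pˣ => pact g p := by
  intro g h hgh
  simp only [pact, Prod.mk.injEq] at hgh
  obtain ⟨e1, e2⟩ := hgh
  have a1 : g.1 = h.1 := hGL F n k p.1 h1 e1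
  have a2 : (g.2 : P) = (h.2 : P) := smul_left_injective P h2 e2
  exact Prod.ext a1 (Units.ext a2)

open Classical in
/-- the random family -/
noncomputable def fam (k : ℕ) (T : ℕ → Finset (Finset (Fin n))) (ω : Om F P n D d) :
    Finset (Finset (Fin n)) :=
  ((univ : Finset (Fin n)).powersetCard d).filter fun e =>
    (∃ M : Fin n → Fin (k + 1) → F, GoodA T ω e M) ∨
      ∃ p : (Fin n → Fin k → F) × (Fin n → P), GoodB ω e p

/-! ### the density of the first kind -/

open Classical in
/-- the number of samples for a fixed `M` -/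
theorem countA (hDEP : S_DEP) {T : ℕ → Finset (Finset (Fin n))} {δ : ℕ → ℝ} {d' : ℕ}
    (hT1 : ∀ m, m < d' → ∀ Z ∈ T m, Z.card = m)
    (hT3 : ∀ m, m < d' → ((T m).card : ℝ) ≤ δ m * (n.choose m : ℝ))
    (e : Finset (Fin n)) (M : Fin n → Fin k → F) (hM : RowInd M)
    (hlt : (e \ csupp M).card < d') :
    ((univ.filter fun ω : Om F P n D d => GoodA T ω e M).card : ℝ)
      ≤ δ (e \ csupp M).card / ((Fintype.card F : ℝ) ^ k) ^ D *
        (Fintype.card (Om F P n D d) : ℝ) := by
  have hsub : (univ.filter fun ω : Om F P n D d => GoodA T ω e M)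
      ⊆ (univ.filter fun ξ : Fin n → Fin D → F => ∀ i : Fin k, ∑ v, M v i • ξ v = 0) ×ˢ
        ((univ.filter fun π : Finset (Fin n) → Equiv.Perm (Fin n) =>
          (e \ csupp M).map (π (csupp M)).toEmbedding ∈ T (e \ csupp M).card) ×ˢ
          (univ : Finset (Fin n → Fin d → P))) := by
    intro ω hω
    simp only [mem_filter, mem_univ, true_and, mem_product, and_true] at hω ⊢
    exact ⟨hω.2.2.1, hω.2.2.2⟩
  have hle := Finset.card_le_card hsub
  rw [Finset.card_product, Finset.card_product] at hle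
  have hle' : ((univ.filter fun ω : Om F P n D d => GoodA T ω e M).card : ℝ) ≤ _ :=
    Nat.cast_le.2 hle
  refine hle'.trans ?_
  rw [Nat.cast_mul, Nat.cast_mul]
  have hq : (0 : ℝ) < (Fintype.card F : ℝ) := by exact_mod_cast Fintype.card_pos
  have c1 := hDEP F n k D M hM
  have c2 := Det.coord_count (csupp M)
    (fun p : Equiv.Perm (Fin n) => (e \ csupp M).map p.toEmbedding ∈ T (e \ csupp M).card)
  have c3 := perm_count (δ := δ (e \ csupp M).card) (T (e \ csupp M).card) (hT1 _ hlt)
    (hT3 _ hlt) (e \ csupp M) rfl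
  have hP : (0 : ℝ) < (Fintype.card (Equiv.Perm (Fin n)) : ℝ) := by
    exact_mod_cast Fintype.card_pos
  have c4 : ((univ.filter fun π : Finset (Fin n) → Equiv.Perm (Fin n) =>
          (e \ csupp M).map (π (csupp M)).toEmbedding ∈ T (e \ csupp M).card).card : ℝ)
      ≤ δ (e \ csupp M).card * (Fintype.card (Finset (Fin n) → Equiv.Perm (Fin n)) : ℝ) := by
    have h5 : ((univ.filter fun π : Finset (Fin n) → Equiv.Perm (Fin n) =>
          (e \ csupp M).map (π (csupp M)).toEmbedding ∈ T (e \ csupp M).card).card : ℝ)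
          * (Fintype.card (Equiv.Perm (Fin n)) : ℝ)
        ≤ (δ (e \ csupp M).card * (Fintype.card (Finset (Fin n) → Equiv.Perm (Fin n)) : ℝ))
          * (Fintype.card (Equiv.Perm (Fin n)) : ℝ) := by
      rw [c2]
      calc _ ≤ (δ (e \ csupp M).card * (Fintype.card (Equiv.Perm (Fin n)) : ℝ))
            * (Fintype.card (Finset (Fin n) → Equiv.Perm (Fin n)) : ℝ) := by
            gcongr
        _ = _ := by ring
    exact le_of_mul_le_mul_right h5 hP
  have hqd : (0 : ℝ) < ((Fintype.card F : ℝ) ^ k) ^ D := by positivity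
  have c5 : ((univ.filter fun ξ : Fin n → Fin D → F =>
      ∀ i : Fin k, ∑ v, M v i • ξ v = 0).card : ℝ)
      = (Fintype.card (Fin n → Fin D → F) : ℝ) / ((Fintype.card F : ℝ) ^ k) ^ D := by
    rw [eq_div_iff hqd.ne', c1]
  rw [c5, Fintype.card_prod, Fintype.card_prod, Nat.cast_mul, Nat.cast_mul, Finset.card_univ]
  calc _ ≤ (Fintype.card (Fin n → Fin D → F) : ℝ) / ((Fintype.card F : ℝ) ^ k) ^ D *
        ((δ (e \ csupp M).card * (Fintype.card (Finset (Fin n) → Equiv.Perm (Fin n)) : ℝ)) *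
          (Fintype.card (Fin n → Fin d → P) : ℝ)) := by
        gcongr
    _ = _ := by ring

open Classical in
theorem densA (hGL : S_GLINJ) (hGC : S_GLCARD) (hDEP : S_DEP) (hSUPP : S_SUPP)
    (hq3 : 3 ≤ Fintype.card F)
    {T : ℕ → Finset (Finset (Fin n))} {δ : ℕ → ℝ} (hδ0 : ∀ m, 0 ≤ δ m) (hd : d = D + k)
    (hT1 : ∀ m, m < d → ∀ Z ∈ T m, Z.card = m)
    (hT3 : ∀ m, m < d → ((T m).card : ℝ) ≤ δ m * (n.choose m : ℝ))
    (e : Finset (Fin n)) (he : e.card = d) :
    ((univ.filter fun ω : Om F P n D d => ∃ M : Fin n → Fin (k + 1) → F, GoodA T ω e M).card : ℝ)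
      ≤ (((Fintype.card F : ℝ) - 1) / ((Fintype.card F : ℝ) - 2)) *
        detA d (Fintype.card F ^ (k + 1)) δ * (Fintype.card (Om F P n D d) : ℝ) := by
  set q : ℝ := (Fintype.card F : ℝ) with hq
  set Ω : ℝ := (Fintype.card (Om F P n D d) : ℝ) with hΩ
  have hΩ0 : 0 ≤ Ω := by rw [hΩ]; positivity
  have hq3' : (3 : ℝ) ≤ q := by rw [hq]; exact_mod_cast hq3
  have hq0 : 0 < q := by linarith
  set E : ℝ := ((univ.filter fun ω : Om F P n D d =>
    ∃ M : Fin n → Fin (k + 1) → F, GoodA T ω e M).card : ℝ) with hE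
  have key : (Fintype.card (GL (Fin (k + 1)) F) : ℝ) * E ≤
      ∑ M : Fin n → Fin (k + 1) → F,
        ((univ.filter fun ω : Om F P n D d => GoodA T ω e M).card : ℝ) := by
    have := first_moment (Ω := Om F P n D d) (X := Fin n → Fin (k + 1) → F)
      (fun ω => ∃ M : Fin n → Fin (k + 1) → F, GoodA T ω e M)
      (fun ω M => GoodA T ω e M) (Fintype.card (GL (Fin (k + 1)) F)) (by
        rintro ω ⟨M, hM⟩
        refine count_orbit (G := GL (Fin (k + 1)) F) _ (fun g M => glact g M) ⟨M, ?_⟩ ?_ ?_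
        · rw [mem_filter]; exact ⟨mem_univ _, hM⟩
        · intro M' hM'
          rw [mem_filter] at hM'
          exact hGL F n (k + 1) M' hM'.2.1
        · intro M' hM' g
          rw [mem_filter] at hM' ⊢
          exact ⟨mem_univ _, hM'.2.act g⟩)
    rw [hE, ← Nat.cast_mul, ← Nat.cast_sum]
    exact Nat.cast_le.2 this
  -- each term
  have hterm : ∀ M : Fin n → Fin (k + 1) → F,
      ((univ.filter fun ω : Om F P n D d => GoodA T ω e M).card : ℝ) ≤
        if (∀ v, v ∉ e → M v = 0) ∧ (e \ csupp M).card < d then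
          δ (e \ csupp M).card / (q ^ (k + 1)) ^ D * Ω else 0 := by
    intro M
    split_ifs with h
    · by_cases hM : RowInd M
      · exact countA hDEP hT1 hT3 e M hM h.2
      · have : (univ.filter fun ω : Om F P n D d => GoodA T ω e M) = ∅ := by
          rw [Finset.filter_eq_empty_iff]
          intro ω _ hω
          exact hM hω.1
        rw [this]
        simp only [card_empty, Nat.cast_zero]
        have := hδ0 (e \ csupp M).card
        positivity
    · have : (univ.filter fun ω : Om F P n D d => GoodA T ω e M) = ∅ := by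
        rw [Finset.filter_eq_empty_iff]
        intro ω _ hω
        apply h
        refine ⟨hω.2.1, ?_⟩
        rw [← he]
        apply Finset.card_lt_card
        rw [Finset.ssubset_iff_subset_ne]
        refine ⟨sdiff_subset, fun hEq => ?_⟩
        obtain ⟨v, hv⟩ := hω.1.csupp_nonempty
        have hve : v ∈ e := (csupp_subset.1 hω.2.1) hv
        have : v ∈ e \ csupp M := by rw [hEq]; exact hve
        exact (mem_sdiff.1 this).2 hv
      rw [this]; simp
  have hsum : ∑ M : Fin n → Fin (k + 1) → F,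
        ((univ.filter fun ω : Om F P n D d => GoodA T ω e M).card : ℝ) ≤
      ∑ m ∈ range d, ((d.choose m : ℝ) * (q ^ (k + 1) - 1) ^ (d - m)) *
        (δ m / (q ^ (k + 1)) ^ D * Ω) := by
    refine (Finset.sum_le_sum fun M _ => hterm M).trans ?_
    rw [← Finset.sum_filter]
    have hmap : ∀ M ∈ univ.filter (fun M : Fin n → Fin (k + 1) → F =>
        (∀ v, v ∉ e → M v = 0) ∧ (e \ csupp M).card < d), (e \ csupp M).card ∈ range d := by
      intro M hM
      rw [mem_filter] at hM
      rw [mem_range]; exact hM.2.2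
    rw [← Finset.sum_fiberwise_of_maps_to hmap]
    apply Finset.sum_le_sum
    intro m hm
    rw [mem_range] at hm
    have hcongr : ∀ M ∈ (univ.filter (fun M : Fin n → Fin (k + 1) → F =>
        (∀ v, v ∉ e → M v = 0) ∧ (e \ csupp M).card < d)).filter
          (fun M => (e \ csupp M).card = m),
        δ (e \ csupp M).card / (q ^ (k + 1)) ^ D * Ω = δ m / (q ^ (k + 1)) ^ D * Ω := by
      intro M hM
      rw [mem_filter] at hM
      rw [hM.2]
    rw [Finset.sum_congr rfl hcongr, Finset.sum_const, nsmul_eq_mul]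
    have hset : ((univ.filter (fun M : Fin n → Fin (k + 1) → F =>
        (∀ v, v ∉ e → M v = 0) ∧ (e \ csupp M).card < d)).filter
          (fun M => (e \ csupp M).card = m)).card
        = e.card.choose m * (Fintype.card (Fin (k + 1) → F) - 1) ^ (e.card - m) := by
      rw [← hSUPP (Fin (k + 1) → F) n m e]
      congr 1
      ext M
      simp only [mem_filter, mem_univ, true_and]
      constructor
      · rintro ⟨⟨h1, _⟩, h2⟩; exact ⟨h1, h2⟩
      · rintro ⟨h1, h2⟩; exact ⟨⟨h1, by rw [h2]; exact hm⟩, h2⟩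
    rw [hset, he]
    apply le_of_eq
    congr 1
    rw [Nat.cast_mul, Nat.cast_pow]
    congr 2
    have h1 : Fintype.card (Fin (k + 1) → F) = Fintype.card F ^ (k + 1) := by
      rw [Fintype.card_fun, Fintype.card_fin]
    rw [h1, Nat.cast_sub (Nat.one_le_pow _ _ Fintype.card_pos)]
    push_cast
    rw [hq]
  have hfin : ∑ m ∈ range d, ((d.choose m : ℝ) * (q ^ (k + 1) - 1) ^ (d - m)) *
        (δ m / (q ^ (k + 1)) ^ D * Ω) =
      (q ^ (k + 1) - 1) * (q ^ (k + 1)) ^ k * detA d (Fintype.card F ^ (k + 1)) δ * Ω := by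
    rw [detA, Finset.mul_sum, Finset.sum_mul]
    apply Finset.sum_congr rfl
    intro m hm
    rw [mem_range] at hm
    have hp : (q ^ (k + 1) - 1) ^ (d - m) =
        (q ^ (k + 1) - 1) ^ (d - m - 1) * (q ^ (k + 1) - 1) := by
      rw [← pow_succ]
      congr 1; omega
    have hc : ((Fintype.card F ^ (k + 1) : ℕ) : ℝ) = q ^ (k + 1) := by push_cast; rw [hq]
    rw [hc, hp]
    have hQ : (0 : ℝ) < q ^ (k + 1) := by positivity
    have hdp : (q ^ (k + 1)) ^ d = (q ^ (k + 1)) ^ D * (q ^ (k + 1)) ^ k := by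
      rw [← pow_add, hd]
    rw [hdp]
    have hQD : (q ^ (k + 1)) ^ D ≠ 0 := by positivity
    have hQk : (q ^ (k + 1)) ^ k ≠ 0 := by positivity
    generalize (q ^ (k + 1)) ^ D = A at *
    generalize (q ^ (k + 1)) ^ k = B at *
    generalize (q ^ (k + 1) - 1) ^ (d - m - 1) = C at *
    field_simp
  have hGLc := hGC F (k + 1) hq3
  rw [← hq] at hGLc
  set g : ℝ := (q - 1) / (q - 2) with hg
  have hg0 : 0 < g := by rw [hg]; apply div_pos <;> linarith
  have h1 := key.trans (hsum.trans_eq hfin)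
  have hE0 : 0 ≤ E := by rw [hE]; positivity
  have h2 : q ^ ((k + 1) * (k + 1)) * E ≤
      g * ((q ^ (k + 1) - 1) * (q ^ (k + 1)) ^ k * detA d (Fintype.card F ^ (k + 1)) δ * Ω) := by
    calc q ^ ((k + 1) * (k + 1)) * E ≤ (g * (Fintype.card (GL (Fin (k + 1)) F) : ℝ)) * E :=
          mul_le_mul_of_nonneg_right hGLc hE0
      _ = g * ((Fintype.card (GL (Fin (k + 1)) F) : ℝ) * E) := by ring
      _ ≤ _ := mul_le_mul_of_nonneg_left h1 hg0.le
  have hA0 : 0 ≤ detA d (Fintype.card F ^ (k + 1)) δ := by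
    apply detA_nonneg _ hδ0
    calc 2 ≤ Fintype.card F := by omega
      _ = Fintype.card F ^ 1 := (pow_one _).symm
      _ ≤ Fintype.card F ^ (k + 1) := Nat.pow_le_pow_right Fintype.card_pos (by omega)
  have hQk : (0 : ℝ) < q ^ ((k + 1) * (k + 1)) := by positivity
  have h3 : q ^ ((k + 1) * (k + 1)) * E ≤ q ^ ((k + 1) * (k + 1)) *
      (g * detA d (Fintype.card F ^ (k + 1)) δ * Ω) := by
    refine h2.trans ?_
    have e1 : q ^ ((k + 1) * (k + 1)) = q ^ (k + 1) * (q ^ (k + 1)) ^ k := by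
      rw [← pow_succ', ← pow_mul]
    rw [e1]
    have e2 : (q ^ (k + 1) - 1) * (q ^ (k + 1)) ^ k ≤ q ^ (k + 1) * (q ^ (k + 1)) ^ k := by
      apply mul_le_mul_of_nonneg_right _ (by positivity)
      linarith
    have e3 : 0 ≤ g * detA d (Fintype.card F ^ (k + 1)) δ * Ω :=
      mul_nonneg (mul_nonneg hg0.le hA0) hΩ0
    calc g * ((q ^ (k + 1) - 1) * (q ^ (k + 1)) ^ k * detA d (Fintype.card F ^ (k + 1)) δ * Ω)
        = ((q ^ (k + 1) - 1) * (q ^ (k + 1)) ^ k) *
          (g * detA d (Fintype.card F ^ (k + 1)) δ * Ω) := by ring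
      _ ≤ _ := mul_le_mul_of_nonneg_right e2 e3
  exact le_of_mul_le_mul_left h3 hQk

end Family

end Pool.Agent.TH589.DC
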