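import Pool.Agent.TH589.DC.Code

/-!
# The certified determinant code (helper589): second kind, failure, the theorem
-/

set_option autoImplicit false

open Finset

namespace Pool.Agent.TH589.DC

open Pool.Agent.H369R2.TD

variable {F : Type} [Field F] [Fintype F] [DecidableEq F] {n k : ℕ}
variable {P : Type} [Field P] [Fintype P] [DecidableEq P] {D d : ℕ}

/-- the number of samples for a fixed pair -/
theorem countPair (hDEP : S_DEP) (M : Fin n → Fin k → F) (β : Fin n → P) (hM : RowInd M)
    (hβ : β ≠ 0) [DecidablePred fun ω : Om F P n D d => Dep ω.1 M ∧ ∑ v, β v • ω.2.2 v = 0] :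
    ((univ.filter fun ω : Om F P n D d => Dep ω.1 M ∧ ∑ v, β v • ω.2.2 v = 0).card : ℝ)
      ≤ 1 / (((Fintype.card F : ℝ) ^ k) ^ D * (Fintype.card P : ℝ) ^ d) *
        (Fintype.card (Om F P n D d) : ℝ) := by
  classical
  have hsub : (univ.filter fun ω : Om F P n D d => Dep ω.1 M ∧ ∑ v, β v • ω.2.2 v = 0)
      ⊆ (univ.filter fun ξ : Fin n → Fin D → F => ∀ i : Fin k, ∑ v, M v i • ξ v = 0) ×ˢ
        ((univ : Finset (Finset (Fin n) → Equiv.Perm (Fin n))) ×ˢ
          (univ.filter fun ζ : Fin n → Fin d → P => ∑ v, β v • ζ v = 0)) := by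
    intro ω hω
    simp only [mem_filter, mem_univ, true_and, mem_product] at hω ⊢
    exact ⟨hω.1, hω.2⟩
  have hle := Finset.card_le_card hsub
  rw [Finset.card_product, Finset.card_product] at hle
  have hle' : ((univ.filter fun ω : Om F P n D d =>
    Dep ω.1 M ∧ ∑ v, β v • ω.2.2 v = 0).card : ℝ) ≤ _ := Nat.cast_le.2 hle
  refine hle'.trans ?_
  rw [Nat.cast_mul, Nat.cast_mul]
  have hq : (0 : ℝ) < (Fintype.card F : ℝ) := by exact_mod_cast Fintype.card_pos
  have hp : (0 : ℝ) < (Fintype.card P : ℝ) := by exact_mod_cast Fintype.card_pos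
  have c1 := hDEP F n k D M hM
  have c2 := dep_count (d := d) β hβ
  have hqd : (0 : ℝ) < ((Fintype.card F : ℝ) ^ k) ^ D := by positivity
  have hpd : (0 : ℝ) < (Fintype.card P : ℝ) ^ d := by positivity
  rw [← c1.symm.symm] at *
  have c5 : ((univ.filter fun ξ : Fin n → Fin D → F =>
      ∀ i : Fin k, ∑ v, M v i • ξ v = 0).card : ℝ)
      = (Fintype.card (Fin n → Fin D → F) : ℝ) / ((Fintype.card F : ℝ) ^ k) ^ D := by
    rw [eq_div_iff hqd.ne', hDEP F n k D M hM]
  have c6 : ((univ.filter fun ζ : Fin n → Fin d → P => ∑ v, β v • ζ v = 0).card : ℝ)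
      = (Fintype.card (Fin n → Fin d → P) : ℝ) / (Fintype.card P : ℝ) ^ d := by
    rw [eq_div_iff hpd.ne', dep_count (d := d) β hβ]
  rw [c5, c6, Fintype.card_prod, Fintype.card_prod, Nat.cast_mul, Nat.cast_mul, Finset.card_univ]
  apply le_of_eq
  field_simp

/-- functions supported in `Y` and nonzero on `S` -/
theorem count_supp (Y S : Finset (Fin n)) (hS : S ⊆ Y) :
    (univ.filter fun β : Fin n → P => (∀ v, v ∉ Y → β v = 0) ∧ ∀ v ∈ S, β v ≠ 0).card
      = (Fintype.card P - 1) ^ S.card * Fintype.card P ^ (Y.card - S.card) := by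
  classical
  have h1 : (univ.filter fun β : Fin n → P => (∀ v, v ∉ Y → β v = 0) ∧ ∀ v ∈ S, β v ≠ 0) =
      Fintype.piFinset fun v => if v ∈ S then univ.filter (fun x : P => x ≠ 0) else
        if v ∈ Y then univ else {0} := by
    ext β
    simp only [mem_filter, mem_univ, true_and, Fintype.mem_piFinset]
    constructor
    · rintro ⟨h1, h2⟩ v
      split_ifs with h3 h4
      · simp [h2 v h3]
      · simp
      · simp [h1 v h4]
    · intro h
      refine ⟨fun v hv => ?_, fun v hv => ?_⟩
      · have := h v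
        rw [if_neg (fun h' => hv (hS h')), if_neg hv] at this
        simpa using this
      · have := h v
        rw [if_pos hv] at this
        simpa using this
  rw [h1, Fintype.card_piFinset]
  have h2 : ∀ v : Fin n, (if v ∈ S then univ.filter (fun x : P => x ≠ 0) else
        if v ∈ Y then (univ : Finset P) else {0}).card =
      (if v ∈ S then Fintype.card P - 1 else 1) *
        (if v ∈ Y \ S then Fintype.card P else 1) := by
    intro v
    by_cases hv : v ∈ S
    · have : v ∉ Y \ S := fun h => (mem_sdiff.1 h).2 hv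
      rw [if_pos hv, if_pos hv, if_neg this, Finset.filter_ne',
        Finset.card_erase_of_mem (Finset.mem_univ _), Finset.card_univ, mul_one]
    · rw [if_neg hv, if_neg hv, one_mul]
      by_cases hv' : v ∈ Y
      · rw [if_pos hv', if_pos (mem_sdiff.2 ⟨hv', hv⟩), Finset.card_univ]
      · rw [if_neg hv', if_neg (fun h => hv' (mem_sdiff.1 h).1), Finset.card_singleton]
  rw [Finset.prod_congr rfl fun v _ => h2 v, Finset.prod_mul_distrib, Finset.prod_ite,
    Finset.prod_const_one, mul_one, Finset.prod_const, Finset.prod_ite, Finset.prod_const_one,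
    mul_one, Finset.prod_const]
  congr 2
  · congr 1; ext v; simp
  · rw [← Finset.card_sdiff_of_subset hS]
    congr 1; ext v; simp

theorem card_csupp_eq (hSUPP : S_SUPP) (e : Finset (Fin n)) :
    (univ.filter fun M : Fin n → Fin k → F => csupp M = e).card
      = (Fintype.card F ^ k - 1) ^ e.card := by
  have h := hSUPP (Fin k → F) n 0 e
  rw [Nat.choose_zero_right, one_mul, Nat.sub_zero, Fintype.card_fun, Fintype.card_fin] at h
  rw [← h]
  congr 1
  ext M
  simp only [mem_filter, mem_univ, true_and, Finset.card_eq_zero]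
  rw [csupp_subset, Finset.sdiff_eq_empty_iff_subset]
  constructor
  · intro h; rw [h]; exact ⟨Subset.refl _, Subset.refl _⟩
  · rintro ⟨h1, h2⟩; exact Subset.antisymm h1 h2

open Classical in
theorem densB (hGL : S_GLINJ) (hGC : S_GLCARD) (hDEP : S_DEP) (hSUPP : S_SUPP)
    (hq3 : 3 ≤ Fintype.card F) (hd : d = D + k) (e : Finset (Fin n)) (he : e.card = d) :
    ((univ.filter fun ω : Om F P n D d =>
        ∃ p : (Fin n → Fin k → F) × (Fin n → P), GoodB ω e p).card : ℝ)
      ≤ (((Fintype.card F : ℝ) - 1) / ((Fintype.card F : ℝ) - 2)) *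
        ((1 - 1 / (Fintype.card F : ℝ) ^ k) ^ d / ((Fintype.card P : ℝ) - 1)) *
          (Fintype.card (Om F P n D d) : ℝ) := by
  set q : ℝ := (Fintype.card F : ℝ) with hq
  set p : ℝ := (Fintype.card P : ℝ) with hp
  set Ω : ℝ := (Fintype.card (Om F P n D d) : ℝ) with hΩ
  have hΩ0 : 0 ≤ Ω := by rw [hΩ]; positivity
  have hq3' : (3 : ℝ) ≤ q := by rw [hq]; exact_mod_cast hq3
  have hq0 : 0 < q := by linarith
  have hp1 : 1 < p := by rw [hp]; exact_mod_cast Fintype.one_lt_card
  have hp0 : 0 < p := by linarith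
  set E : ℝ := ((univ.filter fun ω : Om F P n D d =>
    ∃ p : (Fin n → Fin k → F) × (Fin n → P), GoodB ω e p).card : ℝ) with hE
  have key : (Fintype.card (GL (Fin k) F) : ℝ) * (p - 1) * E ≤
      ∑ x : (Fin n → Fin k → F) × (Fin n → P),
        ((univ.filter fun ω : Om F P n D d => GoodB ω e x).card : ℝ) := by
    have := first_moment (Ω := Om F P n D d) (X := (Fin n → Fin k → F) × (Fin n → P))
      (fun ω => ∃ p : (Fin n → Fin k → F) × (Fin n → P), GoodB ω e p)
      (fun ω x => GoodB ω e x) (Fintype.card (GL (Fin k) F × Pˣ)) (by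
        rintro ω ⟨x, hx⟩
        refine count_orbit (G := GL (Fin k) F × Pˣ) _ (fun g x => pact g x) ⟨x, ?_⟩ ?_ ?_
        · rw [mem_filter]; exact ⟨mem_univ _, hx⟩
        · intro x' hx'
          rw [mem_filter] at hx'
          exact pact_inj hGL hx'.2.1 hx'.2.2.2.2.1
        · intro x' hx' g
          rw [mem_filter] at hx' ⊢
          exact ⟨mem_univ _, hx'.2.act g⟩)
    have hcard : ((Fintype.card (GL (Fin k) F × Pˣ) : ℕ) : ℝ)
        = (Fintype.card (GL (Fin k) F) : ℝ) * (p - 1) := by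
      rw [Fintype.card_prod, Nat.cast_mul, Fintype.card_units,
        Nat.cast_sub Fintype.card_pos, hp]
      simp
    rw [hE, ← hcard, ← Nat.cast_mul, ← Nat.cast_sum]
    exact Nat.cast_le.2 this
  set c : ℝ := 1 / ((q ^ k) ^ D * p ^ d) with hc
  have hc0 : 0 < c := by rw [hc]; positivity
  have hterm : ∀ x : (Fin n → Fin k → F) × (Fin n → P),
      ((univ.filter fun ω : Om F P n D d => GoodB ω e x).card : ℝ) ≤
        if x ∈ (univ.filter fun M : Fin n → Fin k → F => csupp M = e) ×ˢ
          (univ.filter fun β : Fin n → P => (∀ v, v ∉ e → β v = 0) ∧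
            ∀ v ∈ (∅ : Finset (Fin n)), β v ≠ 0) then c * Ω else 0 := by
    intro x
    by_cases hx : RowInd x.1 ∧ csupp x.1 = e ∧ x.2 ≠ 0 ∧ (∀ v, v ∉ e → x.2 v = 0)
    · obtain ⟨h1, h2, h3, h4⟩ := hx
      rw [if_pos]
      · refine le_trans ?_ (countPair (D := D) (d := d) hDEP x.1 x.2 h1 h3)
        apply Nat.cast_le.2
        apply Finset.card_le_card
        intro ω hω
        simp only [mem_filter, mem_univ, true_and] at hω ⊢
        exact ⟨hω.2.2.1, hω.2.2.2.2.2⟩
      · simp only [mem_product, mem_filter, mem_univ, true_and]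
        exact ⟨h2, h4, fun v hv => absurd hv (notMem_empty v)⟩
    · have : (univ.filter fun ω : Om F P n D d => GoodB ω e x) = ∅ := by
        rw [Finset.filter_eq_empty_iff]
        intro ω _ hω
        exact hx ⟨hω.1, hω.2.1, hω.2.2.2.1, hω.2.2.2.2.1⟩
      rw [this]
      simp only [card_empty, Nat.cast_zero]
      split_ifs
      · exact mul_nonneg hc0.le hΩ0
      · exact le_refl _
  have hsum : ∑ x : (Fin n → Fin k → F) × (Fin n → P),
        ((univ.filter fun ω : Om F P n D d => GoodB ω e x).card : ℝ) ≤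
      ((q ^ k - 1) ^ d * p ^ d) * (c * Ω) := by
    refine (Finset.sum_le_sum fun x _ => hterm x).trans (le_of_eq ?_)
    rw [← Finset.sum_filter, Finset.sum_const, nsmul_eq_mul]
    congr 1
    rw [Finset.filter_mem_eq_inter, Finset.univ_inter, Finset.card_product, card_csupp_eq hSUPP,
      count_supp e ∅ (empty_subset _), he]
    simp only [card_empty, pow_zero, one_mul, Nat.sub_zero]
    rw [Nat.cast_mul, Nat.cast_pow, Nat.cast_pow,
      Nat.cast_sub (Nat.one_le_pow _ _ Fintype.card_pos)]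
    push_cast
    rw [hq, hp]
  have hGLc := hGC F k hq3
  rw [← hq] at hGLc
  set g : ℝ := (q - 1) / (q - 2) with hg
  have hg0 : 0 < g := by rw [hg]; apply div_pos <;> linarith
  have h1 := key.trans hsum
  have hE0 : 0 ≤ E := by rw [hE]; positivity
  have hQ : (0 : ℝ) < q ^ k := by positivity
  have h2 : q ^ (k * k) * ((p - 1) * E) ≤ g * (((q ^ k - 1) ^ d * p ^ d) * (c * Ω)) := by
    have hpE : 0 ≤ (p - 1) * E := mul_nonneg (by linarith) hE0
    calc q ^ (k * k) * ((p - 1) * E)
        ≤ (g * (Fintype.card (GL (Fin k) F) : ℝ)) * ((p - 1) * E) :=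
          mul_le_mul_of_nonneg_right hGLc hpE
      _ = g * ((Fintype.card (GL (Fin k) F) : ℝ) * (p - 1) * E) := by ring
      _ ≤ _ := mul_le_mul_of_nonneg_left h1 hg0.le
  have e1 : q ^ (k * k) = (q ^ k) ^ k := by rw [← pow_mul]
  have e2 : (q ^ k) ^ d = (q ^ k) ^ D * (q ^ k) ^ k := by rw [← pow_add, hd]
  have e3 : (q ^ k - 1) ^ d = (1 - 1 / q ^ k) ^ d * (q ^ k) ^ d := by
    rw [← mul_pow]; congr 1; field_simp
  rw [e1, e3, e2, hc] at h2
  have hA : (0 : ℝ) < (q ^ k) ^ k := by positivity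
  have hB : (0 : ℝ) < (q ^ k) ^ D := by positivity
  have hC : (0 : ℝ) < p ^ d := by positivity
  have h3 : (q ^ k) ^ k * ((p - 1) * E) ≤ (q ^ k) ^ k * (g * (1 - 1 / q ^ k) ^ d * Ω) := by
    refine h2.trans (le_of_eq ?_)
    generalize (1 - 1 / q ^ k) ^ d = X
    generalize (q ^ k) ^ D = B at *
    generalize (q ^ k) ^ k = A at *
    generalize p ^ d = C at *
    field_simp
  have h4 := le_of_mul_le_mul_left h3 hA
  have hp1' : 0 < p - 1 := by linarith
  have h5 : E ≤ g * (1 - 1 / q ^ k) ^ d * Ω / (p - 1) := by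
    rw [le_div_iff₀ hp1']
    linarith
  refine h5.trans (le_of_eq ?_)
  ring

/-! ### the failure -/

theorem fail_imp (hEX : S_EXDEP) (hRED : S_RED) {T : ℕ → Finset (Finset (Fin n))}
    (hd : d = D + k) (hT1 : ∀ m, m < d → ∀ Z ∈ T m, Z.card = m)
    (hT2 : ∀ m, m < d → ∀ Y : Finset (Fin n), Y.card = m + 1 → ∃ Z ∈ T m, Z ⊆ Y)
    (Y : Finset (Fin n)) (hY : Y.card = d + 1) (ω : Om F P n D d)
    (hω : ¬ ∃ Z ∈ fam k T ω, Z ⊆ Y) :
    ∃ p : (Fin n → Fin (k + 1) → F) × (Fin n → P), GoodF ω Y p := by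
  classical
  obtain ⟨M, hM, hMY, hMd⟩ := hEX F n (k + 1) D ω.1 Y (by rw [hY, hd]; ring)
  have hsub : csupp M ⊆ Y := csupp_subset.1 hMY
  have hsupp : csupp M = Y := by
    by_contra hne
    apply hω
    have hsne : (csupp M).Nonempty := RowInd.csupp_nonempty hM
    set Z := Y \ csupp M with hZ
    have hZcard : Z.card + (csupp M).card = d + 1 := by
      rw [hZ, ← hY]; exact Finset.card_sdiff_add_card_eq_card hsub
    have hZne : Z.Nonempty := by
      rw [hZ, Finset.sdiff_nonempty]
      intro hh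
      exact hne (Finset.Subset.antisymm hsub hh)
    have hsc : 1 ≤ (csupp M).card := Finset.card_pos.mpr hsne
    have hzc : 1 ≤ Z.card := Finset.card_pos.mpr hZne
    obtain ⟨m, hm⟩ : ∃ m, Z.card = m + 1 := ⟨Z.card - 1, by omega⟩
    have hmd : m < d := by omega
    obtain ⟨W, hW1, hW2⟩ := hT2 m hmd (Z.map (ω.2.1 (csupp M)).toEmbedding)
      (by rw [Finset.card_map, hm])
    obtain ⟨W', hW'1, hW'2⟩ := Finset.subset_map_iff.mp hW2
    have hW'card : W'.card = m := by
      have := hT1 m hmd W hW1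
      rw [hW'2, Finset.card_map] at this
      exact this
    obtain ⟨t, ht⟩ : ∃ t, Z \ W' = {t} := by
      rw [← Finset.card_eq_one, Finset.card_sdiff_of_subset hW'1, hm, hW'card]; omega
    have htZ : t ∈ Z := by
      have : t ∈ Z \ W' := by rw [ht]; simp
      exact (mem_sdiff.mp this).1
    have hWe : W' = Z.erase t := by
      ext v
      constructor
      · intro hv
        rw [mem_erase]
        refine ⟨?_, hW'1 hv⟩
        rintro rfl
        have : v ∈ Z \ W' := by rw [ht]; simp
        exact (mem_sdiff.mp this).2 hv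
      · intro hv
        rw [mem_erase] at hv
        by_contra hh
        have : v ∈ Z \ W' := mem_sdiff.mpr ⟨hv.2, hh⟩
        rw [ht, mem_singleton] at this
        exact hv.1 this
    have htY : t ∈ Y := (mem_sdiff.mp htZ).1
    have hts : t ∉ csupp M := (mem_sdiff.mp htZ).2
    refine ⟨Y.erase t, ?_, erase_subset _ _⟩
    rw [fam, mem_filter, mem_powersetCard]
    refine ⟨⟨subset_univ _, by rw [Finset.card_erase_of_mem htY, hY]; omega⟩, Or.inl
      ⟨M, hM, ?_, hMd, ?_⟩⟩
    · intro v hv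
      rw [mem_erase] at hv
      by_cases hvt : v = t
      · subst hvt
        by_contra hh
        exact hts (by simp only [csupp, mem_filter, mem_univ, true_and]; exact hh)
      · exact hMY v (fun h => hv ⟨hvt, h⟩)
    · have hd' : Y.erase t \ csupp M = Z.erase t := by
        ext v
        simp only [mem_sdiff, mem_erase, hZ]
        tauto
      rw [hd', ← hWe, ← hW'2, hW'card]
      exact hW1
  obtain ⟨β, hβ0, hβY, hβd⟩ := exists_dep ω.2.2 Y hY
  refine ⟨(M, β), hM, hsupp, hMd, hβ0, hβY, ?_, hβd⟩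
  intro v hv hβv
  apply hω
  have hvY : v ∈ Y := (mem_filter.1 hv).1
  obtain ⟨M', hM', hM's, hM'd⟩ := hRED F n k Y M v hM hsupp hv
  refine ⟨Y.erase v, ?_, erase_subset _ _⟩
  rw [fam, mem_filter, mem_powersetCard]
  refine ⟨⟨subset_univ _, by rw [Finset.card_erase_of_mem hvY, hY]; omega⟩, Or.inr
    ⟨(M', β), hM', hM's, hM'd D ω.1 hMd, hβ0, ?_, hβd⟩⟩
  intro u hu
  rw [mem_erase] at hu
  by_cases huv : u = v
  · rw [huv]; exact hβv
  · exact hβY u (fun h => hu ⟨huv, h⟩)

end Pool.Agent.TH589.DC
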