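import Pool.Agent.TH589.DC.Code2

/-!
# The certified determinant code (helper589): failure probability, the theorem
-/

set_option autoImplicit false

open Finset

namespace Pool.Agent.TH589.DC

open Pool.Agent.H369R2.TD

variable {F : Type} [Field F] [Fintype F] [DecidableEq F] {n k : ℕ}
variable {P : Type} [Field P] [Fintype P] [DecidableEq P] {D d : ℕ}

open Classical in
theorem failP (hGL : S_GLINJ) (hGC : S_GLCARD) (hDEP : S_DEP) (hSUPP : S_SUPP)
    (hq3 : 3 ≤ Fintype.card F) (hd : d = D + k) (Y : Finset (Fin n)) (hY : Y.card = d + 1)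
    (L : ℕ) (B : ℝ)
    (hbad : ((univ.filter fun M : Fin n → Fin (k + 1) → F =>
        csupp M = Y ∧ (lone Y M).card < L).card : ℝ) ≤
      B * ((Fintype.card F : ℝ) ^ (k + 1)) ^ (d + 1)) :
    ((univ.filter fun ω : Om F P n D d =>
        ∃ p : (Fin n → Fin (k + 1) → F) × (Fin n → P), GoodF ω Y p).card : ℝ)
      ≤ (((Fintype.card F : ℝ) - 1) / ((Fintype.card F : ℝ) - 2)) *
        ((Fintype.card P : ℝ) / ((Fintype.card P : ℝ) - 1)) *
        ((1 - 1 / (Fintype.card F : ℝ) ^ (k + 1)) ^ (d + 1) *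
          (1 - 1 / (Fintype.card P : ℝ)) ^ L + B) *
          (Fintype.card (Om F P n D d) : ℝ) := by
  set q : ℝ := (Fintype.card F : ℝ) with hq
  set p : ℝ := (Fintype.card P : ℝ) with hp
  set Ω : ℝ := (Fintype.card (Om F P n D d) : ℝ) with hΩ
  have hΩ0 : 0 ≤ Ω := by rw [hΩ]; positivity
  have hq3' : (3 : ℝ) ≤ q := by rw [hq]; exact_mod_cast hq3
  have hq0 : 0 < q := by linarith
  have hp1 : 1 < p := by rw [hp]; exact_mod_cast Fintype.one_lt_card
  have hp0 : 0 < p := by linarith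
  set E : ℝ := ((univ.filter fun ω : Om F P n D d =>
    ∃ p : (Fin n → Fin (k + 1) → F) × (Fin n → P), GoodF ω Y p).card : ℝ) with hE
  have key : (Fintype.card (GL (Fin (k + 1)) F) : ℝ) * (p - 1) * E ≤
      ∑ x : (Fin n → Fin (k + 1) → F) × (Fin n → P),
        ((univ.filter fun ω : Om F P n D d => GoodF ω Y x).card : ℝ) := by
    have := first_moment (Ω := Om F P n D d) (X := (Fin n → Fin (k + 1) → F) × (Fin n → P))
      (fun ω => ∃ p : (Fin n → Fin (k + 1) → F) × (Fin n → P), GoodF ω Y p)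
      (fun ω x => GoodF ω Y x) (Fintype.card (GL (Fin (k + 1)) F × Pˣ)) (by
        rintro ω ⟨x, hx⟩
        refine count_orbit (G := GL (Fin (k + 1)) F × Pˣ) _ (fun g x => pact g x) ⟨x, ?_⟩ ?_ ?_
        · rw [mem_filter]; exact ⟨mem_univ _, hx⟩
        · intro x' hx'
          rw [mem_filter] at hx'
          exact pact_inj hGL hx'.2.1 hx'.2.2.2.2.1
        · intro x' hx' g
          rw [mem_filter] at hx' ⊢
          exact ⟨mem_univ _, hx'.2.act g⟩)
    have hcard : ((Fintype.card (GL (Fin (k + 1)) F × Pˣ) : ℕ) : ℝ)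
        = (Fintype.card (GL (Fin (k + 1)) F) : ℝ) * (p - 1) := by
      rw [Fintype.card_prod, Nat.cast_mul, Fintype.card_units,
        Nat.cast_sub Fintype.card_pos, hp]
      simp
    rw [hE, ← hcard, ← Nat.cast_mul, ← Nat.cast_sum]
    exact Nat.cast_le.2 this
  set c : ℝ := 1 / ((q ^ (k + 1)) ^ D * p ^ d) with hc
  have hc0 : 0 < c := by rw [hc]; positivity
  have hcΩ : 0 ≤ c * Ω := mul_nonneg hc0.le hΩ0
  set t : ℝ := 1 - 1 / p with ht
  have ht0 : 0 ≤ t := by
    rw [ht, sub_nonneg, div_le_one hp0]; exact hp1.le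
  have ht1 : t ≤ 1 := by
    rw [ht]
    have : 0 < 1 / p := by positivity
    linarith
  have hM : ∀ M : Fin n → Fin (k + 1) → F,
      ∑ β : Fin n → P, ((univ.filter fun ω : Om F P n D d => GoodF ω Y (M, β)).card : ℝ) ≤
        (if csupp M = Y then p ^ (d + 1) * t ^ L * (c * Ω) else 0) +
        (if csupp M = Y ∧ (lone Y M).card < L then p ^ (d + 1) * (c * Ω) else 0) := by
    intro M
    by_cases hMY : csupp M = Y ∧ RowInd M
    · obtain ⟨h1, h2⟩ := hMY
      have hterm : ∀ β : Fin n → P,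
          ((univ.filter fun ω : Om F P n D d => GoodF ω Y (M, β)).card : ℝ) ≤
            if (∀ v, v ∉ Y → β v = 0) ∧ ∀ v ∈ lone Y M, β v ≠ 0 then c * Ω else 0 := by
        intro β
        by_cases hx : β ≠ 0 ∧ (∀ v, v ∉ Y → β v = 0) ∧ ∀ v ∈ lone Y M, β v ≠ 0
        · obtain ⟨h3, h4, h5⟩ := hx
          rw [if_pos ⟨h4, h5⟩]
          refine le_trans ?_ (countPair (D := D) (d := d) hDEP M β h2 h3)
          apply Nat.cast_le.2
          apply Finset.card_le_card
          intro ω hω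
          simp only [mem_filter, mem_univ, true_and] at hω ⊢
          exact ⟨hω.2.2.1, hω.2.2.2.2.2.2⟩
        · have : (univ.filter fun ω : Om F P n D d => GoodF ω Y (M, β)) = ∅ := by
            rw [Finset.filter_eq_empty_iff]
            intro ω _ hω
            exact hx ⟨hω.2.2.2.1, hω.2.2.2.2.1, hω.2.2.2.2.2.1⟩
          rw [this]
          simp only [card_empty, Nat.cast_zero]
          split_ifs
          · exact hcΩ
          · exact le_refl _
      have hlY : lone Y M ⊆ Y := filter_subset _ _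
      have hlc : (lone Y M).card ≤ d + 1 := by
        rw [← hY]; exact Finset.card_le_card hlY
      have hsum : ∑ β : Fin n → P,
          ((univ.filter fun ω : Om F P n D d => GoodF ω Y (M, β)).card : ℝ) ≤
          p ^ (d + 1) * t ^ (lone Y M).card * (c * Ω) := by
        refine (Finset.sum_le_sum fun β _ => hterm β).trans (le_of_eq ?_)
        rw [← Finset.sum_filter, Finset.sum_const, nsmul_eq_mul,
          count_supp Y (lone Y M) hlY, hY]
        congr 1
        rw [Nat.cast_mul, Nat.cast_pow, Nat.cast_pow, Nat.cast_sub Fintype.card_pos, ← hp]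
        have e1 : p ^ (d + 1) = p ^ (lone Y M).card * p ^ (d + 1 - (lone Y M).card) := by
          rw [← pow_add]; congr 1; omega
        have e2 : (p - ((1 : ℕ) : ℝ)) = t * p := by
          rw [ht]; field_simp; push_cast; ring
        rw [e1, e2, mul_pow]
        ring
      refine hsum.trans ?_
      rw [if_pos h1]
      have hpd : 0 ≤ p ^ (d + 1) := by positivity
      by_cases hL : (lone Y M).card < L
      · rw [if_pos ⟨h1, hL⟩]
        have a1 : t ^ (lone Y M).card ≤ 1 := pow_le_one₀ ht0 ht1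
        have a2 : 0 ≤ p ^ (d + 1) * t ^ L * (c * Ω) := by positivity
        have a3 : p ^ (d + 1) * t ^ (lone Y M).card * (c * Ω) ≤ p ^ (d + 1) * (c * Ω) := by
          apply mul_le_mul_of_nonneg_right _ hcΩ
          calc p ^ (d + 1) * t ^ (lone Y M).card ≤ p ^ (d + 1) * 1 :=
                mul_le_mul_of_nonneg_left a1 hpd
            _ = _ := mul_one _
        linarith
      · rw [if_neg (fun h => hL h.2), add_zero]
        apply mul_le_mul_of_nonneg_right _ hcΩ
        apply mul_le_mul_of_nonneg_left _ hpd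
        exact pow_le_pow_of_le_one ht0 ht1 (not_lt.1 hL)
    · have h0 : ∑ β : Fin n → P,
          ((univ.filter fun ω : Om F P n D d => GoodF ω Y (M, β)).card : ℝ) = 0 := by
        apply Finset.sum_eq_zero
        intro β _
        have : (univ.filter fun ω : Om F P n D d => GoodF ω Y (M, β)) = ∅ := by
          rw [Finset.filter_eq_empty_iff]
          intro ω _ hω
          exact hMY ⟨hω.2.1, hω.1⟩
        rw [this]; simp
      rw [h0]
      have a2 : 0 ≤ p ^ (d + 1) * t ^ L * (c * Ω) := by positivity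
      have a4 : 0 ≤ p ^ (d + 1) * (c * Ω) := by positivity
      split_ifs <;> linarith
  have hsum : ∑ x : (Fin n → Fin (k + 1) → F) × (Fin n → P),
        ((univ.filter fun ω : Om F P n D d => GoodF ω Y x).card : ℝ) ≤
      (q ^ (k + 1) - 1) ^ (d + 1) * (p ^ (d + 1) * t ^ L * (c * Ω)) +
        B * (q ^ (k + 1)) ^ (d + 1) * (p ^ (d + 1) * (c * Ω)) := by
    rw [Fintype.sum_prod_type]
    refine (Finset.sum_le_sum fun M _ => hM M).trans ?_
    rw [Finset.sum_add_distrib, ← Finset.sum_filter, ← Finset.sum_filter, Finset.sum_const,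
      Finset.sum_const, nsmul_eq_mul, nsmul_eq_mul, card_csupp_eq hSUPP, hY]
    apply add_le_add
    · apply le_of_eq
      congr 1
      rw [Nat.cast_pow, Nat.cast_sub (Nat.one_le_pow _ _ Fintype.card_pos)]
      push_cast
      rw [hq]
    · have a4 : 0 ≤ p ^ (d + 1) * (c * Ω) := by positivity
      exact mul_le_mul_of_nonneg_right hbad a4
  have hGLc := hGC F (k + 1) hq3
  rw [← hq] at hGLc
  set g : ℝ := (q - 1) / (q - 2) with hg
  have hg0 : 0 < g := by rw [hg]; apply div_pos <;> linarith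
  have h1 := key.trans hsum
  have hE0 : 0 ≤ E := by rw [hE]; positivity
  have hQ : (0 : ℝ) < q ^ (k + 1) := by positivity
  have h2 : q ^ ((k + 1) * (k + 1)) * ((p - 1) * E) ≤
      g * ((q ^ (k + 1) - 1) ^ (d + 1) * (p ^ (d + 1) * t ^ L * (c * Ω)) +
        B * (q ^ (k + 1)) ^ (d + 1) * (p ^ (d + 1) * (c * Ω))) := by
    have hpE : 0 ≤ (p - 1) * E := mul_nonneg (by linarith) hE0
    calc q ^ ((k + 1) * (k + 1)) * ((p - 1) * E)
        ≤ (g * (Fintype.card (GL (Fin (k + 1)) F) : ℝ)) * ((p - 1) * E) :=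
          mul_le_mul_of_nonneg_right hGLc hpE
      _ = g * ((Fintype.card (GL (Fin (k + 1)) F) : ℝ) * (p - 1) * E) := by ring
      _ ≤ _ := mul_le_mul_of_nonneg_left h1 hg0.le
  have e1 : q ^ ((k + 1) * (k + 1)) = (q ^ (k + 1)) ^ (k + 1) := by rw [← pow_mul]
  have e2 : (q ^ (k + 1)) ^ (d + 1) = (q ^ (k + 1)) ^ D * (q ^ (k + 1)) ^ (k + 1) := by
    rw [← pow_add, hd, add_assoc]
  have e3 : (q ^ (k + 1) - 1) ^ (d + 1) =
      (1 - 1 / q ^ (k + 1)) ^ (d + 1) * (q ^ (k + 1)) ^ (d + 1) := by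
    rw [← mul_pow]; congr 1; field_simp
  rw [e1, e3, e2, hc] at h2
  have hA : (0 : ℝ) < (q ^ (k + 1)) ^ (k + 1) := by positivity
  have hB : (0 : ℝ) < (q ^ (k + 1)) ^ D := by positivity
  have hC : (0 : ℝ) < p ^ d := by positivity
  have h3 : (q ^ (k + 1)) ^ (k + 1) * ((p - 1) * E) ≤ (q ^ (k + 1)) ^ (k + 1) *
      (g * p * ((1 - 1 / q ^ (k + 1)) ^ (d + 1) * t ^ L + B) * Ω) := by
    refine h2.trans (le_of_eq ?_)
    rw [pow_succ p d]
    generalize (1 - 1 / q ^ (k + 1)) ^ (d + 1) = X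
    generalize t ^ L = T
    generalize (q ^ (k + 1)) ^ D = B' at *
    generalize (q ^ (k + 1)) ^ (k + 1) = A at *
    generalize p ^ d = C at *
    field_simp
  have h4 := le_of_mul_le_mul_left h3 hA
  have hp1' : 0 < p - 1 := by linarith
  have h5 : E ≤ g * p * ((1 - 1 / q ^ (k + 1)) ^ (d + 1) * t ^ L + B) * Ω / (p - 1) := by
    rw [le_div_iff₀ hp1']
    linarith
  refine h5.trans (le_of_eq ?_)
  ring

/-- the certified determinant code -/
theorem cert_rnd (hGL : S_GLINJ) (hGC : S_GLCARD) (hDEP : S_DEP) (hSUPP : S_SUPP)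
    (hEX : S_EXDEP) (hRED : S_RED)
    (F : Type) [Field F] [Fintype F] [DecidableEq F] (P : Type) [Field P] [Fintype P]
    [DecidableEq P] (hq3 : 3 ≤ Fintype.card F) {k D d : ℕ} (hd : d = D + k) {δ : ℕ → ℝ}
    (hδ : ∀ m, m < d → Tur m (δ m)) (hδ0 : ∀ m, 0 ≤ δ m) (L : ℕ) (B : ℝ) (n : ℕ)
    (hbad : ∀ Y : Finset (Fin n), Y.card = d + 1 →
      ((univ.filter fun M : Fin n → Fin (k + 1) → F =>
        csupp M = Y ∧ (lone Y M).card < L).card : ℝ) ≤
      B * ((Fintype.card F : ℝ) ^ (k + 1)) ^ (d + 1)) :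
    Rnd n d
      ((((Fintype.card F : ℝ) - 1) / ((Fintype.card F : ℝ) - 2)) *
        (detA d (Fintype.card F ^ (k + 1)) δ +
          (1 - 1 / (Fintype.card F : ℝ) ^ k) ^ d / ((Fintype.card P : ℝ) - 1)))
      ((((Fintype.card F : ℝ) - 1) / ((Fintype.card F : ℝ) - 2)) *
        ((Fintype.card P : ℝ) / ((Fintype.card P : ℝ) - 1)) *
        ((1 - 1 / (Fintype.card F : ℝ) ^ (k + 1)) ^ (d + 1) *
          (1 - 1 / (Fintype.card P : ℝ)) ^ L + B)) := by
  classical
  have hex : ∀ m, ∃ T : Finset (Finset (Fin n)), m < d → (∀ Z ∈ T, Z.card = m) ∧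
    (∀ Y : Finset (Fin n), Y.card = m + 1 → ∃ Z ∈ T, Z ⊆ Y) ∧
      (T.card : ℝ) ≤ δ m * (n.choose m : ℝ) := by
    intro m
    by_cases hm : m < d
    · obtain ⟨T, hT⟩ := hδ m hm n
      exact ⟨T, fun _ => hT⟩
    · exact ⟨∅, fun h => absurd h hm⟩
  choose T hT using hex
  have hT1 : ∀ m, m < d → ∀ Z ∈ T m, Z.card = m := fun m hm => (hT m hm).1
  have hT2 : ∀ m, m < d → ∀ Y : Finset (Fin n), Y.card = m + 1 → ∃ Z ∈ T m, Z ⊆ Y :=
    fun m hm => (hT m hm).2.1
  have hT3 : ∀ m, m < d → ((T m).card : ℝ) ≤ δ m * (n.choose m : ℝ) := fun m hm => (hT m hm).2.2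
  refine ⟨Om F P n D d, inferInstance, inferInstance, fam k T, ?_, ?_, ?_⟩
  · intro ω Z hZ
    rw [fam, mem_filter, mem_powersetCard] at hZ
    exact hZ.1.2
  · intro e he
    have hA := densA (P := P) (d := d) (D := D) hGL hGC hDEP hSUPP hq3 hδ0 hd hT1 hT3 e he
    have hB := densB (P := P) (d := d) (D := D) hGL hGC hDEP hSUPP hq3 hd e he
    have hsub : (univ.filter fun ω : Om F P n D d => e ∈ fam k T ω) ⊆
        (univ.filter fun ω : Om F P n D d => ∃ M : Fin n → Fin (k + 1) → F, GoodA T ω e M) ∪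
        (univ.filter fun ω : Om F P n D d =>
          ∃ p : (Fin n → Fin k → F) × (Fin n → P), GoodB ω e p) := by
      intro ω hω
      rw [mem_filter] at hω
      have h2 := hω.2
      rw [fam, mem_filter] at h2
      rw [mem_union, mem_filter, mem_filter]
      rcases h2.2 with h | h
      · exact Or.inl ⟨mem_univ _, h⟩
      · exact Or.inr ⟨mem_univ _, h⟩
    have hle := (Finset.card_le_card hsub).trans (Finset.card_union_le _ _)
    have hle' : ((univ.filter fun ω : Om F P n D d => e ∈ fam k T ω).card : ℝ) ≤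
        ((univ.filter fun ω : Om F P n D d =>
          ∃ M : Fin n → Fin (k + 1) → F, GoodA T ω e M).card : ℝ) +
        ((univ.filter fun ω : Om F P n D d =>
          ∃ p : (Fin n → Fin k → F) × (Fin n → P), GoodB ω e p).card : ℝ) := by
      exact_mod_cast hle
    refine hle'.trans ((add_le_add hA hB).trans (le_of_eq ?_))
    ring
  · intro Y hY
    have hF := failP (P := P) (d := d) (D := D) hGL hGC hDEP hSUPP hq3 hd Y hY L B (hbad Y hY)
    refine le_trans ?_ hF
    apply Nat.cast_le.2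
    apply Finset.card_le_card
    intro ω hω
    rw [mem_filter] at hω ⊢
    exact ⟨mem_univ _, fail_imp hEX hRED hd hT1 hT2 Y hY ω hω.2⟩

end Pool.Agent.TH589.DC
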