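import Pool.Agent.TH589.DC.Code3

/-!
# The certified determinant code (helper589): codes for the sizes in a window
-/

set_option autoImplicit false

open Finset

namespace Pool.Agent.TH589.DC

open Pool.Agent.H369R2.TD

/-- few matrices of full support have few lone vertices -/
theorem bad_bound (hLONE : S_LONE) (F : Type) [Field F] [Fintype F] [DecidableEq F]
    {n k m : ℕ} (hk : 1 ≤ k) (Y : Finset (Fin n)) (hY : Y.card = m + 1) {ε : ℝ} (hε : 0 < ε)
    (L : ℕ) (hL : (L : ℝ) ≤ (1 - ε) * (((m : ℝ) + 1) *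
      (1 - ((Fintype.card F : ℝ) - 1) / ((Fintype.card F : ℝ) ^ (k + 1) - 1)) ^ m)) :
    ((univ.filter fun M : Fin n → Fin (k + 1) → F =>
        csupp M = Y ∧ (lone Y M).card < L).card : ℝ) ≤
      (1 / (ε ^ 2 * (((m : ℝ) + 1) *
        (1 - ((Fintype.card F : ℝ) - 1) / ((Fintype.card F : ℝ) ^ (k + 1) - 1)) ^ m)) +
        ((Fintype.card F : ℝ) - 1) /
          (((Fintype.card F : ℝ) ^ (k + 1) - (Fintype.card F : ℝ)) * ε ^ 2)) *
        ((Fintype.card F : ℝ) ^ (k + 1)) ^ (m + 1) := by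
  classical
  set q : ℕ := Fintype.card F with hq
  have hq2 : 2 ≤ q := Fintype.one_lt_card
  let V : Type := {x : Fin (k + 1) → F // x ≠ 0}
  let r : V → V → Prop := fun x y => ∃ c : F, c ≠ 0 ∧ (x : Fin (k + 1) → F) = c • (y : Fin (k + 1) → F)
  have hr : Equivalence r := by
    refine ⟨fun x => ⟨1, one_ne_zero, (one_smul _ _).symm⟩, ?_, ?_⟩
    · rintro x y ⟨c, hc, h⟩
      exact ⟨c⁻¹, inv_ne_zero hc, by rw [h, smul_smul, inv_mul_cancel₀ hc, one_smul]⟩
    · rintro x y z ⟨c, hc, h⟩ ⟨c', hc', h'⟩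
      exact ⟨c * c', mul_ne_zero hc hc', by rw [h, h', smul_smul]⟩
  have hVc : Fintype.card V = q ^ (k + 1) - 1 := by
    have h1 : Fintype.card V = Fintype.card (Fin (k + 1) → F) - 1 := by
      have := Fintype.card_subtype_compl (fun x : Fin (k + 1) → F => x = 0)
      rw [Fintype.card_subtype_eq] at this
      exact this
    rw [h1, Fintype.card_fun, Fintype.card_fin]
  have hcls : ∀ x : V, (univ.filter fun y => r x y).card = q - 1 := by
    intro x
    have h1 : (univ.filter fun y => r x y) =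
        (univ : Finset Fˣ).image fun c : Fˣ => (⟨(c : F) • (x : Fin (k + 1) → F),
          smul_ne_zero c.ne_zero x.2⟩ : V) := by
      ext y
      simp only [mem_filter, mem_univ, true_and, mem_image]
      constructor
      · rintro ⟨c, hc, h⟩
        refine ⟨(Units.mk0 c hc)⁻¹, ?_⟩
        apply Subtype.ext
        simp only [Units.val_inv_eq_inv_val, Units.val_mk0]
        rw [h, smul_smul, inv_mul_cancel₀ hc, one_smul]
      · rintro ⟨c, rfl⟩
        refine ⟨(c : F)⁻¹, inv_ne_zero c.ne_zero, ?_⟩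
        simp only
        rw [smul_smul, inv_mul_cancel₀ c.ne_zero, one_smul]
    rw [h1, Finset.card_image_of_injective, Finset.card_univ, Fintype.card_units]
    intro c c' h
    have h2 : (c : F) • (x : Fin (k + 1) → F) = (c' : F) • (x : Fin (k + 1) → F) :=
      congrArg Subtype.val h
    exact Units.ext (smul_left_injective F x.2 h2)
  have h2s : 2 * (q - 1) ≤ Fintype.card V := by
    rw [hVc]
    obtain ⟨s, hs⟩ : ∃ s, q = s + 1 := ⟨q - 1, by omega⟩
    have h1 : q ^ 2 ≤ q ^ (k + 1) := Nat.pow_le_pow_right (by omega) (by omega)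
    have h2 : 2 * (q - 1) + 1 ≤ q ^ 2 := by
      rw [hs]; simp only [Nat.add_sub_cancel]; nlinarith
    omega
  have hYc : Fintype.card Y = m + 1 := by rw [Fintype.card_coe, hY]
  have hmain := hLONE Y V r (q - 1) m ε hr hcls (by omega) h2s hYc hε
  have hq1 : (((q - 1 : ℕ)) : ℝ) = (q : ℝ) - 1 := by
    rw [Nat.cast_sub (by omega)]; simp
  have hVr : ((Fintype.card V : ℕ) : ℝ) = (q : ℝ) ^ (k + 1) - 1 := by
    rw [hVc, Nat.cast_sub (Nat.one_le_pow _ _ (by omega))]; simp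
  rw [hq1, hVr] at hmain
  set μ : ℝ := ((m : ℝ) + 1) * (1 - ((q : ℝ) - 1) / ((q : ℝ) ^ (k + 1) - 1)) ^ m with hμ
  -- the injection
  have hinj : (univ.filter fun M : Fin n → Fin (k + 1) → F =>
        csupp M = Y ∧ (lone Y M).card < L).card ≤
      (univ.filter fun f : Y → V =>
        ((univ.filter fun v : Y => ∀ u, u ≠ v → ¬ r (f u) (f v)).card : ℝ) <
          (1 - ε) * μ).card := by
    let x₀ : V := ⟨fun _ => 1, by
      intro h
      have := congrFun h 0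
      simp at this⟩
    let φ : (Fin n → Fin (k + 1) → F) → (Y → V) := fun M v =>
      if h : M v ≠ 0 then ⟨M v, h⟩ else x₀
    have hφ : ∀ M : Fin n → Fin (k + 1) → F, csupp M = Y → ∀ v : Y,
        (φ M v : Fin (k + 1) → F) = M v := by
      intro M hM v
      have hv : (v : Fin n) ∈ csupp M := by rw [hM]; exact v.2
      have hv' : M v ≠ 0 := by
        simpa [csupp] using hv
      simp only [φ]
      rw [dif_pos hv']
    refine Finset.card_le_card_of_injOn φ ?_ ?_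
    · intro M hM
      rw [mem_coe, mem_filter] at hM
      obtain ⟨_, hM1, hM2⟩ := hM
      rw [mem_coe, mem_filter]
      refine ⟨mem_univ _, ?_⟩
      have hcard : (univ.filter fun v : Y => ∀ u, u ≠ v → ¬ r (φ M u) (φ M v)).card
          = (lone Y M).card := by
        rw [← Finset.card_map (Function.Embedding.subtype (fun v => v ∈ Y))]
        congr 1
        ext v
        simp only [mem_map, mem_filter, mem_univ, true_and, Function.Embedding.coe_subtype, lone]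
        constructor
        · rintro ⟨v', h1, rfl⟩
          refine ⟨v'.2, fun u hu huv c hc => ?_⟩
          refine h1 ⟨u, hu⟩ (fun h => huv (congrArg Subtype.val h)) ?_
          refine ⟨c, ?_, ?_⟩
          · rintro rfl
            have hu' : u ∈ csupp M := by rw [hM1]; exact hu
            simp only [csupp, mem_filter, mem_univ, true_and] at hu'
            rw [zero_smul] at hc
            exact hu' hc
          · rw [hφ M hM1, hφ M hM1]; exact hc
        · rintro ⟨hv, h1⟩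
          refine ⟨⟨v, hv⟩, fun u huv => ?_, rfl⟩
          rintro ⟨c, hc, h2⟩
          rw [hφ M hM1, hφ M hM1] at h2
          exact h1 u u.2 (fun h => huv (Subtype.ext h)) c h2
      rw [hcard]
      refine lt_of_lt_of_le ?_ hL
      exact_mod_cast hM2
    · intro M hM M' hM' h
      rw [mem_coe, mem_filter] at hM hM'
      funext v
      by_cases hv : v ∈ Y
      · have h1 := hφ M hM.2.1 ⟨v, hv⟩
        have h2 := hφ M' hM'.2.1 ⟨v, hv⟩
        rw [← h1, ← h2, h]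
      · have h1 : M v = 0 := by
          by_contra hh
          have : v ∈ csupp M := by simp only [csupp, mem_filter, mem_univ, true_and]; exact hh
          rw [hM.2.1] at this
          exact hv this
        have h2 : M' v = 0 := by
          by_contra hh
          have : v ∈ csupp M' := by simp only [csupp, mem_filter, mem_univ, true_and]; exact hh
          rw [hM'.2.1] at this
          exact hv this
        rw [h1, h2]
  have hinj' : ((univ.filter fun M : Fin n → Fin (k + 1) → F =>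
        csupp M = Y ∧ (lone Y M).card < L).card : ℝ) ≤
      ((univ.filter fun f : Y → V =>
        ((univ.filter fun v : Y => ∀ u, u ≠ v → ¬ r (f u) (f v)).card : ℝ) <
          (1 - ε) * μ).card : ℝ) := Nat.cast_le.2 hinj
  refine hinj'.trans (le_trans ?_ (hmain.trans ?_))
  · apply Nat.cast_le.2
    apply Finset.card_le_card
    intro f hf
    rw [mem_filter] at hf ⊢
    refine ⟨mem_univ _, ?_⟩
    convert hf.2
  have hqr : (2 : ℝ) ≤ (q : ℝ) := by exact_mod_cast hq2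
  have hQq : (q : ℝ) < (q : ℝ) ^ (k + 1) := by
    calc (q : ℝ) = (q : ℝ) ^ 1 := (pow_one _).symm
      _ < _ := pow_lt_pow_right₀ (by linarith) (by omega)
  have hμ0 : 0 ≤ μ := by
    rw [hμ]
    apply mul_nonneg (by positivity)
    apply pow_nonneg
    rw [sub_nonneg, div_le_one (by linarith)]
    linarith
  have e1 : (q : ℝ) ^ (k + 1) - 1 - ((q : ℝ) - 1) = (q : ℝ) ^ (k + 1) - (q : ℝ) := by ring
  rw [e1]
  apply mul_le_mul_of_nonneg_left
  · apply pow_le_pow_left₀ (by linarith)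
    linarith
  · apply add_nonneg
    · positivity
    · apply div_nonneg (by linarith)
      apply mul_nonneg (by linarith) (by positivity)

open Filter in
/-- codes for the sizes in a window -/
theorem window_part (hGL : S_GLINJ) (hGC : S_GLCARD) (hDEP : S_DEP) (hSUPP : S_SUPP)
    (hEX : S_EXDEP) (hRED : S_RED) (hLONE : S_LONE) (hCH : S_CH) (hMU : S_MU)
    {δ c : ℕ → ℝ} {J : ℕ} {Kc : ℝ} (hδ : ∀ m, Tur m (δ m)) (h0 : ∀ m, 0 ≤ δ m)
    (hc0 : c 0 = 0) (hc : ∀ m, m + 1 < J → ((m : ℝ) + 1) * δ m ≤ c (m + 1))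
    (hK : ∀ m : ℕ, ((m : ℝ) + 1) * δ m ≤ Kc) (hJ : 1 ≤ J)
    {q : ℕ} (hq : q.Prime) (hq3 : 3 ≤ q) {y x x' y₂ η D : ℝ} (hy : 0 < y) (hyx' : y < x')
    (hx'x : x' < x) (hy2 : 0 < y₂) (hη : 0 < η)
    (hD : Real.exp (-y) * Psi J c Kc x ≤ D) :
    ∀ᶠ K : ℕ in atTop, ∀ d : ℕ, y * (q : ℝ) ^ K ≤ d → ((d : ℝ) + 1) ≤ x' * (q : ℝ) ^ K →
      ∃ a Φ : ℝ, (∀ n, Rnd n d a Φ) ∧ 0 ≤ a ∧ 0 < Φ ∧
        Φ ≤ ((q : ℝ) - 1) / ((q : ℝ) - 2) * (1 + η) ^ 2 * Real.exp (-(y + y₂)) ∧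
        ((d : ℝ) + 1) * a ≤
          ((q : ℝ) - 1) / ((q : ℝ) - 2) * (1 + η) * (D + y₂ * Real.exp (-y)) := by
  have hqr : (3 : ℝ) ≤ (q : ℝ) := by exact_mod_cast hq3
  have hx'0 : 0 < x' := hy.trans hyx'
  set g : ℝ := ((q : ℝ) - 1) / ((q : ℝ) - 2) with hg
  have hg0 : 0 < g := by rw [hg]; apply div_pos <;> linarith
  obtain ⟨ε, M₀, hε0, hε1, hM₀, hch⟩ := hCH y₂ η hy2 hη
  -- the bad term is small
  set Bt : ℝ := η * Real.exp (-(y + y₂)) with hBt
  have hBt0 : 0 < Bt := by rw [hBt]; positivity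
  set X : ℝ := max x' (1 / y) with hX
  have hX0 : 0 < X := lt_of_lt_of_le hx'0 (le_max_left _ _)
  have hmu := hMU q X (max M₀ (2 / (ε ^ 2 * Bt))) (by omega) hX0
  have hpow : Tendsto (fun K : ℕ => (q : ℝ) ^ K) atTop atTop :=
    tendsto_pow_atTop_atTop_of_one_lt (by linarith)
  have hratio : Tendsto (fun K : ℕ => (K : ℝ) ^ 1 / (q : ℝ) ^ K) atTop (nhds 0) :=
    tendsto_pow_const_div_const_pow_of_one_lt 1 (by linarith)
  have hxx : 0 < Real.log (x / x') := Real.log_pos (by rw [lt_div_iff₀ hx'0]; linarith)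
  filter_upwards [hmu, hpow.eventually_ge_atTop (q + 2 * ((q : ℝ) - 1) / (Bt * ε ^ 2)),
    hratio.eventually_lt_const hy, eventually_ge_atTop 2,
    hpow.eventually_ge_atTop (1 / Real.log (x / x')), hpow.eventually_ge_atTop (1 + 1 / η)]
    with K hmuK hQ1 hKr hK2 hQ2 hQ3 d hd1 hd2
  have hQ0 : (0 : ℝ) < (q : ℝ) ^ K := by positivity
  have hd1' : (q : ℝ) ^ K / X ≤ (d : ℝ) := by
    refine le_trans ?_ hd1
    rw [div_le_iff₀ hX0]
    have h1 : 1 ≤ y * X := by
      have : 1 / y ≤ X := le_max_right _ _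
      rw [div_le_iff₀ hy] at this
      linarith
    nlinarith
  have hd2' : (d : ℝ) ≤ X * (q : ℝ) ^ K := by
    have : x' * (q : ℝ) ^ K ≤ X * (q : ℝ) ^ K :=
      mul_le_mul_of_nonneg_right (le_max_left _ _) hQ0.le
    linarith
  have hμ := hmuK d hd1' hd2'
  obtain ⟨k, rfl⟩ : ∃ k, K = k + 1 := ⟨K - 1, by omega⟩
  have hk1 : 1 ≤ k := by omega
  set μ : ℝ := ((d : ℝ) + 1) * (1 - ((q : ℝ) - 1) / ((q : ℝ) ^ (k + 1) - 1)) ^ d with hμdef
  have hμM : M₀ ≤ μ := (le_max_left _ _).trans hμ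
  have hμB : 2 / (ε ^ 2 * Bt) ≤ μ := (le_max_right _ _).trans hμ
  have hμ0 : 0 < μ := lt_of_lt_of_le hM₀ hμM
  obtain ⟨p, L, hp, hL, hp1, hp2, hp3⟩ := hch μ hμM
  have hdk : k ≤ d := by
    have h1 : ((k + 1 : ℕ) : ℝ) < y * (q : ℝ) ^ (k + 1) := by
      rw [pow_one, div_lt_iff₀ hQ0] at hKr
      exact hKr
    have h2 : ((k + 1 : ℕ) : ℝ) < (d : ℝ) := lt_of_lt_of_le h1 hd1
    have h3 : k + 1 < d := by exact_mod_cast h2
    omega
  obtain ⟨D', hD'⟩ : ∃ D', d = D' + k := ⟨d - k, by omega⟩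
  have : Fact q.Prime := ⟨hq⟩
  have : Fact p.Prime := ⟨hp⟩
  have hpr : (1 : ℝ) < (p : ℝ) := by exact_mod_cast hp.one_lt
  set B : ℝ := 1 / (ε ^ 2 * μ) + ((q : ℝ) - 1) / (((q : ℝ) ^ (k + 1) - (q : ℝ)) * ε ^ 2) with hB
  have hε2 : 0 < ε ^ 2 := by positivity
  have hQq : 0 < (q : ℝ) ^ (k + 1) - (q : ℝ) := by
    have : 0 < 2 * ((q : ℝ) - 1) / (Bt * ε ^ 2) := by
      apply div_pos _ (by positivity)
      linarith
    linarith
  have hB0 : 0 < B := by
    rw [hB]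
    apply add_pos
    · positivity
    · apply div_pos _ (by positivity)
      linarith
  have hBB : B ≤ Bt := by
    have h1 : 1 / (ε ^ 2 * μ) ≤ Bt / 2 := by
      rw [div_le_iff₀ (by positivity)] at hμB
      rw [div_le_div_iff₀ (by positivity) (by norm_num)]
      nlinarith
    have h2 : ((q : ℝ) - 1) / (((q : ℝ) ^ (k + 1) - (q : ℝ)) * ε ^ 2) ≤ Bt / 2 := by
      have h3 : 2 * ((q : ℝ) - 1) / (Bt * ε ^ 2) ≤ (q : ℝ) ^ (k + 1) - q := by linarith
      rw [div_le_iff₀ (by positivity)] at h3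
      rw [div_le_div_iff₀ (by positivity) (by norm_num)]
      nlinarith
    linarith
  have hcF : Fintype.card (ZMod q) = q := ZMod.card q
  have hcP : Fintype.card (ZMod p) = p := ZMod.card p
  have hrnd : ∀ n, Rnd n d
      (g * (detA d (q ^ (k + 1)) δ + (1 - 1 / (q : ℝ) ^ k) ^ d / ((p : ℝ) - 1)))
      (g * ((p : ℝ) / ((p : ℝ) - 1)) *
        ((1 - 1 / (q : ℝ) ^ (k + 1)) ^ (d + 1) * (1 - 1 / (p : ℝ)) ^ L + B)) := by
    intro n
    have h := cert_rnd hGL hGC hDEP hSUPP hEX hRED (ZMod q) (ZMod p) (by rw [hcF]; exact hq3)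
      (k := k) (D := D') (d := d) hD' (δ := δ) (fun m _ => hδ m) h0 L B n (by
        intro Y hY
        have hb := bad_bound hLONE (ZMod q) hk1 Y hY hε0 L (by rw [hcF]; exact hL)
        rw [hcF] at hb
        rw [hcF]
        exact hb)
    rw [hcF, hcP] at h
    exact h
  -- estimates
  have hQ1' : (1 : ℝ) < (q : ℝ) ^ (k + 1) := by linarith
  have hyd : y ≤ (d : ℝ) / (q : ℝ) ^ (k + 1) := by rw [le_div_iff₀ hQ0]; exact hd1
  have hqn2 : 2 ≤ q ^ (k + 1) := by
    calc 2 ≤ q := by omega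
      _ = q ^ 1 := (pow_one _).symm
      _ ≤ q ^ (k + 1) := Nat.pow_le_pow_right (by omega) (by omega)
  have hcastQ : ((q ^ (k + 1) : ℕ) : ℝ) = (q : ℝ) ^ (k + 1) := by push_cast; rfl
  have hxd : ((d : ℝ) + 1) / ((q ^ (k + 1) : ℕ) : ℝ) *
      Real.exp (1 / ((q ^ (k + 1) : ℕ) : ℝ)) ≤ x := by
    rw [hcastQ]
    have h1 : ((d : ℝ) + 1) / (q : ℝ) ^ (k + 1) ≤ x' := by
      rw [div_le_iff₀ hQ0]; exact hd2
    have h2 : Real.exp (1 / (q : ℝ) ^ (k + 1)) ≤ x / x' := by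
      rw [← Real.le_log_iff_exp_le (div_pos (hx'0.trans hx'x) hx'0)]
      rw [div_le_iff₀ hQ0]
      rw [div_le_iff₀ hxx] at hQ2
      linarith
    calc ((d : ℝ) + 1) / (q : ℝ) ^ (k + 1) * Real.exp (1 / (q : ℝ) ^ (k + 1)) ≤ x' * (x / x') :=
          mul_le_mul h1 h2 (Real.exp_pos _).le hx'0.le
      _ = x := by field_simp
  have hA := detA_le (d := d) (q := q ^ (k + 1)) (x := x) (y := y) hqn2 h0 hc0 hc hK
    (by rw [hcastQ]; exact hyd) hJ hxd
  rw [hcastQ] at hA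
  have hA0 : 0 ≤ detA d (q ^ (k + 1)) δ := detA_nonneg hqn2 h0
  have hQr : (q : ℝ) ^ (k + 1) / ((q : ℝ) ^ (k + 1) - 1) ≤ 1 + η := by
    have h1 : 1 / η * η = 1 := by field_simp
    rw [div_le_iff₀ (by linarith)]
    have h2 : (1 + 1 / η) * η ≤ (q : ℝ) ^ (k + 1) * η := mul_le_mul_of_nonneg_right hQ3 hη.le
    nlinarith
  have hQr0 : 0 < (q : ℝ) ^ (k + 1) / ((q : ℝ) ^ (k + 1) - 1) := div_pos hQ0 (by linarith)
  have hD0 : 0 ≤ D := by
    have h1 : 0 ≤ (q : ℝ) ^ (k + 1) / ((q : ℝ) ^ (k + 1) - 1) *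
        (Real.exp (-y) * Psi J c Kc x) := le_trans (by positivity) hA
    exact (nonneg_of_mul_nonneg_right h1 hQr0).trans hD
  have hA1 : ((d : ℝ) + 1) * detA d (q ^ (k + 1)) δ ≤ (1 + η) * D :=
    hA.trans ((mul_le_mul_of_nonneg_left hD hQr0.le).trans
      (mul_le_mul_of_nonneg_right hQr hD0))
  have hE : (1 - 1 / (q : ℝ) ^ (k + 1)) ^ d ≤ Real.exp (-y) := by
    have h1 : 0 ≤ 1 - 1 / (q : ℝ) ^ (k + 1) := by
      rw [sub_nonneg, div_le_one hQ0]; exact hQ1'.le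
    have h2 : 1 - 1 / (q : ℝ) ^ (k + 1) ≤ Real.exp (-(1 / (q : ℝ) ^ (k + 1))) :=
      Real.one_sub_le_exp_neg _
    calc _ ≤ Real.exp (-(1 / (q : ℝ) ^ (k + 1))) ^ d := pow_le_pow_left₀ h1 h2 d
      _ = Real.exp (-((d : ℝ) / (q : ℝ) ^ (k + 1))) := by
          rw [← Real.exp_nat_mul]; congr 1; ring
      _ ≤ Real.exp (-y) := Real.exp_le_exp.2 (by linarith)
  have hE1 : (1 - 1 / (q : ℝ) ^ (k + 1)) ^ (d + 1) ≤ Real.exp (-y) := by
    have h1 : 0 ≤ 1 - 1 / (q : ℝ) ^ (k + 1) := by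
      rw [sub_nonneg, div_le_one hQ0]; exact hQ1'.le
    have h3 : 1 - 1 / (q : ℝ) ^ (k + 1) ≤ 1 := by
      have : 0 < 1 / (q : ℝ) ^ (k + 1) := by positivity
      linarith
    rw [pow_succ]
    calc _ ≤ (1 - 1 / (q : ℝ) ^ (k + 1)) ^ d * 1 :=
          mul_le_mul_of_nonneg_left h3 (pow_nonneg h1 _)
      _ ≤ _ := by rw [mul_one]; exact hE
  have hBterm : ((d : ℝ) + 1) * (1 - 1 / (q : ℝ) ^ k) ^ d =
      μ * (1 - 1 / (q : ℝ) ^ (k + 1)) ^ d := by
    rw [hμdef, mul_assoc, ← mul_pow]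
    congr 2
    have hQk : (q : ℝ) ^ (k + 1) = (q : ℝ) ^ k * q := pow_succ _ _
    have hk0 : (0 : ℝ) < (q : ℝ) ^ k := by positivity
    rw [hQk] at hQ1' ⊢
    have h3 : (q : ℝ) ^ k * q - 1 ≠ 0 := by linarith
    field_simp
    ring
  have hp0 : 0 < (p : ℝ) - 1 := by linarith
  refine ⟨_, _, hrnd, ?_, ?_, ?_, ?_⟩
  · have h1 : 0 ≤ (1 - 1 / (q : ℝ) ^ k) ^ d := by
      apply pow_nonneg
      rw [sub_nonneg, div_le_one (by positivity)]
      exact one_le_pow₀ (by linarith)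
    have h2 : 0 ≤ (1 - 1 / (q : ℝ) ^ k) ^ d / ((p : ℝ) - 1) := div_nonneg h1 hp0.le
    positivity
  · have h1 : 0 ≤ (1 - 1 / (q : ℝ) ^ (k + 1)) ^ (d + 1) := by
      apply pow_nonneg
      rw [sub_nonneg, div_le_one hQ0]; exact hQ1'.le
    have h2 : 0 ≤ (1 - 1 / (p : ℝ)) ^ L := by
      apply pow_nonneg
      rw [sub_nonneg, div_le_one (by linarith)]; exact hpr.le
    have h3 : 0 < (p : ℝ) / ((p : ℝ) - 1) := div_pos (by linarith) hp0
    have h4 := mul_nonneg h1 h2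
    apply mul_pos (mul_pos hg0 h3)
    linarith
  · have h2 : 0 ≤ (1 - 1 / (p : ℝ)) ^ L := by
      apply pow_nonneg
      rw [sub_nonneg, div_le_one (by linarith)]; exact hpr.le
    have h5 : (1 - 1 / (q : ℝ) ^ (k + 1)) ^ (d + 1) * (1 - 1 / (p : ℝ)) ^ L ≤
        Real.exp (-(y + y₂)) := by
      rw [neg_add, Real.exp_add]
      exact mul_le_mul hE1 hp3 h2 (Real.exp_pos _).le
    have h6 : (1 - 1 / (q : ℝ) ^ (k + 1)) ^ (d + 1) * (1 - 1 / (p : ℝ)) ^ L + B ≤
        (1 + η) * Real.exp (-(y + y₂)) := by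
      have : Bt = η * Real.exp (-(y + y₂)) := hBt
      linarith
    have h3 : 0 < (p : ℝ) / ((p : ℝ) - 1) := div_pos (by linarith) hp0
    calc g * ((p : ℝ) / ((p : ℝ) - 1)) *
        ((1 - 1 / (q : ℝ) ^ (k + 1)) ^ (d + 1) * (1 - 1 / (p : ℝ)) ^ L + B)
        ≤ g * (1 + η) * ((1 + η) * Real.exp (-(y + y₂))) := by
          apply mul_le_mul _ h6 _ (by positivity)
          · exact mul_le_mul_of_nonneg_left hp2 hg0.le
          · have h1 : 0 ≤ (1 - 1 / (q : ℝ) ^ (k + 1)) ^ (d + 1) := by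
              apply pow_nonneg
              rw [sub_nonneg, div_le_one hQ0]; exact hQ1'.le
            have h4 := mul_nonneg h1 h2
            linarith
      _ = _ := by ring
  · have h7 : ((d : ℝ) + 1) * ((1 - 1 / (q : ℝ) ^ k) ^ d / ((p : ℝ) - 1)) ≤
        (1 + η) * (y₂ * Real.exp (-y)) := by
      calc ((d : ℝ) + 1) * ((1 - 1 / (q : ℝ) ^ k) ^ d / ((p : ℝ) - 1))
          = (((d : ℝ) + 1) * (1 - 1 / (q : ℝ) ^ k) ^ d) / ((p : ℝ) - 1) := by ring
        _ = (μ / ((p : ℝ) - 1)) * (1 - 1 / (q : ℝ) ^ (k + 1)) ^ d := by rw [hBterm]; ring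
        _ ≤ ((1 + η) * y₂) * Real.exp (-y) := by
            apply mul_le_mul hp1 hE _ (by positivity)
            apply pow_nonneg
            rw [sub_nonneg, div_le_one hQ0]; exact hQ1'.le
        _ = _ := by ring
    calc ((d : ℝ) + 1) * (g * (detA d (q ^ (k + 1)) δ + (1 - 1 / (q : ℝ) ^ k) ^ d / ((p : ℝ) - 1)))
        = g * (((d : ℝ) + 1) * detA d (q ^ (k + 1)) δ +
            ((d : ℝ) + 1) * ((1 - 1 / (q : ℝ) ^ k) ^ d / ((p : ℝ) - 1))) := by ring
      _ ≤ g * ((1 + η) * D + (1 + η) * (y₂ * Real.exp (-y))) :=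
          mul_le_mul_of_nonneg_left (add_le_add hA1 h7) hg0.le
      _ = _ := by ring

end Pool.Agent.TH589.DC
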