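import Mathlib
import Pool.Agent.TH589.DC.Stmts

/-!
# DC-DEP (job 1441, helper589, MP_a4d830_co): dependencies
-/

set_option autoImplicit false

open Finset Filter

namespace Pool.Agent.TH589.DC

/-- the map `ξ ↦ (∑ v, M v i • ξ v)_i` -/
def depMap (F : Type) [Field F] (n k D : ℕ) (M : Fin n → Fin k → F) :
    (Fin n → Fin D → F) →ₗ[F] (Fin k → Fin D → F) where
  toFun ξ i := ∑ v, M v i • ξ v
  map_add' ξ η := by
    funext i
    simp [smul_add, Finset.sum_add_distrib]
  map_smul' a ξ := by
    funext i
    simp only [Pi.smul_apply, RingHom.id_apply, Finset.smul_sum]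
    refine Finset.sum_congr rfl fun v _ => ?_
    rw [smul_comm]

theorem depMap_surj (F : Type) [Field F] (n k D : ℕ) (M : Fin n → Fin k → F)
    (hM : LinearIndependent F (fun i : Fin k => fun v : Fin n => M v i)) :
    Function.Surjective (depMap F n k D M) := by
  set A : Matrix (Fin k) (Fin n) F := fun i v => M v i with hA
  have hr : A.rank = k := by
    have h : LinearIndependent F A.row := hM
    rw [h.rank_matrix, Fintype.card_fin]
  have htop : LinearMap.range A.mulVecLin = ⊤ := by
    apply Submodule.eq_top_of_finrank_eq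
    rw [Module.finrank_fin_fun]
    exact hr
  have hs : Function.Surjective A.mulVecLin := LinearMap.range_eq_top.mp htop
  intro η
  choose x hx using fun d : Fin D => hs (fun i => η i d)
  refine ⟨fun v d => x d v, ?_⟩
  funext i d
  have h1 := congrFun (hx d) i
  simp only [Matrix.mulVecLin_apply, Matrix.mulVec, dotProduct] at h1
  simp only [depMap, LinearMap.coe_mk, AddHom.coe_mk, Finset.sum_apply, Pi.smul_apply, smul_eq_mul]
  exact h1

theorem dep_thm : S_DEP := by
  intro F _ _ _ n k D M hM
  have hs := depMap_surj F n k D M hM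
  have h1 := LinearMap.finrank_range_add_finrank_ker (depMap F n k D M)
  rw [LinearMap.range_eq_top.mpr hs, finrank_top] at h1
  have e1 : Module.finrank F (Fin k → Fin D → F) = k * D := by
    rw [Module.finrank_pi_fintype]
    simp
  have e2 : Module.finrank F (Fin n → Fin D → F) = n * D := by
    rw [Module.finrank_pi_fintype]
    simp
  rw [e1, e2] at h1
  classical
  have h2 : (univ.filter fun ξ : Fin n → Fin D → F => ∀ i : Fin k, ∑ v, M v i • ξ v = 0).card =
      Fintype.card F ^ Module.finrank F (LinearMap.ker (depMap F n k D M)) := by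
    rw [← Module.card_eq_pow_finrank, ← Fintype.card_subtype]
    refine Fintype.card_congr (Equiv.subtypeEquivRight fun ξ => ?_)
    rw [LinearMap.mem_ker]
    constructor
    · intro h
      funext i
      exact h i
    · intro h i
      exact congrFun h i
  have h3 : Fintype.card (Fin n → Fin D → F) = Fintype.card F ^ (n * D) := by
    rw [← e2, ← Module.card_eq_pow_finrank]
  rw [h2, h3, ← h1]
  push_cast
  rw [← pow_mul, ← pow_add, add_comm]

/-- the map whose kernel consists of the dependencies supported in `S` -/
def exMap (F : Type) [Field F] (n D : ℕ) (ξ : Fin n → Fin D → F) (S : Finset (Fin n)) :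
    (Fin n → F) →ₗ[F] ({v : Fin n // v ∉ S} → F) × (Fin D → F) where
  toFun α := (fun v => α v, ∑ v, α v • ξ v)
  map_add' α β := by
    simp only [Pi.add_apply, add_smul, Finset.sum_add_distrib]
    rfl
  map_smul' a α := by
    simp only [Pi.smul_apply, RingHom.id_apply, Prod.smul_mk, Finset.smul_sum, smul_eq_mul,
      mul_smul]
    rfl

theorem exdep_thm : S_EXDEP := by
  intro F _ _ _ n k D ξ S hS
  have h1 := LinearMap.finrank_range_add_finrank_ker (exMap F n D ξ S)
  have h2 := Submodule.finrank_le (LinearMap.range (exMap F n D ξ S))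
  have e1 : Module.finrank F (({v : Fin n // v ∉ S} → F) × (Fin D → F)) = n - (D + k) + D := by
    rw [Module.finrank_prod, Module.finrank_fin_fun, Module.finrank_fintype_fun_eq_card,
      Fintype.card_subtype_compl, Fintype.card_fin, Fintype.card_coe, hS]
  rw [Module.finrank_fin_fun] at h1
  rw [e1] at h2
  have hle : D + k ≤ n := by
    have := Finset.card_le_univ S
    rwa [Fintype.card_fin, hS] at this
  have h3 : k ≤ Module.finrank F (LinearMap.ker (exMap F n D ξ S)) := by omega
  set b := Module.finBasis F (LinearMap.ker (exMap F n D ξ S)) with hb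
  have hli : LinearIndependent F (fun i : Fin k => (b (Fin.castLE h3 i) : Fin n → F)) := by
    have h4 := b.linearIndependent.comp (Fin.castLE h3) (Fin.castLE_injective h3)
    exact h4.map' (LinearMap.ker (exMap F n D ξ S)).subtype (Submodule.ker_subtype _)
  have hker : ∀ i : Fin k, exMap F n D ξ S (b (Fin.castLE h3 i) : Fin n → F) = 0 := fun i =>
    (b (Fin.castLE h3 i)).2
  refine ⟨fun v i => (b (Fin.castLE h3 i) : Fin n → F) v, hli, fun v hv => ?_, fun i => ?_⟩
  · funext i
    exact congrFun (congrArg Prod.fst (hker i)) ⟨v, hv⟩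
  · exact congrArg Prod.snd (hker i)

end Pool.Agent.TH589.DC
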