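import Pool.Agent.TH589.DC.Stmts

/-!
# The free orbit under the general linear group, and the number of invertible matrices
(job DC-GL, helper367)
-/

set_option autoImplicit false

open Finset

namespace Pool.Agent.TH589.DC

theorem glinj_thm : S_GLINJ := by
  intro F _ _ _ n k M hM g h hgh
  have h1 : ∀ v i, ∑ j, ((g : Matrix (Fin k) (Fin k) F) i j -
      (h : Matrix (Fin k) (Fin k) F) i j) * M v j = 0 := by
    intro v i
    have h2 := congrFun (congrFun hgh v) i
    simp only [Matrix.mulVec, dotProduct] at h2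
    rw [Finset.sum_congr rfl fun j _ => sub_mul _ _ _, Finset.sum_sub_distrib, h2, sub_self]
  rw [Fintype.linearIndependent_iff] at hM
  apply Units.ext
  ext i j
  have h3 := hM (fun j => (g : Matrix (Fin k) (Fin k) F) i j -
      (h : Matrix (Fin k) (Fin k) F) i j) (by
    funext v
    simp only [Finset.sum_apply, Pi.smul_apply, smul_eq_mul, Pi.zero_apply]
    exact h1 v i) j
  exact sub_eq_zero.1 h3

/-- Weierstrass product inequality -/
theorem gl_weier (k : ℕ) (a : ℕ → ℝ) (h0 : ∀ i, 0 ≤ a i) (h1 : ∀ i, a i ≤ 1) :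
    1 - ∑ i ∈ range k, a i ≤ ∏ i ∈ range k, (1 - a i) := by
  induction k with
  | zero => simp
  | succ k ih =>
    rw [Finset.sum_range_succ, Finset.prod_range_succ]
    have hp : ∏ i ∈ range k, (1 - a i) ≤ 1 :=
      Finset.prod_le_one (fun i _ => by linarith [h1 i]) (fun i _ => by linarith [h0 i])
    nlinarith [h0 k, h1 k]

theorem glcard_thm : S_GLCARD := by
  intro F _ _ _ k hq
  have hcard : (Fintype.card (GL (Fin k) F) : ℝ) =
      ∏ i : Fin k, ((Fintype.card F : ℝ) ^ k - (Fintype.card F : ℝ) ^ (i : ℕ)) := by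
    have h1 := Matrix.card_GL_field (𝔽 := F) k
    rw [Nat.card_eq_fintype_card] at h1
    rw [h1, Nat.cast_prod]
    refine Finset.prod_congr rfl fun i _ => ?_
    rw [Nat.cast_sub (Nat.pow_le_pow_right (by omega) i.2.le)]
    push_cast
    rfl
  set q : ℝ := (Fintype.card F : ℝ) with hqdef
  have hq3 : (3 : ℝ) ≤ q := by rw [hqdef]; exact_mod_cast hq
  have hq0 : 0 < q := by linarith
  have hprod : ∏ i : Fin k, (q ^ k - q ^ (i : ℕ)) =
      q ^ (k * k) * ∏ i ∈ range k, (1 - (1 / q) ^ (i + 1)) := by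
    have e1 : ∏ i : Fin k, (q ^ k - q ^ (i : ℕ)) = ∏ i ∈ range k, (q ^ k - q ^ i) :=
      Finset.prod_range (fun i => q ^ k - q ^ i) |>.symm
    rw [e1, ← Finset.prod_range_reflect (fun i => q ^ k - q ^ i)]
    have e2 : q ^ (k * k) = ∏ _i ∈ range k, q ^ k := by
      rw [Finset.prod_const, Finset.card_range, ← pow_mul]
    rw [e2, ← Finset.prod_mul_distrib]
    refine Finset.prod_congr rfl fun i hi => ?_
    rw [Finset.mem_range] at hi
    have e3 : q ^ k = q ^ (k - 1 - i) * q ^ (i + 1) := by
      rw [← pow_add]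
      congr 1
      omega
    rw [mul_sub, mul_one]
    congr 1
    rw [e3, one_div, inv_pow, mul_assoc, mul_inv_cancel₀ (pow_ne_zero _ hq0.ne'), mul_one]
  have hw := gl_weier k (fun i => (1 / q) ^ (i + 1)) (fun i => by positivity)
    (fun i => pow_le_one₀ (by positivity) (by rw [div_le_one hq0]; linarith))
  have hgeo : ∑ i ∈ range k, (1 / q) ^ (i + 1) ≤ 1 / (q - 1) := by
    have h1 : ∀ k : ℕ, ∑ i ∈ range k, (1 / q) ^ (i + 1) = (1 - (1 / q) ^ k) / (q - 1) := by
      intro k
      induction k with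
      | zero => simp
      | succ k ih =>
        rw [Finset.sum_range_succ, ih]
        have h2 : q - 1 ≠ 0 := by intro h; linarith
        have h3 : q ≠ 0 := hq0.ne'
        rw [eq_div_iff h2, add_mul, div_mul_cancel₀ _ h2]
        have h4 : (1 / q) ^ (k + 1) * (q - 1) = (1 / q) ^ k * (1 / q * q) - (1 / q) ^ (k + 1) := by
          ring
        rw [h4, one_div_mul_cancel h3]
        ring
    rw [h1]
    apply div_le_div_of_nonneg_right _ (by linarith)
    have : (0 : ℝ) ≤ (1 / q) ^ k := by positivity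
    linarith
  rw [hcard, hprod]
  have hfac : (q - 2) / (q - 1) ≤ ∏ i ∈ range k, (1 - (1 / q) ^ (i + 1)) := by
    have : (q - 2) / (q - 1) = 1 - 1 / (q - 1) := by
      have h2 : q - 1 ≠ 0 := by intro h; linarith
      field_simp
      ring
    rw [this]
    linarith
  have h4 : (q - 1) / (q - 2) * (q ^ (k * k) * ((q - 2) / (q - 1))) = q ^ (k * k) := by
    have h2 : q - 1 ≠ 0 := by intro h; linarith
    have h3 : q - 2 ≠ 0 := by intro h; linarith
    field_simp
  calc q ^ (k * k) = (q - 1) / (q - 2) * (q ^ (k * k) * ((q - 2) / (q - 1))) := h4.symm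
    _ ≤ _ := by
      apply mul_le_mul_of_nonneg_left _ (div_nonneg (by linarith) (by linarith))
      exact mul_le_mul_of_nonneg_left hfac (by positivity)

end Pool.Agent.TH589.DC
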