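import Pool.Agent.TH589.DC.Stmts

/-!
# Balls in bins: few lone balls are unlikely (Chebyshev)
-/

set_option autoImplicit false

open Finset Filter

namespace Pool.Agent.TH589.DC

namespace LoneX

variable {ι V : Type} [Fintype ι] [DecidableEq ι] [Fintype V] [DecidableEq V]
  (r : V → V → Prop) [DecidableRel r]

/-- elements that are not related to `a` -/
def off1 (a : V) : Finset V := univ.filter fun y => ¬ r y a

/-- elements that are related neither to `a` nor to `b` -/
def off2 (a b : V) : Finset V := univ.filter fun y => ¬ r y a ∧ ¬ r y b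

variable {r}

omit [DecidableEq V] in
theorem cls_card {s : ℕ} (hr : Equivalence r)
    (hs : ∀ x : V, (univ.filter fun y => r x y).card = s) (a : V) :
    (univ.filter fun y => r y a).card = s := by
  rw [← hs a]
  refine congrArg Finset.card (Finset.filter_congr fun y _ => ?_)
  exact ⟨fun h => hr.symm h, fun h => hr.symm h⟩

theorem off1_card {s : ℕ} (hr : Equivalence r)
    (hs : ∀ x : V, (univ.filter fun y => r x y).card = s) (a : V) :
    (off1 r a).card = Fintype.card V - s := by
  have h := Finset.card_filter_add_card_filter_not (s := (univ : Finset V)) (fun y => r y a)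
  rw [cls_card hr hs a, Finset.card_univ] at h
  unfold off1
  omega

theorem off2_card {s : ℕ} (hr : Equivalence r)
    (hs : ∀ x : V, (univ.filter fun y => r x y).card = s) (a b : V) (hab : ¬ r a b) :
    (off2 r a b).card = Fintype.card V - 2 * s := by
  have h := Finset.card_filter_add_card_filter_not (s := (univ : Finset V))
    (fun y => r y a ∨ r y b)
  have h2 : (univ.filter fun y => r y a ∨ r y b).card = s + s := by
    rw [Finset.filter_or, Finset.card_union_of_disjoint, cls_card hr hs a, cls_card hr hs b]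
    rw [Finset.disjoint_filter]
    intro y _ h1 h2
    exact hab (hr.trans (hr.symm h1) h2)
  rw [h2, Finset.card_univ] at h
  have h3 : off2 r a b = univ.filter fun y => ¬ (r y a ∨ r y b) := by
    unfold off2
    exact Finset.filter_congr fun y _ => by rw [not_or]
  rw [h3]
  omega

theorem count1 {s m : ℕ} (hr : Equivalence r)
    (hs : ∀ x : V, (univ.filter fun y => r x y).card = s) (hm : Fintype.card ι = m + 1) (v : ι) :
    (univ.filter fun f : ι → V => ∀ u, u ≠ v → ¬ r (f u) (f v)).card =
      Fintype.card V * (Fintype.card V - s) ^ m := by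
  rw [Finset.card_eq_sum_card_fiberwise (f := fun f : ι → V => f v) (t := univ)
    (fun _ _ => mem_coe.2 (mem_univ _))]
  have h1 : ∀ a : V, ((univ.filter fun f : ι → V => ∀ u, u ≠ v → ¬ r (f u) (f v)).filter
      fun f => f v = a).card = (Fintype.card V - s) ^ m := by
    intro a
    have h2 : ((univ.filter fun f : ι → V => ∀ u, u ≠ v → ¬ r (f u) (f v)).filter
        fun f => f v = a) = Fintype.piFinset fun u => if u = v then {a} else off1 r a := by
      ext f
      rw [Finset.mem_filter, Finset.mem_filter, Fintype.mem_piFinset]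
      constructor
      · rintro ⟨⟨-, h3⟩, h4⟩ u
        by_cases hu : u = v
        · rw [if_pos hu, Finset.mem_singleton, hu]
          exact h4
        · rw [if_neg hu]
          have := h3 u hu
          rw [h4] at this
          exact Finset.mem_filter.2 ⟨mem_univ _, this⟩
      · intro h3
        have h4 : f v = a := by
          have := h3 v
          rw [if_pos rfl, Finset.mem_singleton] at this
          exact this
        refine ⟨⟨mem_univ _, fun u hu => ?_⟩, h4⟩
        have := h3 u
        rw [if_neg hu] at this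
        rw [h4]
        exact (Finset.mem_filter.1 this).2
    rw [h2, Fintype.card_piFinset, ← Finset.mul_prod_erase univ _ (mem_univ v), if_pos rfl,
      Finset.card_singleton, one_mul]
    rw [Finset.prod_congr rfl fun u hu => by
      rw [if_neg (Finset.ne_of_mem_erase hu), off1_card hr hs a]]
    rw [Finset.prod_const, Finset.card_erase_of_mem (mem_univ v), Finset.card_univ, hm,
      Nat.add_sub_cancel]
  rw [Finset.sum_congr rfl fun a _ => h1 a, Finset.sum_const, Finset.card_univ, smul_eq_mul]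

theorem count2 {s m : ℕ} (hr : Equivalence r)
    (hs : ∀ x : V, (univ.filter fun y => r x y).card = s) (hm : Fintype.card ι = m + 2) {v w : ι}
    (hvw : v ≠ w) :
    (univ.filter fun f : ι → V => (∀ u, u ≠ v → ¬ r (f u) (f v)) ∧
      ∀ u, u ≠ w → ¬ r (f u) (f w)).card ≤
      Fintype.card V * (Fintype.card V - s) * (Fintype.card V - 2 * s) ^ m := by
  rw [Finset.card_eq_sum_card_fiberwise (f := fun f : ι → V => (f v, f w))
    (t := univ.filter fun q : V × V => ¬ r q.2 q.1) ?_]
  · have h1 : ∀ q ∈ univ.filter fun q : V × V => ¬ r q.2 q.1,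
        ((univ.filter fun f : ι → V => (∀ u, u ≠ v → ¬ r (f u) (f v)) ∧
          ∀ u, u ≠ w → ¬ r (f u) (f w)).filter fun f => (f v, f w) = q).card ≤
        (Fintype.card V - 2 * s) ^ m := by
      rintro ⟨a, b⟩ hab
      have hab' : ¬ r a b := fun h => (Finset.mem_filter.1 hab).2 (hr.symm h)
      have h2 : ((univ.filter fun f : ι → V => (∀ u, u ≠ v → ¬ r (f u) (f v)) ∧
          ∀ u, u ≠ w → ¬ r (f u) (f w)).filter fun f => (f v, f w) = (a, b)) ⊆
          Fintype.piFinset fun u => if u = v then {a} else if u = w then {b} else off2 r a b := by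
        intro f hf
        rw [Finset.mem_filter, Finset.mem_filter] at hf
        obtain ⟨⟨-, h3, h4⟩, h5⟩ := hf
        have h6 : f v = a := congrArg Prod.fst h5
        have h7 : f w = b := congrArg Prod.snd h5
        rw [Fintype.mem_piFinset]
        intro u
        by_cases hu : u = v
        · rw [if_pos hu, Finset.mem_singleton, hu, h6]
        · rw [if_neg hu]
          by_cases hu2 : u = w
          · rw [if_pos hu2, Finset.mem_singleton, hu2, h7]
          · rw [if_neg hu2]
            have h8 := h3 u hu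
            have h9 := h4 u hu2
            rw [h6] at h8
            rw [h7] at h9
            exact Finset.mem_filter.2 ⟨mem_univ _, h8, h9⟩
      refine (Finset.card_le_card h2).trans ?_
      rw [Fintype.card_piFinset, ← Finset.mul_prod_erase univ _ (mem_univ v), if_pos rfl,
        Finset.card_singleton, one_mul]
      have hw : w ∈ (univ : Finset ι).erase v := Finset.mem_erase.2 ⟨hvw.symm, mem_univ _⟩
      rw [← Finset.mul_prod_erase _ _ hw, if_neg hvw.symm, if_pos rfl, Finset.card_singleton,
        one_mul]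
      rw [Finset.prod_congr rfl fun u hu => by
        rw [if_neg (Finset.ne_of_mem_erase (Finset.mem_of_mem_erase hu)),
          if_neg (Finset.ne_of_mem_erase hu), off2_card hr hs a b hab']]
      rw [Finset.prod_const, Finset.card_erase_of_mem hw, Finset.card_erase_of_mem (mem_univ v),
        Finset.card_univ, hm]
      exact le_rfl
    refine (Finset.sum_le_card_nsmul _ _ _ h1).trans ?_
    rw [smul_eq_mul]
    refine Nat.mul_le_mul_right _ ?_
    rw [Finset.card_eq_sum_card_fiberwise (f := fun q : V × V => q.1) (t := univ)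
      (fun _ _ => mem_coe.2 (mem_univ _))]
    have h3 : ∀ a ∈ (univ : Finset V), ((univ.filter fun q : V × V => ¬ r q.2 q.1).filter
        fun q => q.1 = a).card ≤ Fintype.card V - s := by
      intro a _
      rw [← off1_card hr hs a]
      refine Finset.card_le_card_of_injOn (fun q => q.2) ?_ ?_
      · intro q hq
        have hq' := Finset.mem_filter.1 (Finset.mem_coe.1 hq)
        have hq2 := (Finset.mem_filter.1 hq'.1).2
        rw [hq'.2] at hq2
        exact Finset.mem_coe.2 (Finset.mem_filter.2 ⟨mem_univ _, hq2⟩)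
      · intro q hq q' hq' h
        have h4 := (Finset.mem_filter.1 (Finset.mem_coe.1 hq)).2
        have h5 := (Finset.mem_filter.1 (Finset.mem_coe.1 hq')).2
        exact Prod.ext (h4.trans h5.symm) h
    refine (Finset.sum_le_card_nsmul _ _ _ h3).trans ?_
    rw [smul_eq_mul, Finset.card_univ]
  · intro f hf
    have h1 := (Finset.mem_filter.1 (Finset.mem_coe.1 hf)).2
    exact Finset.mem_coe.2 (Finset.mem_filter.2 ⟨mem_univ _, h1.1 w hvw.symm⟩)

end LoneX

open LoneX in
theorem lone_thm : S_LONE := by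
  intro ι V _ _ _ _ r _ s m ε hr hs hs1 h2s hm hε
  set n : ℕ := Fintype.card V with hn
  let I : (ι → V) → ι → ℝ := fun f v => if (∀ u, u ≠ v → ¬ r (f u) (f v)) then 1 else 0
  let l : (ι → V) → ℝ := fun f => ∑ v, I f v
  have hn0 : (0 : ℝ) < n := by
    have : 0 < n := by omega
    exact_mod_cast this
  have hs0 : (0 : ℝ) < s := by exact_mod_cast hs1
  have h2s' : 2 * (s : ℝ) ≤ n := by exact_mod_cast h2s
  set x : ℝ := (s : ℝ) / n with hx
  have hx0 : 0 < x := div_pos hs0 hn0
  have hx1 : x ≤ 1 / 2 := by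
    rw [hx, div_le_div_iff₀ hn0 two_pos]
    linarith
  have hsx : (s : ℝ) = x * n := by rw [hx, div_mul_cancel₀ _ hn0.ne']
  have c1 : ((n - s : ℕ) : ℝ) = (1 - x) * n := by
    rw [Nat.cast_sub (by omega), hsx]
    ring
  have c2 : ((n - 2 * s : ℕ) : ℝ) = (1 - 2 * x) * n := by
    rw [Nat.cast_sub h2s, Nat.cast_mul, hsx]
    push_cast
    ring
  set μ : ℝ := ((m : ℝ) + 1) * (1 - x) ^ m with hμ
  have h1x : 0 < 1 - x := by linarith
  have hμ0 : 0 < μ := mul_pos (by positivity) (pow_pos h1x _)
  have hlcard : ∀ f : ι → V,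
      ((univ.filter fun v : ι => ∀ u, u ≠ v → ¬ r (f u) (f v)).card : ℝ) = l f := by
    intro f
    simp only [l, I]
    rw [Finset.sum_boole]
  have hcardf : (Fintype.card (ι → V) : ℝ) = (n : ℝ) ^ (m + 1) := by
    rw [Fintype.card_fun, hm]
    push_cast
    rfl
  -- first moment
  have m1 : ∑ f, l f = μ * (n : ℝ) ^ (m + 1) := by
    simp only [l]
    rw [Finset.sum_comm]
    have h3 : ∀ v : ι, ∑ f, I f v = (n : ℝ) * ((1 - x) * n) ^ m := by
      intro v
      simp only [I]
      rw [Finset.sum_boole, count1 hr hs hm v]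
      push_cast
      rw [← c1]
    rw [Finset.sum_congr rfl fun v _ => h3 v, Finset.sum_const, Finset.card_univ, hm, nsmul_eq_mul,
      mul_pow]
    push_cast
    rw [hμ]
    ring
  -- second moment
  have m2 : ∑ f, l f ^ 2 ≤ (μ + μ ^ 2 / (1 - x)) * (n : ℝ) ^ (m + 1) := by
    have h3 : ∑ f, l f ^ 2 = ∑ v, ∑ w, ∑ f, I f v * I f w := by
      have h4 : ∀ f, l f ^ 2 = ∑ v, ∑ w, I f v * I f w := by
        intro f
        rw [sq]
        simp only [l]
        rw [Finset.sum_mul_sum]
      rw [Finset.sum_congr rfl fun f _ => h4 f, Finset.sum_comm]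
      exact Finset.sum_congr rfl fun v _ => Finset.sum_comm
    have hsame : ∀ v, ∑ f, I f v * I f v = (n : ℝ) * ((1 - x) * n) ^ m := by
      intro v
      have h4 : ∀ f, I f v * I f v = I f v := by
        intro f
        simp only [I]
        split_ifs <;> norm_num
      rw [Finset.sum_congr rfl fun f _ => h4 f]
      simp only [I]
      rw [Finset.sum_boole, count1 hr hs hm v]
      push_cast
      rw [← c1]
    have hdiff : ∀ v w, v ≠ w → ∑ f, I f v * I f w ≤
        (n : ℝ) ^ (m + 1) * ((1 - x) ^ (2 * m) / (1 - x)) := by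
      intro v w hvw
      have h4 : ∀ f, I f v * I f w = if ((∀ u, u ≠ v → ¬ r (f u) (f v)) ∧
          ∀ u, u ≠ w → ¬ r (f u) (f w)) then 1 else 0 := by
        intro f
        simp only [I]
        by_cases ha : ∀ u, u ≠ v → ¬ r (f u) (f v)
        · by_cases hb : ∀ u, u ≠ w → ¬ r (f u) (f w)
          · rw [if_pos ha, if_pos hb, if_pos ⟨ha, hb⟩, one_mul]
          · rw [if_neg hb, mul_zero, if_neg fun h => hb h.2]
        · rw [if_neg ha, zero_mul, if_neg fun h => ha h.1]
      rw [Finset.sum_congr rfl fun f _ => h4 f, Finset.sum_boole]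
      obtain ⟨k, rfl⟩ : ∃ k, m = k + 1 := by
        rcases m with _ | k
        · exfalso
          have h5 : Fintype.card ι ≤ 1 := by omega
          exact hvw (Fintype.card_le_one_iff.1 h5 v w)
        · exact ⟨k, rfl⟩
      have h5 := count2 hr hs (by omega : Fintype.card ι = k + 2) hvw
      have h6 : ((univ.filter fun f : ι → V => (∀ u, u ≠ v → ¬ r (f u) (f v)) ∧
          ∀ u, u ≠ w → ¬ r (f u) (f w)).card : ℝ) ≤
          ((n * (n - s) * (n - 2 * s) ^ k : ℕ) : ℝ) := by exact_mod_cast h5
      refine h6.trans ?_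
      rw [Nat.cast_mul, Nat.cast_mul, Nat.cast_pow, c1, c2]
      have h7 : (1 - 2 * x) ^ k ≤ ((1 - x) ^ 2) ^ k := by
        refine pow_le_pow_left₀ (by linarith) ?_ k
        nlinarith [sq_nonneg x]
      have h8 : (1 - x) ^ (2 * (k + 1)) / (1 - x) = (1 - x) * ((1 - x) ^ 2) ^ k := by
        rw [div_eq_iff h1x.ne', ← pow_mul]
        ring
      rw [h8]
      have h9 : (n : ℝ) * ((1 - x) * n) * ((1 - 2 * x) * n) ^ k =
          (n : ℝ) ^ (k + 1 + 1) * ((1 - x) * (1 - 2 * x) ^ k) := by
        rw [mul_pow]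
        ring
      rw [h9]
      gcongr
    rw [h3]
    have h10 : ∀ v, ∑ w, ∑ f, I f v * I f w ≤ (n : ℝ) * ((1 - x) * n) ^ m +
        m * ((n : ℝ) ^ (m + 1) * ((1 - x) ^ (2 * m) / (1 - x))) := by
      intro v
      rw [← Finset.add_sum_erase univ _ (mem_univ v), hsame v]
      have h11 : ∑ w ∈ univ.erase v, ∑ f, I f v * I f w ≤
          (univ.erase v).card • ((n : ℝ) ^ (m + 1) * ((1 - x) ^ (2 * m) / (1 - x))) :=
        Finset.sum_le_card_nsmul _ _ _ fun w hw => hdiff v w (Finset.ne_of_mem_erase hw).symm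
      rw [Finset.card_erase_of_mem (mem_univ v), Finset.card_univ, hm, Nat.add_sub_cancel,
        nsmul_eq_mul] at h11
      linarith
    refine (Finset.sum_le_card_nsmul univ _ _ fun v _ => h10 v).trans ?_
    rw [Finset.card_univ, hm, nsmul_eq_mul]
    have hA : 0 ≤ (n : ℝ) ^ (m + 1) * ((1 - x) ^ (2 * m) / (1 - x)) := by positivity
    have h12 : (μ + μ ^ 2 / (1 - x)) * (n : ℝ) ^ (m + 1) =
        ((m : ℝ) + 1) * ((n : ℝ) * ((1 - x) * n) ^ m) +
        ((m : ℝ) + 1) * ((m : ℝ) + 1) * ((n : ℝ) ^ (m + 1) * ((1 - x) ^ (2 * m) / (1 - x))) := by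
      rw [hμ, mul_pow ((m : ℝ) + 1), ← pow_mul, mul_comm m 2, mul_pow (1 - x)]
      ring
    rw [h12]
    push_cast
    nlinarith [mul_nonneg (by positivity : (0 : ℝ) ≤ (m : ℝ) + 1) hA]
  -- variance
  have var : ∑ f, (l f - μ) ^ 2 ≤ (μ + μ ^ 2 * (x / (1 - x))) * (n : ℝ) ^ (m + 1) := by
    have h3 : ∑ f, (l f - μ) ^ 2 = ∑ f, l f ^ 2 - 2 * μ * ∑ f, l f +
        μ ^ 2 * (n : ℝ) ^ (m + 1) := by
      rw [← hcardf, Finset.mul_sum, ← Finset.sum_sub_distrib]
      have h4 : μ ^ 2 * (Fintype.card (ι → V) : ℝ) = ∑ _f : ι → V, μ ^ 2 := by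
        rw [Finset.sum_const, Finset.card_univ, nsmul_eq_mul, mul_comm]
      rw [h4, ← Finset.sum_add_distrib]
      exact Finset.sum_congr rfl fun f _ => by ring
    rw [h3, m1]
    have h5 : μ ^ 2 * (x / (1 - x)) = μ ^ 2 / (1 - x) - μ ^ 2 := by
      field_simp
      ring
    rw [h5]
    nlinarith
  -- Chebyshev
  have hcheb : ((univ.filter fun f : ι → V => l f < (1 - ε) * μ).card : ℝ) * (ε * μ) ^ 2 ≤
      ∑ f, (l f - μ) ^ 2 := by
    rw [← nsmul_eq_mul]
    refine (Finset.card_nsmul_le_sum _ (fun f => (l f - μ) ^ 2) _ fun f hf => ?_).trans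
      (Finset.sum_le_sum_of_subset_of_nonneg (Finset.filter_subset _ _)
        fun _ _ _ => sq_nonneg _)
    have h3 := (Finset.mem_filter.1 hf).2
    have h4 : 0 < ε * μ := mul_pos hε hμ0
    have h5 : ε * μ ≤ μ - l f := by linarith
    calc (ε * μ) ^ 2 ≤ (μ - l f) ^ 2 := pow_le_pow_left₀ h4.le h5 2
      _ = (l f - μ) ^ 2 := by ring
  have hfil : (univ.filter fun f : ι → V =>
      ((univ.filter fun v : ι => ∀ u, u ≠ v → ¬ r (f u) (f v)).card : ℝ) < (1 - ε) * μ) =
      univ.filter fun f : ι → V => l f < (1 - ε) * μ :=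
    Finset.filter_congr fun f _ => by rw [hlcard f]
  rw [hfil]
  have hεμ : 0 < (ε * μ) ^ 2 := by positivity
  have hfin : ((univ.filter fun f : ι → V => l f < (1 - ε) * μ).card : ℝ) ≤
      ((μ + μ ^ 2 * (x / (1 - x))) * (n : ℝ) ^ (m + 1)) / (ε * μ) ^ 2 := by
    rw [le_div_iff₀ hεμ]
    exact hcheb.trans var
  refine hfin.trans (le_of_eq ?_)
  have h6 : (s : ℝ) / (((n : ℝ) - s) * ε ^ 2) = (x / (1 - x)) / ε ^ 2 := by
    rw [hsx]
    field_simp
  rw [h6]
  field_simp

end Pool.Agent.TH589.DC
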