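import Mathlib
import Pool.Agent.TH589.DC.Stmts

/-! Numerical constants (job 1439, by helper209 for helper589). -/

set_option autoImplicit false

open Finset Filter

namespace Pool.Agent.TH589.DC

open Pool.Agent.H369R2.TD

theorem exp415_up : Real.exp (83 / 20) < 634341 / 10000 := by
  have h1 : Real.exp (83 / 20) ^ 20 = Real.exp 1 ^ 83 := by
    rw [← Real.exp_nat_mul, ← Real.exp_nat_mul]; norm_num
  have h2 := Real.exp_one_lt_d9
  refine lt_of_pow_lt_pow_left₀ 20 (by norm_num) ?_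
  rw [h1]
  calc Real.exp 1 ^ 83 < 2.7182818286 ^ 83 := by gcongr
    _ < _ := by norm_num

theorem exp415_lo : 634339 / 10000 < Real.exp (83 / 20) := by
  have h1 : Real.exp (83 / 20) ^ 20 = Real.exp 1 ^ 83 := by
    rw [← Real.exp_nat_mul, ← Real.exp_nat_mul]; norm_num
  have h2 := Real.exp_one_gt_d9
  refine lt_of_pow_lt_pow_left₀ 20 (Real.exp_pos _).le ?_
  rw [h1]
  calc (634339 / 10000 : ℝ) ^ 20 < 2.7182818283 ^ 83 := by norm_num
    _ < _ := by gcongr

theorem exp73_up : Real.exp (73 / 10) < 14803 / 10 := by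
  have h1 : Real.exp (73 / 10) ^ 10 = Real.exp 1 ^ 73 := by
    rw [← Real.exp_nat_mul, ← Real.exp_nat_mul]; norm_num
  have h2 := Real.exp_one_lt_d9
  refine lt_of_pow_lt_pow_left₀ 10 (by norm_num) ?_
  rw [h1]
  calc Real.exp 1 ^ 73 < 2.7182818286 ^ 73 := by gcongr
    _ < _ := by norm_num

theorem exp73_lo : 148029 / 100 < Real.exp (73 / 10) := by
  have h1 : Real.exp (73 / 10) ^ 10 = Real.exp 1 ^ 73 := by
    rw [← Real.exp_nat_mul, ← Real.exp_nat_mul]; norm_num
  have h2 := Real.exp_one_gt_d9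
  refine lt_of_pow_lt_pow_left₀ 10 (Real.exp_pos _).le ?_
  rw [h1]
  calc (148029 / 100 : ℝ) ^ 10 < 2.7182818283 ^ 73 := by norm_num
    _ < _ := by gcongr

theorem num1 : Real.exp (-(83 / 20)) * Psi 16 cc (4019 / 1000) (41501 / 10000)
    ≤ 16878 / 10000 := by
  have hE : (0 : ℝ) < Real.exp (-(83 / 20)) := Real.exp_pos _
  have hlow : (10000 : ℝ) / 634341 ≤ Real.exp (-(83 / 20)) := by
    rw [Real.exp_neg, ← one_div, div_le_div_iff₀ (by norm_num) (Real.exp_pos _)]
    have := exp415_up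
    linarith
  have hx : Real.exp (-(83 / 20)) * Real.exp (41501 / 10000) = Real.exp (1 / 10000) := by
    rw [← Real.exp_add]; norm_num
  have hS : ∑ j ∈ range 16, (cc j - 4019 / 1000) * ((41501 / 10000 : ℝ) ^ j / (j.factorial : ℝ))
      ≤ - (147913 / 1000) := by
    simp only [Finset.sum_range_succ, Finset.sum_range_zero, cc, dl]
    norm_num [Nat.factorial]
  rw [Psi, mul_add]
  have h1 : Real.exp (-(83 / 20)) * (4019 / 1000 * Real.exp (41501 / 10000))
      = 4019 / 1000 * Real.exp (1 / 10000) := by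
    rw [← hx]; ring
  rw [h1]
  have h2 := exp_small
  have h3 : Real.exp (-(83 / 20)) * ∑ j ∈ range 16, (cc j - 4019 / 1000) *
      ((41501 / 10000 : ℝ) ^ j / (j.factorial : ℝ))
      ≤ (10000 : ℝ) / 634341 * (- (147913 / 1000)) := by
    nlinarith
  linarith

theorem num4 : Real.exp (-(73 / 10)) * Psi 16 cc (4019 / 1000) (73001 / 10000)
    ≤ 20816 / 10000 := by
  have hE : (0 : ℝ) < Real.exp (-(73 / 10)) := Real.exp_pos _
  have hlow : (10 : ℝ) / 14803 ≤ Real.exp (-(73 / 10)) := by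
    rw [Real.exp_neg, ← one_div, div_le_div_iff₀ (by norm_num) (Real.exp_pos _)]
    have := exp73_up
    linarith
  have hx : Real.exp (-(73 / 10)) * Real.exp (73001 / 10000) = Real.exp (1 / 10000) := by
    rw [← Real.exp_add]; norm_num
  have hS : ∑ j ∈ range 16, (cc j - 4019 / 1000) * ((73001 / 10000 : ℝ) ^ j / (j.factorial : ℝ))
      ≤ - (28690 / 10) := by
    simp only [Finset.sum_range_succ, Finset.sum_range_zero, cc, dl]
    norm_num [Nat.factorial]
  rw [Psi, mul_add]
  have h1 : Real.exp (-(73 / 10)) * (4019 / 1000 * Real.exp (73001 / 10000))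
      = 4019 / 1000 * Real.exp (1 / 10000) := by
    rw [← hx]; ring
  rw [h1]
  have h2 := exp_small
  have h3 : Real.exp (-(73 / 10)) * ∑ j ∈ range 16, (cc j - 4019 / 1000) *
      ((73001 / 10000 : ℝ) ^ j / (j.factorial : ℝ))
      ≤ (10 : ℝ) / 14803 * (- (28690 / 10)) := by
    nlinarith
  linarith

theorem num2 : Real.exp (-(83 / 20)) ≤ 15765 / 1000000 := by
  rw [Real.exp_neg, ← one_div, div_le_div_iff₀ (Real.exp_pos _) (by norm_num)]
  have := exp415_lo
  linarith

theorem num5 : Real.exp (-(73 / 10)) ≤ 6756 / 10000000 := by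
  rw [Real.exp_neg, ← one_div, div_le_div_iff₀ (Real.exp_pos _) (by norm_num)]
  have := exp73_lo
  linarith

theorem num3 : Real.exp (-(83 / 20 + 11 / 2)) ≤ 6443 / 100000000 := by
  have hP : Real.exp (-(11 / 2)) ≤ 40868 / 10000000 := by
    rw [Real.exp_neg, ← one_div, div_le_div_iff₀ (Real.exp_pos _) (by norm_num)]
    have := exp_lo
    linarith
  have h2 := num2
  rw [show (-(83 / 20 + 11 / 2) : ℝ) = -(83 / 20) + -(11 / 2) by ring, Real.exp_add]
  calc Real.exp (-(83 / 20)) * Real.exp (-(11 / 2)) ≤ 15765 / 1000000 * (40868 / 10000000) := by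
        gcongr
    _ ≤ _ := by norm_num

theorem num_thm : S_NUM := ⟨num1, num2, num3, num4, num5⟩

end Pool.Agent.TH589.DC
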