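import Pool.Agent.TH589.DC.Stmts

/-!
# Count of column functions, reduction by one row at a lone vertex (job DC-SUPP, helper367)
-/

set_option autoImplicit false

open Finset

namespace Pool.Agent.TH589.DC

theorem supp_thm_zero {R : Type} [Zero R] [DecidableEq R] {n : ℕ} {e : Finset (Fin n)}
    {α : Fin n → R} (h : ∀ v, v ∉ e → α v = 0) (v : Fin n) :
    v ∈ e \ (e \ csupp α) ↔ α v ≠ 0 := by
  unfold csupp
  rw [Finset.mem_sdiff, Finset.mem_sdiff, Finset.mem_filter]
  constructor
  · rintro ⟨h1, h2⟩ h3
    exact h2 ⟨h1, fun h4 => h4.2 h3⟩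
  · intro h1
    refine ⟨?_, fun h2 => h2.2 ⟨Finset.mem_univ _, h1⟩⟩
    by_contra h3
    exact h1 (h v h3)

theorem supp_thm : S_SUPP := by
  intro R _ _ _ n m e
  classical
  have h1 : (univ.filter fun α : Fin n → R => (∀ v, v ∉ e → α v = 0) ∧
        (e \ csupp α).card = m) =
      (e.powersetCard m).biUnion fun Z =>
        Fintype.piFinset fun v => if v ∈ e \ Z then univ.filter (fun x : R => x ≠ 0) else {0} := by
    ext α
    rw [Finset.mem_filter, Finset.mem_biUnion]
    constructor
    · rintro ⟨-, h2, h3⟩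
      refine ⟨e \ csupp α, ?_, ?_⟩
      · rw [Finset.mem_powersetCard]
        exact ⟨Finset.sdiff_subset, h3⟩
      · rw [Fintype.mem_piFinset]
        intro v
        have h4 := supp_thm_zero h2 v
        by_cases h5 : v ∈ e \ (e \ csupp α)
        · rw [if_pos h5, Finset.mem_filter]
          exact ⟨Finset.mem_univ _, h4.1 h5⟩
        · rw [if_neg h5, Finset.mem_singleton]
          by_contra h6
          exact h5 (h4.2 h6)
    · rintro ⟨Z, hZ, h2⟩
      rw [Finset.mem_powersetCard] at hZ
      rw [Fintype.mem_piFinset] at h2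
      have h3 : ∀ v, v ∈ e \ Z ↔ α v ≠ 0 := by
        intro v
        have h4 := h2 v
        by_cases h5 : v ∈ e \ Z
        · rw [if_pos h5, Finset.mem_filter] at h4
          exact ⟨fun _ => h4.2, fun _ => h5⟩
        · rw [if_neg h5, Finset.mem_singleton] at h4
          exact ⟨fun h => absurd h h5, fun h => absurd h4 h⟩
      refine ⟨Finset.mem_univ _, ?_, ?_⟩
      · intro v hv
        by_contra h4
        exact hv (Finset.mem_sdiff.1 ((h3 v).2 h4)).1
      · rw [← hZ.2]
        congr 1
        ext v
        unfold csupp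
        rw [Finset.mem_sdiff, Finset.mem_filter]
        constructor
        · rintro ⟨h4, h5⟩
          by_contra h6
          exact h5 ⟨Finset.mem_univ _, (h3 v).1 (Finset.mem_sdiff.2 ⟨h4, h6⟩)⟩
        · intro h4
          refine ⟨hZ.1 h4, ?_⟩
          rintro ⟨-, h5⟩
          exact (Finset.mem_sdiff.1 ((h3 v).2 h5)).2 h4
  rw [h1, Finset.card_biUnion]
  · have h2 : ∀ Z ∈ e.powersetCard m, (Fintype.piFinset fun v : Fin n =>
        if v ∈ e \ Z then univ.filter (fun x : R => x ≠ 0) else {0}).card =
        (Fintype.card R - 1) ^ (e.card - m) := by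
      intro Z hZ
      rw [Finset.mem_powersetCard] at hZ
      rw [Fintype.card_piFinset]
      have h3 : ∀ v : Fin n, (if v ∈ e \ Z then univ.filter (fun x : R => x ≠ 0)
          else ({0} : Finset R)).card = if v ∈ e \ Z then Fintype.card R - 1 else 1 := by
        intro v
        split_ifs
        · rw [Finset.filter_ne', Finset.card_erase_of_mem (Finset.mem_univ _), Finset.card_univ]
        · rw [Finset.card_singleton]
      rw [Finset.prod_congr rfl fun v _ => h3 v, Finset.prod_ite, Finset.prod_const,
        Finset.prod_const_one, mul_one]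
      congr 1
      rw [Finset.filter_mem_eq_inter, Finset.univ_inter, Finset.card_sdiff_of_subset hZ.1, hZ.2]
    rw [Finset.sum_congr rfl h2, Finset.sum_const, Finset.card_powersetCard, smul_eq_mul]
  · intro Z hZ Z' hZ' hne
    rw [Finset.mem_coe, Finset.mem_powersetCard] at hZ hZ'
    rw [Function.onFun, Finset.disjoint_left]
    intro α h2 h3
    apply hne
    rw [Fintype.mem_piFinset] at h2 h3
    have h4 : ∀ (W : Finset (Fin n)), (∀ v, α v ∈ if v ∈ e \ W then
        univ.filter (fun x : R => x ≠ 0) else ({0} : Finset R)) →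
        ∀ v, v ∈ e \ W ↔ α v ≠ 0 := by
      intro W h v
      have h4 := h v
      by_cases h5 : v ∈ e \ W
      · rw [if_pos h5, Finset.mem_filter] at h4
        exact ⟨fun _ => h4.2, fun _ => h5⟩
      · rw [if_neg h5, Finset.mem_singleton] at h4
        exact ⟨fun h => absurd h h5, fun h => absurd h4 h⟩
    have h5 : e \ Z = e \ Z' := by
      ext v
      rw [h4 Z h2 v, h4 Z' h3 v]
    calc Z = e \ (e \ Z) := (Finset.sdiff_sdiff_eq_self hZ.1).symm
      _ = e \ (e \ Z') := by rw [h5]
      _ = Z' := Finset.sdiff_sdiff_eq_self hZ'.1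

theorem red_thm : S_RED := by
  intro F _ _ _ n k Y M v hM hY hv
  classical
  unfold lone at hv
  rw [Finset.mem_filter] at hv
  obtain ⟨hvY, hlone⟩ := hv
  have hmem : ∀ u, u ∈ Y ↔ M u ≠ 0 := by
    intro u
    rw [← hY]
    unfold csupp
    rw [Finset.mem_filter]
    exact ⟨fun h => h.2, fun h => ⟨Finset.mem_univ _, h⟩⟩
  obtain ⟨i0, hi0⟩ : ∃ i, M v i ≠ 0 := by
    by_contra h
    push Not at h
    exact (hmem v).1 hvY (funext h)
  have hM'v : (fun j : Fin k => M v (i0.succAbove j) -
      (M v (i0.succAbove j) / M v i0) * M v i0) = 0 := by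
    funext j
    rw [div_mul_cancel₀ _ hi0, sub_self, Pi.zero_apply]
  refine ⟨fun u j => M u (i0.succAbove j) - (M v (i0.succAbove j) / M v i0) * M u i0, ?_, ?_, ?_⟩
  · rw [Fintype.linearIndependent_iff] at hM ⊢
    intro g hg
    have h1 := hM (Fin.insertNth i0 (-∑ j, g j * (M v (i0.succAbove j) / M v i0)) g) (by
      funext u
      have h2 := congrFun hg u
      simp only [Finset.sum_apply, Pi.smul_apply, smul_eq_mul, Pi.zero_apply] at h2 ⊢
      rw [Fin.sum_univ_succAbove _ i0]
      simp only [Fin.insertNth_apply_same, Fin.insertNth_apply_succAbove]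
      rw [← h2, neg_mul, Finset.sum_mul, neg_add_eq_sub, ← Finset.sum_sub_distrib]
      refine Finset.sum_congr rfl fun j _ => ?_
      ring)
    intro j
    have h2 := h1 (i0.succAbove j)
    rwa [Fin.insertNth_apply_succAbove] at h2
  · ext u
    unfold csupp
    rw [Finset.mem_filter, Finset.mem_erase]
    constructor
    · rintro ⟨-, h1⟩
      refine ⟨?_, ?_⟩
      · rintro rfl
        exact h1 hM'v
      · rw [hmem]
        intro h2
        apply h1
        funext j
        change M u (i0.succAbove j) - M v (i0.succAbove j) / M v i0 * M u i0 = 0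
        rw [h2]
        simp
    · rintro ⟨h1, h2⟩
      refine ⟨Finset.mem_univ _, fun h3 => ?_⟩
      apply hlone u h2 h1 (M u i0 / M v i0)
      funext i
      rw [Pi.smul_apply, smul_eq_mul]
      rcases Fin.eq_self_or_eq_succAbove i0 i with rfl | ⟨j, rfl⟩
      · rw [div_mul_cancel₀ _ hi0]
      · have h4 := congrFun h3 j
        simp only [Pi.zero_apply] at h4
        rw [sub_eq_zero] at h4
        rw [h4]
        ring
  · intro D ξ h i
    have h1 : ∀ u, (M u (i0.succAbove i) - (M v (i0.succAbove i) / M v i0) * M u i0) • ξ u =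
        M u (i0.succAbove i) • ξ u - (M v (i0.succAbove i) / M v i0) • (M u i0 • ξ u) := by
      intro u
      rw [sub_smul, mul_smul]
    rw [Finset.sum_congr rfl fun u _ => h1 u, Finset.sum_sub_distrib, ← Finset.smul_sum, h, h,
      smul_zero, sub_zero]

end Pool.Agent.TH589.DC
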