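import Mathlib
import Pool.Agent.TH589.DC.Stmts

/-! Codes in a window give Turán systems in a window (job 1437, by helper209 for helper589; the
proof follows `asymptotic` in `Pool/Agent/H369R2/TD/Asy.lean`). -/

set_option autoImplicit false

open Finset Filter

namespace Pool.Agent.TH589.DC

open Pool.Agent.H369R2.TD

theorem wt_thm : S_WT := by
  intro q y x y₃ x₃ D₁ D₂ P₁ P₂ lam V hq hy hyx hy3 hyx3 hl0 hl1 hD10 hP10 hP1' hP2' hD2 hP2 hV hlow
  set W := D₁ / (lam * (1 - P₂)) + D₂ * P₁ / ((1 - lam) * (1 - P₁)) with hW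
  obtain ⟨η, hη, hηV⟩ : ∃ η : ℝ, 0 < η ∧ (1 + η) ^ 2 * W < V := by
    have hcont : Tendsto (fun η : ℝ => (1 + η) ^ 2 * W) (nhdsWithin 0 (Set.Ioi 0))
        (nhds ((1 + 0) ^ 2 * W)) := by
      apply Tendsto.mono_left _ nhdsWithin_le_nhds
      exact (Continuous.tendsto (f := fun η : ℝ => (1 + η) ^ 2 * W) (by fun_prop) 0)
    have h1 : (1 + (0 : ℝ)) ^ 2 * W < V := by simpa using hV
    have h2 := (hcont.eventually_lt_const h1).and self_mem_nhdsWithin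
    obtain ⟨η, h3, h4⟩ := h2.exists
    exact ⟨η, h4, h3⟩
  obtain ⟨hD20, e2⟩ := one_part (δ := dl) (c := cc) (J := 16) (K := 4019 / 1000) tur_dl dl_nonneg rfl
    (fun m _ => le_refl _) dl_le (by norm_num) hy3 hyx3 hη hD2 hP2
  obtain ⟨N2, hN2⟩ := eventually_atTop.1 e2
  have hP20 : 0 < P₂ := (Real.exp_pos _).trans_le hP2
  have h1l : 0 < 1 - lam := by linarith
  have hx : 0 < x := hy.trans hyx
  have hq2 : (2 : ℝ) ≤ q := by exact_mod_cast hq
  have hlim : Tendsto (fun K : ℕ => (q : ℝ) ^ K) atTop atTop :=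
    tendsto_pow_atTop_atTop_of_one_lt (by linarith)
  set z : ℝ := (y + x) / (2 * lam) with hz
  have hz0 : 0 < z := by positivity
  have hlz : lam * z = (y + x) / 2 := by rw [hz]; field_simp
  refine ⟨z, (x - y) / (x + y), hz0, div_pos (by linarith) (by linarith), ?_⟩
  have hlz2 : lam * (z * (1 + (x - y) / (x + y))) = x := by
    rw [← mul_assoc, hlz]; field_simp; ring
  filter_upwards [hlow, hlim.eventually_ge_atTop (4 / (x - y)),
    hlim.eventually_ge_atTop (((N2 : ℝ) + 1) / ((1 - lam) * z)),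
    hlim.eventually_ge_atTop ((1 + η) / (η * (lam * z))),
    hlim.eventually_ge_atTop (1 / (lam * z))] with K g0 k1 k2 k3 k4 m hm1 hm2
  set Q : ℝ := (q : ℝ) ^ K with hQ
  have hQ0 : 0 < Q := lt_of_lt_of_le (by positivity) k4
  rw [div_le_iff₀ (by linarith)] at k1
  rw [div_le_iff₀ (by positivity)] at k2 k3 k4
  have hm0 : (0 : ℝ) < (m : ℝ) + 1 := by positivity
  obtain ⟨h, hh⟩ : ∃ h : ℕ, h = ⌊lam * ((m : ℝ) + 1)⌋₊ := ⟨_, rfl⟩
  have hle : (h : ℝ) ≤ lam * ((m : ℝ) + 1) := by rw [hh]; exact Nat.floor_le (by positivity)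
  have hge : lam * ((m : ℝ) + 1) < (h : ℝ) + 1 := by rw [hh]; exact Nat.lt_floor_add_one _
  have hlm : lam * z * Q ≤ lam * ((m : ℝ) + 1) := by
    have := mul_le_mul_of_nonneg_left hm1 hl0.le
    linarith
  have f3 : 1 ≤ h := by
    rw [hh]
    apply Nat.le_floor
    push_cast
    linarith
  have hlm2 : (1 - lam) * z * Q ≤ (1 - lam) * ((m : ℝ) + 1) := by
    have := mul_le_mul_of_nonneg_left hm1 h1l.le
    linarith
  have hmh : (N2 : ℝ) + h ≤ m := by linarith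
  have hmh' : N2 + h ≤ m := by exact_mod_cast hmh
  have hhr : h ≤ m := by omega
  have c1 : (((h - 1 : ℕ) : ℝ) + 1) = (h : ℝ) := by
    rw [Nat.cast_sub f3]; simp
  have c2 : (((m - h : ℕ) : ℝ) + 1) = (m : ℝ) + 1 - (h : ℝ) := by
    rw [Nat.cast_sub hhr]; ring
  obtain ⟨a₁, Φ₁, g1, ga1, gp1, gP1, gD1⟩ := g0 (h - 1)
    (by
      have : ((h - 1 : ℕ) : ℝ) = (h : ℝ) - 1 := by linarith
      rw [this]
      rw [hlz] at hlm
      linarith)
    (by
      rw [c1]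
      refine hle.trans ?_
      calc lam * ((m : ℝ) + 1) ≤ lam * (z * (1 + (x - y) / (x + y)) * Q) := by gcongr
        _ = lam * (z * (1 + (x - y) / (x + y))) * Q := by ring
        _ = x * Q := by rw [hlz2])
  obtain ⟨a₂, Φ₂, g2, ga2, gp2, gP2, gD2⟩ := hN2 (m - h) (by omega)
  have hr : (h - 1) + (m - h) + 1 = m := by omega
  rw [c1] at gD1
  rw [c2] at gD2
  have hh0 : (0 : ℝ) < (h : ℝ) := by exact_mod_cast f3
  have hh1 : (0 : ℝ) < (m : ℝ) + 1 - (h : ℝ) := by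
    have : (h : ℝ) ≤ m := by exact_mod_cast hhr
    linarith
  have r1 : ((m : ℝ) + 1) * lam ≤ (1 + η) * h := by
    have h7 : (1 + η) ≤ ((m : ℝ) + 1) * (η * lam) := by
      have := mul_le_mul_of_nonneg_left hlm hη.le
      linarith
    have h8 := mul_le_mul_of_nonneg_left hge.le (by linarith : (0 : ℝ) ≤ 1 + η)
    linarith
  have r2 : ((m : ℝ) + 1) * (1 - lam) ≤ (1 + η) * ((m : ℝ) + 1 - h) := by
    have h8 := mul_nonneg hη.le hh1.le
    linarith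
  have b1 : ((m : ℝ) + 1) * a₁ ≤ (1 + η) ^ 2 * D₁ / lam := by
    rw [le_div_iff₀ hl0]
    calc ((m : ℝ) + 1) * a₁ * lam = (((m : ℝ) + 1) * lam) * a₁ := by ring
      _ ≤ ((1 + η) * h) * a₁ := mul_le_mul_of_nonneg_right r1 ga1
      _ = (1 + η) * ((h : ℝ) * a₁) := by ring
      _ ≤ (1 + η) * D₁ := mul_le_mul_of_nonneg_left gD1 (by positivity)
      _ ≤ (1 + η) ^ 2 * D₁ := by
          have h8 := mul_nonneg hη.le hD10
          have h9 := mul_nonneg (sq_nonneg η) hD10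
          linarith
  have b2 : ((m : ℝ) + 1) * a₂ ≤ (1 + η) ^ 2 * D₂ / (1 - lam) := by
    rw [le_div_iff₀ h1l]
    calc ((m : ℝ) + 1) * a₂ * (1 - lam) = (((m : ℝ) + 1) * (1 - lam)) * a₂ := by ring
      _ ≤ ((1 + η) * ((m : ℝ) + 1 - h)) * a₂ := mul_le_mul_of_nonneg_right r2 ga2
      _ = (1 + η) * (((m : ℝ) + 1 - h) * a₂) := by ring
      _ ≤ (1 + η) * ((1 + η) * D₂) := mul_le_mul_of_nonneg_left gD2 (by positivity)
      _ = (1 + η) ^ 2 * D₂ := by ring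
  have hε : 0 < (V - (1 + η) ^ 2 * W) / ((m : ℝ) + 1) := div_pos (by linarith) hm0
  have hT := two_part g1 g2 ga1 ga2 gp1 (gP1.trans_lt hP1') gp2 (gP2.trans_lt hP2') hε
  rw [hr] at hT
  refine hT.mono ?_
  have p1 : 0 < 1 - P₁ := by linarith
  have p2 : 0 < 1 - P₂ := by linarith
  have q1 : 0 < 1 - Φ₁ := by linarith
  have q2 : 0 < 1 - Φ₂ := by linarith
  rw [le_div_iff₀ hm0]
  have t1 : ((m : ℝ) + 1) * (a₁ / (1 - Φ₂)) ≤ (1 + η) ^ 2 * (D₁ / (lam * (1 - P₂))) := by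
    calc ((m : ℝ) + 1) * (a₁ / (1 - Φ₂)) = (((m : ℝ) + 1) * a₁) / (1 - Φ₂) := by ring
      _ ≤ ((1 + η) ^ 2 * D₁ / lam) / (1 - P₂) := by
          apply div_le_div₀ (by positivity) b1 p2
          linarith
      _ = (1 + η) ^ 2 * (D₁ / (lam * (1 - P₂))) := by
          rw [div_div, mul_div_assoc]
  have t2 : ((m : ℝ) + 1) * (a₂ * Φ₁ / (1 - Φ₁)) ≤
      (1 + η) ^ 2 * (D₂ * P₁ / ((1 - lam) * (1 - P₁))) := by
    calc ((m : ℝ) + 1) * (a₂ * Φ₁ / (1 - Φ₁)) = ((((m : ℝ) + 1) * a₂) * Φ₁) / (1 - Φ₁) := by ring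
      _ ≤ ((1 + η) ^ 2 * D₂ / (1 - lam) * P₁) / (1 - P₁) := by
          apply div_le_div₀ (by positivity) _ p1 (by linarith)
          exact mul_le_mul b2 gP1 gp1.le (by positivity)
      _ = (1 + η) ^ 2 * (D₂ * P₁ / ((1 - lam) * (1 - P₁))) := by
          field_simp
  have t3 : (V - (1 + η) ^ 2 * W) / ((m : ℝ) + 1) * ((m : ℝ) + 1) = V - (1 + η) ^ 2 * W := by
    field_simp
  have t4 : (1 + η) ^ 2 * W = (1 + η) ^ 2 * (D₁ / (lam * (1 - P₂))) +
      (1 + η) ^ 2 * (D₂ * P₁ / ((1 - lam) * (1 - P₁))) := by rw [hW]; ring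
  linarith

end Pool.Agent.TH589.DC
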