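import Pool.Agent.TH589.DC.Code4
import Pool.Agent.TH589.DC.AllR
import Pool.Agent.TH589.DC.ChMu
import Pool.Agent.TH589.DC.Dep
import Pool.Agent.TH589.DC.Gl
import Pool.Agent.TH589.DC.NumC
import Pool.Agent.TH589.DC.Supp
import Pool.Agent.TH589.DC.Wt
import Pool.Agent.TH589.DC.Lone

/-!
# Certified determinant codes (helper589): `t(r+1, r) ≤ 1.808/(r+1)` for all large `r`
-/

set_option autoImplicit false

open Finset

namespace Pool.Agent.TH589.DC

open Pool.Agent.H369R2.TD

open Filter in
theorem tur_1808 : ∀ᶠ r : ℕ in atTop, Tur r ((1808 / 1000) / ((r : ℝ) + 1)) := by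
  obtain ⟨q, hq1, hq⟩ := Nat.exists_infinite_primes 100000
  have hqr : (100000 : ℝ) ≤ (q : ℝ) := by exact_mod_cast hq1
  have hg : ((q : ℝ) - 1) / ((q : ℝ) - 2) ≤ 10001 / 10000 := by
    rw [div_le_div_iff₀ (by linarith) (by norm_num)]
    linarith
  have hg0 : 0 < ((q : ℝ) - 1) / ((q : ℝ) - 2) := by apply div_pos <;> linarith
  obtain ⟨n1, n2, n3, n4, n5⟩ := num_thm
  have hw := window_part glinj_thm glcard_thm dep_thm supp_thm exdep_thm red_thm lone_thm ch_thm
    mu_thm (δ := dl) (c := cc) (J := 16) (Kc := 4019 / 1000) tur_dl dl_nonneg rfl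
    (fun m _ => le_refl _) dl_le (by norm_num) hq (by omega) (y := 83 / 20)
    (x := 41501 / 10000) (x' := 415005 / 100000) (y₂ := 11 / 2) (η := 1 / 10000)
    (D := 16878 / 10000) (by norm_num) (by norm_num) (by norm_num) (by norm_num) (by norm_num) n1
  have hwt := wt_thm q (83 / 20) (415005 / 100000) (73 / 10) (73001 / 10000) (17751 / 10000)
    (20816 / 10000) (6446 / 100000000) (6756 / 10000000) (9913 / 10000) (18075 / 10000)
    (by omega) (by norm_num) (by norm_num) (by norm_num) (by norm_num) (by norm_num)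
    (by norm_num) (by norm_num) (by norm_num) (by norm_num) (by norm_num) n4 n5 (by norm_num)
    (by
      filter_upwards [hw] with K hK d hd1 hd2
      obtain ⟨a, Φ, h1, h2, h3, h4, h5⟩ := hK d hd1 hd2
      refine ⟨a, Φ, h1, h2, h3, h4.trans ?_, h5.trans ?_⟩
      · have hE := (Real.exp_pos (-(83 / 20 + 11 / 2)))
        calc ((q : ℝ) - 1) / ((q : ℝ) - 2) * (1 + 1 / 10000) ^ 2 * Real.exp (-(83 / 20 + 11 / 2))
            ≤ 10001 / 10000 * (1 + 1 / 10000) ^ 2 * (6443 / 100000000) := by
              apply mul_le_mul _ n3 hE.le (by norm_num)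
              apply mul_le_mul_of_nonneg_right hg (by norm_num)
          _ ≤ 6446 / 100000000 := by norm_num
      · have hE := (Real.exp_pos (-(83 / 20)))
        calc ((q : ℝ) - 1) / ((q : ℝ) - 2) * (1 + 1 / 10000) *
              (16878 / 10000 + 11 / 2 * Real.exp (-(83 / 20)))
            ≤ 10001 / 10000 * (1 + 1 / 10000) * (16878 / 10000 + 11 / 2 * (15765 / 1000000)) := by
              apply mul_le_mul _ _ _ (by norm_num)
              · apply mul_le_mul_of_nonneg_right hg (by norm_num)
              · linarith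
              · linarith
          _ ≤ 17751 / 10000 := by norm_num)
  obtain ⟨z, η, hz, hη, hwin⟩ := hwt
  exact allr_thm q z η (18075 / 10000) (1808 / 1000) (by omega) hz hη (by norm_num)
    (by norm_num) (by norm_num) hwin

end Pool.Agent.TH589.DC
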