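import Pool.Agent.TH589.DC.Code4
import Pool.Agent.TH589.DC.AllR
import Pool.Agent.TH589.DC.ChMu
import Pool.Agent.TH589.DC.Dep
import Pool.Agent.TH589.DC.Gl
import Pool.Agent.TH589.DC.Supp
import Pool.Agent.TH589.DC.Lone

/-!
# Certified determinant codes (helper589): the general theorem

`certified`: for any table `δ, c, J, Kc` of Turán systems (as in `H369R2.TD.asymptotic`) and
parameters `y < x`, `y₂`, `lam`, and any bound `V₂` already known for all large sizes: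
if `exp(-y) Psi J c Kc x + y₂ exp(-y) < D₁`, `exp(-(y+y₂)) < P₁` and
`D₁ / lam + V₂ P₁ / ((1 - lam) (1 - P₁)) < V`, then `Tur r (V/(r+1))` for all large `r`.
-/

set_option autoImplicit false

open Finset Filter

namespace Pool.Agent.TH589.DC

open Pool.Agent.H369R2.TD

/-- codes in a window for the low part and any codes for the high part give systems in a window
(the proof is that of `wt_thm` by helper209) -/
theorem wt_gen (q : ℕ) (y x D₁ D₂ P₁ P₂ lam V : ℝ) (hq : 2 ≤ q) (hy : 0 < y) (hyx : y < x)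
    (hl0 : 0 < lam) (hl1 : lam < 1) (hD10 : 0 ≤ D₁) (hP10 : 0 < P₁) (hP1' : P₁ < 1)
    (_hP20 : 0 < P₂) (hP2' : P₂ < 1) (hD20 : 0 ≤ D₂)
    (hhigh : ∀ η : ℝ, 0 < η → ∀ᶠ d : ℕ in atTop, ∃ a Φ : ℝ, (∀ n, Rnd n d a Φ) ∧ 0 ≤ a ∧ 0 < Φ ∧
      Φ ≤ P₂ ∧ ((d : ℝ) + 1) * a ≤ (1 + η) * D₂)
    (hV : D₁ / (lam * (1 - P₂)) + D₂ * P₁ / ((1 - lam) * (1 - P₁)) < V)
    (hlow : ∀ᶠ K : ℕ in atTop, ∀ d : ℕ, y * (q : ℝ) ^ K ≤ d → ((d : ℝ) + 1) ≤ x * (q : ℝ) ^ K →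
      ∃ a Φ : ℝ, (∀ n, Rnd n d a Φ) ∧ 0 ≤ a ∧ 0 < Φ ∧ Φ ≤ P₁ ∧ ((d : ℝ) + 1) * a ≤ D₁) :
    ∃ z η : ℝ, 0 < z ∧ 0 < η ∧ ∀ᶠ K : ℕ in atTop, ∀ m : ℕ, z * (q : ℝ) ^ K ≤ (m : ℝ) + 1 →
      (m : ℝ) + 1 ≤ z * (1 + η) * (q : ℝ) ^ K → Tur m (V / ((m : ℝ) + 1)) := by
  set W := D₁ / (lam * (1 - P₂)) + D₂ * P₁ / ((1 - lam) * (1 - P₁)) with hW
  obtain ⟨η, hη, hηV⟩ : ∃ η : ℝ, 0 < η ∧ (1 + η) ^ 2 * W < V := by
    have hcont : Tendsto (fun η : ℝ => (1 + η) ^ 2 * W) (nhdsWithin 0 (Set.Ioi 0))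
        (nhds ((1 + 0) ^ 2 * W)) := by
      apply Tendsto.mono_left _ nhdsWithin_le_nhds
      exact (Continuous.tendsto (f := fun η : ℝ => (1 + η) ^ 2 * W) (by fun_prop) 0)
    have h1 : (1 + (0 : ℝ)) ^ 2 * W < V := by simpa using hV
    have h2 := (hcont.eventually_lt_const h1).and self_mem_nhdsWithin
    obtain ⟨η, h3, h4⟩ := h2.exists
    exact ⟨η, h4, h3⟩
  have e2 := hhigh η hη
  obtain ⟨N2, hN2⟩ := eventually_atTop.1 e2
  have h1l : 0 < 1 - lam := by linarith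
  have hx : 0 < x := hy.trans hyx
  have hq2 : (2 : ℝ) ≤ q := by exact_mod_cast hq
  have hlim : Tendsto (fun K : ℕ => (q : ℝ) ^ K) atTop atTop :=
    tendsto_pow_atTop_atTop_of_one_lt (by linarith)
  set z : ℝ := (y + x) / (2 * lam) with hz
  have hz0 : 0 < z := by positivity
  have hlz : lam * z = (y + x) / 2 := by rw [hz]; field_simp
  refine ⟨z, (x - y) / (x + y), hz0, div_pos (by linarith) (by linarith), ?_⟩
  have hlz2 : lam * (z * (1 + (x - y) / (x + y))) = x := by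
    rw [← mul_assoc, hlz]; field_simp; ring
  filter_upwards [hlow, hlim.eventually_ge_atTop (4 / (x - y)),
    hlim.eventually_ge_atTop (((N2 : ℝ) + 1) / ((1 - lam) * z)),
    hlim.eventually_ge_atTop ((1 + η) / (η * (lam * z))),
    hlim.eventually_ge_atTop (1 / (lam * z))] with K g0 k1 k2 k3 k4 m hm1 hm2
  set Q : ℝ := (q : ℝ) ^ K with hQ
  have hQ0 : 0 < Q := lt_of_lt_of_le (by positivity) k4
  rw [div_le_iff₀ (by linarith)] at k1
  rw [div_le_iff₀ (by positivity)] at k2 k3 k4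
  have hm0 : (0 : ℝ) < (m : ℝ) + 1 := by positivity
  obtain ⟨h, hh⟩ : ∃ h : ℕ, h = ⌊lam * ((m : ℝ) + 1)⌋₊ := ⟨_, rfl⟩
  have hle : (h : ℝ) ≤ lam * ((m : ℝ) + 1) := by rw [hh]; exact Nat.floor_le (by positivity)
  have hge : lam * ((m : ℝ) + 1) < (h : ℝ) + 1 := by rw [hh]; exact Nat.lt_floor_add_one _
  have hlm : lam * z * Q ≤ lam * ((m : ℝ) + 1) := by
    have := mul_le_mul_of_nonneg_left hm1 hl0.le
    linarith
  have f3 : 1 ≤ h := by
    rw [hh]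
    apply Nat.le_floor
    push_cast
    linarith
  have hlm2 : (1 - lam) * z * Q ≤ (1 - lam) * ((m : ℝ) + 1) := by
    have := mul_le_mul_of_nonneg_left hm1 h1l.le
    linarith
  have hmh : (N2 : ℝ) + h ≤ m := by linarith
  have hmh' : N2 + h ≤ m := by exact_mod_cast hmh
  have hhr : h ≤ m := by omega
  have c1 : (((h - 1 : ℕ) : ℝ) + 1) = (h : ℝ) := by
    rw [Nat.cast_sub f3]; simp
  have c2 : (((m - h : ℕ) : ℝ) + 1) = (m : ℝ) + 1 - (h : ℝ) := by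
    rw [Nat.cast_sub hhr]; ring
  obtain ⟨a₁, Φ₁, g1, ga1, gp1, gP1, gD1⟩ := g0 (h - 1)
    (by
      have : ((h - 1 : ℕ) : ℝ) = (h : ℝ) - 1 := by linarith
      rw [this]
      rw [hlz] at hlm
      linarith)
    (by
      rw [c1]
      refine hle.trans ?_
      calc lam * ((m : ℝ) + 1) ≤ lam * (z * (1 + (x - y) / (x + y)) * Q) := by gcongr
        _ = lam * (z * (1 + (x - y) / (x + y))) * Q := by ring
        _ = x * Q := by rw [hlz2])
  obtain ⟨a₂, Φ₂, g2, ga2, gp2, gP2, gD2⟩ := hN2 (m - h) (by omega)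
  have hr : (h - 1) + (m - h) + 1 = m := by omega
  rw [c1] at gD1
  rw [c2] at gD2
  have hh0 : (0 : ℝ) < (h : ℝ) := by exact_mod_cast f3
  have hh1 : (0 : ℝ) < (m : ℝ) + 1 - (h : ℝ) := by
    have : (h : ℝ) ≤ m := by exact_mod_cast hhr
    linarith
  have r1 : ((m : ℝ) + 1) * lam ≤ (1 + η) * h := by
    have h7 : (1 + η) ≤ ((m : ℝ) + 1) * (η * lam) := by
      have := mul_le_mul_of_nonneg_left hlm hη.le
      linarith
    have h8 := mul_le_mul_of_nonneg_left hge.le (by linarith : (0 : ℝ) ≤ 1 + η)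
    linarith
  have r2 : ((m : ℝ) + 1) * (1 - lam) ≤ (1 + η) * ((m : ℝ) + 1 - h) := by
    have h8 := mul_nonneg hη.le hh1.le
    linarith
  have b1 : ((m : ℝ) + 1) * a₁ ≤ (1 + η) ^ 2 * D₁ / lam := by
    rw [le_div_iff₀ hl0]
    calc ((m : ℝ) + 1) * a₁ * lam = (((m : ℝ) + 1) * lam) * a₁ := by ring
      _ ≤ ((1 + η) * h) * a₁ := mul_le_mul_of_nonneg_right r1 ga1
      _ = (1 + η) * ((h : ℝ) * a₁) := by ring
      _ ≤ (1 + η) * D₁ := mul_le_mul_of_nonneg_left gD1 (by positivity)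
      _ ≤ (1 + η) ^ 2 * D₁ := by
          have h8 := mul_nonneg hη.le hD10
          have h9 := mul_nonneg (sq_nonneg η) hD10
          linarith
  have b2 : ((m : ℝ) + 1) * a₂ ≤ (1 + η) ^ 2 * D₂ / (1 - lam) := by
    rw [le_div_iff₀ h1l]
    calc ((m : ℝ) + 1) * a₂ * (1 - lam) = (((m : ℝ) + 1) * (1 - lam)) * a₂ := by ring
      _ ≤ ((1 + η) * ((m : ℝ) + 1 - h)) * a₂ := mul_le_mul_of_nonneg_right r2 ga2
      _ = (1 + η) * (((m : ℝ) + 1 - h) * a₂) := by ring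
      _ ≤ (1 + η) * ((1 + η) * D₂) := mul_le_mul_of_nonneg_left gD2 (by positivity)
      _ = (1 + η) ^ 2 * D₂ := by ring
  have hε : 0 < (V - (1 + η) ^ 2 * W) / ((m : ℝ) + 1) := div_pos (by linarith) hm0
  have hT := two_part g1 g2 ga1 ga2 gp1 (gP1.trans_lt hP1') gp2 (gP2.trans_lt hP2') hε
  rw [hr] at hT
  refine hT.mono ?_
  have p1 : 0 < 1 - P₁ := by linarith
  have p2 : 0 < 1 - P₂ := by linarith
  have q1 : 0 < 1 - Φ₁ := by linarith
  have q2 : 0 < 1 - Φ₂ := by linarith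
  rw [le_div_iff₀ hm0]
  have t1 : ((m : ℝ) + 1) * (a₁ / (1 - Φ₂)) ≤ (1 + η) ^ 2 * (D₁ / (lam * (1 - P₂))) := by
    calc ((m : ℝ) + 1) * (a₁ / (1 - Φ₂)) = (((m : ℝ) + 1) * a₁) / (1 - Φ₂) := by ring
      _ ≤ ((1 + η) ^ 2 * D₁ / lam) / (1 - P₂) := by
          apply div_le_div₀ (by positivity) b1 p2
          linarith
      _ = (1 + η) ^ 2 * (D₁ / (lam * (1 - P₂))) := by
          rw [div_div, mul_div_assoc]
  have t2 : ((m : ℝ) + 1) * (a₂ * Φ₁ / (1 - Φ₁)) ≤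
      (1 + η) ^ 2 * (D₂ * P₁ / ((1 - lam) * (1 - P₁))) := by
    calc ((m : ℝ) + 1) * (a₂ * Φ₁ / (1 - Φ₁)) = ((((m : ℝ) + 1) * a₂) * Φ₁) / (1 - Φ₁) := by ring
      _ ≤ ((1 + η) ^ 2 * D₂ / (1 - lam) * P₁) / (1 - P₁) := by
          apply div_le_div₀ (by positivity) _ p1 (by linarith)
          exact mul_le_mul b2 gP1 gp1.le (by positivity)
      _ = (1 + η) ^ 2 * (D₂ * P₁ / ((1 - lam) * (1 - P₁))) := by
          field_simp
  have t3 : (V - (1 + η) ^ 2 * W) / ((m : ℝ) + 1) * ((m : ℝ) + 1) = V - (1 + η) ^ 2 * W := by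
    field_simp
  have t4 : (1 + η) ^ 2 * W = (1 + η) ^ 2 * (D₁ / (lam * (1 - P₂))) +
      (1 + η) ^ 2 * (D₂ * P₁ / ((1 - lam) * (1 - P₁))) := by rw [hW]; ring
  linarith


/-- a Turán system, randomly permuted, is a code that never fails -/
theorem rnd_of_tur {d : ℕ} {δ : ℝ} (h : Tur d δ) (n : ℕ) : Rnd n d δ 0 := by
  classical
  obtain ⟨T, h1, h2, h3⟩ := h n
  refine ⟨Equiv.Perm (Fin n), inferInstance, inferInstance,
    fun π => ((univ : Finset (Fin n)).powersetCard d).filter fun Z => Z.map π.toEmbedding ∈ T,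
    ?_, ?_, ?_⟩
  · intro π Z hZ
    rw [mem_filter, mem_powersetCard] at hZ
    exact hZ.1.2
  · intro Z hZ
    have h4 := perm_count T h1 h3 Z hZ
    refine le_trans ?_ h4
    apply Nat.cast_le.2
    apply Finset.card_le_card
    intro π hπ
    rw [mem_filter] at hπ ⊢
    refine ⟨mem_univ _, ?_⟩
    have := hπ.2
    rw [mem_filter] at this
    exact this.2
  · intro Y hY
    rw [zero_mul]
    apply le_of_eq
    rw [Nat.cast_eq_zero, Finset.card_eq_zero, Finset.filter_eq_empty_iff]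
    intro π _
    rw [not_not]
    obtain ⟨W, hW1, hW2⟩ := h2 (Y.map π.toEmbedding) (by rw [Finset.card_map, hY])
    obtain ⟨W', hW'1, hW'2⟩ := Finset.subset_map_iff.mp hW2
    refine ⟨W', ?_, hW'1⟩
    show W' ∈ ((univ : Finset (Fin n)).powersetCard d).filter fun Z => Z.map π.toEmbedding ∈ T
    rw [mem_filter, mem_powersetCard]
    have hc : W'.card = d := by
      have := h1 W hW1
      rw [hW'2, Finset.card_map] at this
      exact this
    exact ⟨⟨subset_univ _, hc⟩, by rw [← hW'2]; exact hW1⟩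

theorem Rnd_mono {n d : ℕ} {a Φ a' Φ' : ℝ} (h : Rnd n d a Φ) (ha : a ≤ a') (hΦ : Φ ≤ Φ') :
    Rnd n d a' Φ' := by
  obtain ⟨Ω, i1, i2, A, h1, h2, h3⟩ := h
  refine ⟨Ω, i1, i2, A, h1, fun Z hZ => (h2 Z hZ).trans ?_, fun Y hY => (h3 Y hY).trans ?_⟩
  · gcongr
  · gcongr

/-- the general theorem -/
theorem certified {δ c : ℕ → ℝ} {J : ℕ} {Kc : ℝ} (hδ : ∀ m, Tur m (δ m)) (h0 : ∀ m, 0 ≤ δ m)
    (hc0 : c 0 = 0) (hc : ∀ m, m + 1 < J → ((m : ℝ) + 1) * δ m ≤ c (m + 1))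
    (hK : ∀ m : ℕ, ((m : ℝ) + 1) * δ m ≤ Kc) (hJ : 1 ≤ J)
    {y x y₂ D P₁ D₁ V₂ lam V : ℝ} (hy : 0 < y) (hyx : y < x) (hy2 : 0 < y₂)
    (hD : Real.exp (-y) * Psi J c Kc x ≤ D) (hD1 : D + y₂ * Real.exp (-y) < D₁)
    (hP1 : Real.exp (-(y + y₂)) < P₁) (hP1' : P₁ < 1)
    (hV20 : 0 ≤ V₂) (hV2 : ∀ᶠ r : ℕ in atTop, Tur r (V₂ / ((r : ℝ) + 1)))
    (hl0 : 0 < lam) (hl1 : lam < 1)
    (hV : D₁ / lam + V₂ * P₁ / ((1 - lam) * (1 - P₁)) < V) (hV4 : V ≤ 4) :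
    ∀ᶠ r : ℕ in atTop, Tur r (V / ((r : ℝ) + 1)) := by
  have hE : 0 < Real.exp (-y) := Real.exp_pos _
  have hE2 : 0 < Real.exp (-(y + y₂)) := Real.exp_pos _
  have hP10 : 0 < P₁ := hE2.trans hP1
  have hl1' : 0 < 1 - lam := by linarith
  have hP1'' : 0 < 1 - P₁ := by linarith
  -- choose `q` and `η`
  obtain ⟨η, hη0, hη1, hη2⟩ : ∃ η : ℝ, 0 < η ∧
      (1 + η) * (1 + η) ^ 2 * Real.exp (-(y + y₂)) < P₁ ∧
      (1 + η) * (1 + η) * (D + y₂ * Real.exp (-y)) < D₁ := by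
    have c1 : Tendsto (fun η : ℝ => (1 + η) * (1 + η) ^ 2 * Real.exp (-(y + y₂)))
        (nhdsWithin 0 (Set.Ioi 0)) (nhds ((1 + 0) * (1 + 0) ^ 2 * Real.exp (-(y + y₂)))) := by
      apply Tendsto.mono_left _ nhdsWithin_le_nhds
      exact (Continuous.tendsto
        (f := fun η : ℝ => (1 + η) * (1 + η) ^ 2 * Real.exp (-(y + y₂))) (by fun_prop) 0)
    have c2 : Tendsto (fun η : ℝ => (1 + η) * (1 + η) * (D + y₂ * Real.exp (-y)))
        (nhdsWithin 0 (Set.Ioi 0)) (nhds ((1 + 0) * (1 + 0) * (D + y₂ * Real.exp (-y)))) := by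
      apply Tendsto.mono_left _ nhdsWithin_le_nhds
      exact (Continuous.tendsto
        (f := fun η : ℝ => (1 + η) * (1 + η) * (D + y₂ * Real.exp (-y))) (by fun_prop) 0)
    have b1 := c1.eventually_lt_const (u := P₁) (by simpa using hP1)
    have b2 := c2.eventually_lt_const (u := D₁) (by simpa using hD1)
    obtain ⟨η, ⟨h3, h4⟩, h5⟩ := ((b1.and b2).and self_mem_nhdsWithin).exists
    exact ⟨η, h5, h3, h4⟩
  obtain ⟨q, hq1, hq⟩ := Nat.exists_infinite_primes (⌈2 + 1 / η⌉₊ + 3)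
  have hqr : 2 + 1 / η ≤ (q : ℝ) := by
    have h1 := Nat.le_ceil (2 + 1 / η)
    have h2 : ((⌈2 + 1 / η⌉₊ + 3 : ℕ) : ℝ) ≤ (q : ℝ) := by exact_mod_cast hq1
    push_cast at h2
    linarith
  have hq3 : 3 ≤ q := by omega
  have hηi : 0 < 1 / η := by positivity
  have hq2 : (0 : ℝ) < (q : ℝ) - 2 := by linarith
  have hg : ((q : ℝ) - 1) / ((q : ℝ) - 2) ≤ 1 + η := by
    rw [div_le_iff₀ hq2]
    have h1 : 1 / η * η = 1 := by field_simp
    nlinarith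
  have hg0 : 0 < ((q : ℝ) - 1) / ((q : ℝ) - 2) := by apply div_pos <;> linarith
  obtain ⟨x', hx1, hx2⟩ : ∃ x', y < x' ∧ x' < x := exists_between hyx
  have hw := window_part glinj_thm glcard_thm dep_thm supp_thm exdep_thm red_thm lone_thm ch_thm
    mu_thm (δ := δ) (c := c) (J := J) (Kc := Kc) hδ h0 hc0 hc hK hJ hq hq3 (y := y)
    (x := x) (x' := x') (y₂ := y₂) (η := η) (D := D) hy hx1 hx2 hy2 hη0 hD
  have hDD : 0 ≤ D := by
    obtain ⟨h1, _⟩ := one_part hδ h0 hc0 hc hK hJ hy hyx one_pos hD (le_refl _)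
    exact h1
  have hDE : 0 ≤ D + y₂ * Real.exp (-y) := by positivity
  have hD10 : 0 ≤ D₁ := hDE.trans hD1.le
  -- an intermediate value
  obtain ⟨V', hV'1, hV'2⟩ := exists_between hV
  obtain ⟨P₂, hP20, hP21, hP2V⟩ : ∃ P₂ : ℝ, 0 < P₂ ∧ P₂ < 1 ∧
      D₁ / (lam * (1 - P₂)) + V₂ * P₁ / ((1 - lam) * (1 - P₁)) < V' := by
    have c1 : Tendsto (fun t : ℝ => D₁ / (lam * (1 - t)) + V₂ * P₁ / ((1 - lam) * (1 - P₁)))
        (nhdsWithin 0 (Set.Ioi 0))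
        (nhds (D₁ / (lam * (1 - 0)) + V₂ * P₁ / ((1 - lam) * (1 - P₁)))) := by
      apply Tendsto.mono_left _ nhdsWithin_le_nhds
      have hcts : ContinuousAt
          (fun t : ℝ => D₁ / (lam * (1 - t)) + V₂ * P₁ / ((1 - lam) * (1 - P₁))) 0 := by
        apply ContinuousAt.add _ continuousAt_const
        apply ContinuousAt.div continuousAt_const (by fun_prop)
        simp [hl0.ne']
      exact hcts
    have b1 := c1.eventually_lt_const (u := V') (by simpa using hV'1)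
    have b2 : ∀ᶠ t : ℝ in nhdsWithin 0 (Set.Ioi 0), t < 1 := by
      apply mem_nhdsWithin_of_mem_nhds
      exact Iio_mem_nhds one_pos
    obtain ⟨t, ⟨h3, h4⟩, h5⟩ := ((b1.and b2).and self_mem_nhdsWithin).exists
    exact ⟨t, h5, h4, h3⟩
  have hwt := wt_gen q y x' D₁ V₂ P₁ P₂ lam V' (by omega) hy hx1 hl0 hl1 hD10 hP10 hP1' hP20 hP21
    hV20 (by
      intro η' hη'
      filter_upwards [hV2] with d hd
      refine ⟨V₂ / ((d : ℝ) + 1), P₂, fun n => Rnd_mono (rnd_of_tur hd n) (le_refl _) hP20.le,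
        by positivity, hP20, le_refl _, ?_⟩
      rw [mul_div_cancel₀ _ (by positivity)]
      nlinarith) hP2V (by
      filter_upwards [hw] with K hK d hd1 hd2
      obtain ⟨a, Φ, h1, h2, h3, h4, h5⟩ := hK d hd1 hd2
      refine ⟨a, Φ, h1, h2, h3, h4.trans (le_trans ?_ hη1.le), h5.trans (le_trans ?_ hη2.le)⟩
      · apply mul_le_mul_of_nonneg_right _ hE2.le
        exact mul_le_mul_of_nonneg_right hg (by positivity)
      · apply mul_le_mul_of_nonneg_right _ hDE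
        exact mul_le_mul_of_nonneg_right hg (by positivity))
  obtain ⟨z, η', hz, hη', hwin⟩ := hwt
  have hV'0 : 0 ≤ V' := by
    have h1 : 0 ≤ D₁ / lam := div_nonneg hD10 hl0.le
    have h2 : 0 ≤ V₂ * P₁ / ((1 - lam) * (1 - P₁)) := by positivity
    linarith
  exact allr_thm q z η' V' V (by omega) hz hη' hV'0 (by linarith) hV'2 hwin

end Pool.Agent.TH589.DC
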