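import Pool.Agent.TH589.DC.General
import Pool.Agent.TH589.DC.Fin
import Pool.Agent.TH485.Tur.Conv
import Pool.Agent.TH485.Tur.D5
import Pool.Agent.TH485.Tur.D9
import Pool.Agent.TH703.Tur.Six

/-!
# The table of small Turán systems and the constant 1.7514 (helper589)

The systems of sizes 5, 8, 9, 10, 12, 14 are those of helper485, that of size 6 is helper703's.
-/

set_option autoImplicit false

open Finset Filter

namespace Pool.Agent.TH589.DC

open Pool.Agent.H369R2.TD Pool.Agent.TH485.Tur Pool.Agent.TH703.Tur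

/-- the table of upper bounds for `t(m+1, m)` -/
noncomputable def dt : ℕ → ℝ
  | 0 => 1
  | 1 => 1
  | 2 => 1 / 2
  | 3 => 4 / 9
  | 4 => 5 / 16
  | 5 => 30424 / 100000
  | 6 => 121 / 512
  | 7 => 121 / 512
  | 8 => 865 / 4096
  | 9 => 20952 / 100000
  | 10 => 749537 / 4194304
  | 11 => 749537 / 4194304
  | 12 => 5633941 / 33554432
  | 13 => 5633941 / 33554432
  | 14 => 16395 / 100000
  | 15 => 16395 / 100000
  | 16 => 16395 / 100000
  | 17 => 16395 / 100000
  | 18 => 16395 / 100000
  | 19 => 16395 / 100000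
  | 20 => 16395 / 100000
  | 21 => 16395 / 100000
  | 22 => 16395 / 100000
  | 23 => 16395 / 100000
  | (m + 24) => (4019 / 1000) / ((m : ℝ) + 25)

theorem dt_nonneg (m : ℕ) : 0 ≤ dt m := by
  unfold dt
  split <;> positivity

theorem tur_fourteen : Tur 14 (16395 / 100000) :=
  tur_of_good good_14 (by norm_num [J6])

theorem tur_dt (m : ℕ) : Tur m (dt m) := by
  have e (s : ℕ) (hs : 1 ≤ s) := tur_even s hs
  have h10 : Tur 10 (749537 / 4194304) := tur_of_good good_10 (by norm_num)
  have h12 : Tur 12 (5633941 / 33554432) := tur_of_good good_12 (by norm_num)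
  have h14 := tur_fourteen
  have h15 := h14.succ
  have h16 := h15.succ
  have h17 := h16.succ
  have h18 := h17.succ
  have h19 := h18.succ
  have h20 := h19.succ
  have h21 := h20.succ
  have h22 := h21.succ
  have h23 := h22.succ
  unfold dt
  split
  · exact tur_zero
  · exact tur_zero.succ
  · exact (e 1 (by norm_num)).mono (by norm_num)
  · exact tur_three
  · exact (e 2 (by norm_num)).mono (by norm_num)
  · exact tur_of_good d5_good (by norm_num)
  · exact tur_six
  · exact tur_six.succ
  · exact tur_of_good good_8 (by norm_num)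
  · exact tur_of_good d9_good (by norm_num)
  · exact h10
  · exact h10.succ
  · exact h12
  · exact h12.succ
  · exact h14
  · exact h15
  · exact h16
  · exact h17
  · exact h18
  · exact h19
  · exact h20
  · exact h21
  · exact h22
  · exact h23
  · rename_i k
    refine (tur_4019 (k + 24)).mono ?_
    push_cast
    apply le_of_eq
    congr 1
    ring

/-- `(m+1) dt m ≤ 4.019` -/
theorem dt_le (m : ℕ) : ((m : ℝ) + 1) * dt m ≤ 4019 / 1000 := by
  unfold dt
  split
  all_goals try norm_num
  rename_i k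
  have hk : (0 : ℝ) < (k : ℝ) + 25 := by positivity
  rw [mul_div_assoc', div_le_div_iff₀ hk (by norm_num)]
  nlinarith

/-- the table of the `c_j` -/
noncomputable def ct : ℕ → ℝ
  | 0 => 0
  | (m + 1) => ((m : ℝ) + 1) * dt m

theorem exp488_up : Real.exp (488 / 100) < 13163067 / 100000 := by
  have h1 : Real.exp (488 / 100) ^ 25 = Real.exp 1 ^ 122 := by
    rw [← Real.exp_nat_mul, ← Real.exp_nat_mul]; norm_num
  have h2 := Real.exp_one_lt_d9
  refine lt_of_pow_lt_pow_left₀ 25 (by norm_num) ?_
  rw [h1]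
  calc Real.exp 1 ^ 122 < 2.7182818286 ^ 122 := by gcongr
    _ < _ := by norm_num

theorem exp488_lo : 13163066 / 100000 < Real.exp (488 / 100) := by
  have h1 : Real.exp (488 / 100) ^ 25 = Real.exp 1 ^ 122 := by
    rw [← Real.exp_nat_mul, ← Real.exp_nat_mul]; norm_num
  have h2 := Real.exp_one_gt_d9
  refine lt_of_pow_lt_pow_left₀ 25 (Real.exp_pos _).le ?_
  rw [h1]
  calc (13163066 / 100000 : ℝ) ^ 25 < 2.7182818283 ^ 122 := by norm_num
    _ < _ := by gcongr

theorem exp6_lo : 403428 / 1000 < Real.exp 6 := by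
  have h1 : Real.exp 6 = Real.exp 1 ^ 6 := by
    rw [← Real.exp_nat_mul]; norm_num
  have h2 := Real.exp_one_gt_d9
  rw [h1]
  calc (403428 / 1000 : ℝ) < 2.7182818283 ^ 6 := by norm_num
    _ < _ := by gcongr

theorem exp_tiny : Real.exp (1 / 100000) ≤ 10000101 / 10000000 := by
  have h := Real.exp_bound' (x := 1 / 100000) (by norm_num) (by norm_num) (n := 2) (by norm_num)
  refine h.trans ?_
  norm_num [Finset.sum_range_succ, Nat.factorial]

theorem num1' : Real.exp (-(488 / 100)) * Psi 25 ct (4019 / 1000) (488001 / 100000)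
    ≤ 1690641 / 1000000 := by
  have hE : (0 : ℝ) < Real.exp (-(488 / 100)) := Real.exp_pos _
  have hlow : (100000 : ℝ) / 13163067 ≤ Real.exp (-(488 / 100)) := by
    rw [Real.exp_neg, ← one_div, div_le_div_iff₀ (by norm_num) (Real.exp_pos _)]
    have := exp488_up
    linarith
  have hx : Real.exp (-(488 / 100)) * Real.exp (488001 / 100000) = Real.exp (1 / 100000) := by
    rw [← Real.exp_add]; norm_num
  have hS : ∑ j ∈ range 25, (ct j - 4019 / 1000) * ((488001 / 100000 : ℝ) ^ j / (j.factorial : ℝ))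
      ≤ - (30648889 / 100000) := by
    simp only [Finset.sum_range_succ, Finset.sum_range_zero, ct, dt]
    norm_num [Nat.factorial]
  rw [Psi, mul_add]
  have h1 : Real.exp (-(488 / 100)) * (4019 / 1000 * Real.exp (488001 / 100000))
      = 4019 / 1000 * Real.exp (1 / 100000) := by
    rw [← hx]; ring
  rw [h1]
  have h2 := exp_tiny
  have h3 : Real.exp (-(488 / 100)) * ∑ j ∈ range 25, (ct j - 4019 / 1000) *
      ((488001 / 100000 : ℝ) ^ j / (j.factorial : ℝ))
      ≤ (100000 : ℝ) / 13163067 * (- (30648889 / 100000)) := by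
    nlinarith
  linarith

theorem num2' : Real.exp (-(488 / 100)) ≤ 7597015 / 1000000000 := by
  rw [Real.exp_neg, ← one_div, div_le_div_iff₀ (Real.exp_pos _) (by norm_num)]
  have := exp488_lo
  linarith

theorem num3' : Real.exp (-(488 / 100 + 6)) ≤ 188312 / 10000000000 := by
  have hP : Real.exp (-(6 : ℝ)) ≤ 1000 / 403428 := by
    rw [Real.exp_neg, ← one_div, div_le_div_iff₀ (Real.exp_pos _) (by norm_num)]
    have := exp6_lo
    linarith
  have h2 := num2'
  rw [show (-(488 / 100 + 6) : ℝ) = -(488 / 100) + -6 by ring, Real.exp_add]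
  calc Real.exp (-(488 / 100)) * Real.exp (-6) ≤ 7597015 / 1000000000 * (1000 / 403428) := by
        gcongr
    _ ≤ _ := by norm_num

theorem step_V {V₂ lam V : ℝ} (hV20 : 0 ≤ V₂)
    (hV2 : ∀ᶠ r : ℕ in atTop, Tur r (V₂ / ((r : ℝ) + 1)))
    (hl0 : 0 < lam) (hl1 : lam < 1)
    (hV : (1736224 / 1000000) / lam +
      V₂ * (188313 / 10000000000) / ((1 - lam) * (1 - 188313 / 10000000000)) < V) (hV4 : V ≤ 4) :
    ∀ᶠ r : ℕ in atTop, Tur r (V / ((r : ℝ) + 1)) :=
  certified (δ := dt) (c := ct) (J := 25) (Kc := 4019 / 1000) tur_dt dt_nonneg rfl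
    (fun m _ => le_refl _) dt_le (by norm_num) (y := 488 / 100) (x := 488001 / 100000)
    (y₂ := 6) (D := 1690641 / 1000000) (P₁ := 188313 / 10000000000) (D₁ := 1736224 / 1000000)
    (by norm_num) (by norm_num) (by norm_num) num1'
    (by have := num2'; linarith) (by have := num3'; linarith) (by norm_num) hV20 hV2 hl0 hl1 hV hV4

theorem tur_17514 : ∀ᶠ r : ℕ in atTop, Tur r ((17514 / 10000) / ((r : ℝ) + 1)) := by
  have h1 : ∀ᶠ r : ℕ in atTop, Tur r ((17518 / 10000) / ((r : ℝ) + 1)) :=
    step_V (V₂ := 1808 / 1000) (lam := 9956 / 10000) (by norm_num) tur_1808 (by norm_num)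
      (by norm_num) (by norm_num) (by norm_num)
  exact step_V (V₂ := 17518 / 10000) (lam := 99566 / 100000) (by norm_num) h1 (by norm_num)
      (by norm_num) (by norm_num) (by norm_num)

end Pool.Agent.TH589.DC
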